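import Pool.Agent.H.MP_08eaf3_pr.D.AbsDef

/-!
Part D: derivatives in `t` of the abstract perturbed system, convexity.
-/

set_option autoImplicit false

open MeasureTheory ProbabilityTheory Filter Topology Matrix

namespace SKC

variable {Ω ι : Type} [Fintype Ω] [Nonempty Ω] [Fintype ι] (v0 w : Ω → ι → ℝ) (a : Ω → ℝ)

/-- `dot` is affine in `t`. Proof: expand the sums. -/
theorem dot_vt (x : ι → ℝ) (t : ℝ) (ω : Ω) :
    dot x (vt v0 w t ω) = dot x (v0 ω) + t * dot x (w ω) := by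
  unfold dot vt
  rw [Finset.mul_sum, ← Finset.sum_add_distrib]
  exact Finset.sum_congr rfl fun i _ => by ring

/-- derivative of the Boltzmann factors -/
theorem Abs1_exp (x : ι → ℝ) (t : ℝ) (ω : Ω) :
    HasDerivAt (fun s => Real.exp (dot x (vt v0 w s ω) + a ω))
      (Real.exp (dot x (vt v0 w t ω) + a ω) * dot x (w ω)) t := by
  have h1 : HasDerivAt (fun s : ℝ => dot x (vt v0 w s ω) + a ω) (dot x (w ω)) t := by
    have h2 : (fun s : ℝ => dot x (vt v0 w s ω) + a ω) =
        fun s : ℝ => dot x (v0 ω) + s * dot x (w ω) + a ω := by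
      funext s
      rw [dot_vt]
    rw [h2]
    have h3 := (((hasDerivAt_id t).mul_const (dot x (w ω))).const_add (dot x (v0 ω))).add_const (a ω)
    rw [one_mul] at h3
    exact h3
  exact h1.exp

/-- derivative of the partition function -/
theorem Abs1_Z (x : ι → ℝ) (t : ℝ) :
    HasDerivAt (fun s => ∑ ω, Real.exp (dot x (vt v0 w s ω) + a ω))
      (∑ ω, Real.exp (dot x (vt v0 w t ω) + a ω) * dot x (w ω)) t :=
  HasDerivAt.fun_sum fun ω _ => Abs1_exp v0 w a x t ω

omit [Nonempty Ω] in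
theorem Abs1_AL1 (x : ι → ℝ) (t : ℝ) : AL1 v0 w a t x =
    (∑ ω, Real.exp (dot x (vt v0 w t ω) + a ω) * dot x (w ω)) /
      ∑ ω, Real.exp (dot x (vt v0 w t ω) + a ω) := by
  unfold AL1 gw
  rw [Finset.sum_div]
  exact Finset.sum_congr rfl fun ω _ => by ring

theorem Abs1_pos (x : ι → ℝ) (t : ℝ) : 0 < ∑ ω, Real.exp (dot x (vt v0 w t ω) + a ω) :=
  Finset.sum_pos (fun _ _ => Real.exp_pos _) Finset.univ_nonempty

/-- First derivative. Proof: `dot_vt`; derivative of the logarithm of a finite sum of exponentials of affine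
functions of `t` (`HasDerivAt.log`, the sum is positive), which is
`(∑ ω, exp(..) * dot x (w ω)) / ∑ exp(..) = AL1`. -/
theorem hasDerivAt_AL (x : ι → ℝ) (t : ℝ) :
    HasDerivAt (fun s => AL v0 w a s x) (AL1 v0 w a t x) t := by
  rw [Abs1_AL1]
  exact (Abs1_Z v0 w a x t).log (Abs1_pos v0 w a x t).ne'

/-- Derivative of a Gibbs weight: `gw' = gw * (dot x (w ω) - AL1)`. -/
theorem hasDerivAt_gw (x : ι → ℝ) (t : ℝ) (ω : Ω) :
    HasDerivAt (fun s => gw (vt v0 w s) a x ω)
      (gw (vt v0 w t) a x ω * (dot x (w ω) - AL1 v0 w a t x)) t := by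
  have h0 := (Abs1_pos v0 w a x t).ne'
  have h1 := (Abs1_exp v0 w a x t ω).fun_div (Abs1_Z v0 w a x t) h0
  have h2 : (fun s => gw (vt v0 w s) a x ω) = fun s => Real.exp (dot x (vt v0 w s ω) + a ω) /
      ∑ ω', Real.exp (dot x (vt v0 w s ω') + a ω') := rfl
  rw [h2]
  refine h1.congr_deriv ?_
  rw [Abs1_AL1]
  unfold gw
  field_simp

/-- Second derivative. Proof: `hasDerivAt_gw`, and
`∑ gw (e - AL1) e = ∑ gw (e - AL1)^2` because `∑ gw (e - AL1) = 0` (`gw_sum`). -/
theorem hasDerivAt_AL1 (x : ι → ℝ) (t : ℝ) :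
    HasDerivAt (fun s => AL1 v0 w a s x) (AL2 v0 w a t x) t := by
  have h1 : HasDerivAt (fun s => AL1 v0 w a s x)
      (∑ ω, gw (vt v0 w t) a x ω * (dot x (w ω) - AL1 v0 w a t x) * dot x (w ω)) t :=
    HasDerivAt.fun_sum fun ω _ => (hasDerivAt_gw v0 w a x t ω).mul_const (dot x (w ω))
  refine h1.congr_deriv ?_
  unfold AL2
  have h2 : ∑ ω, gw (vt v0 w t) a x ω * (dot x (w ω) - AL1 v0 w a t x) = 0 := by
    have h3 : ∑ ω, gw (vt v0 w t) a x ω * (dot x (w ω) - AL1 v0 w a t x) =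
        AL1 v0 w a t x - (∑ ω, gw (vt v0 w t) a x ω) * AL1 v0 w a t x := by
      unfold AL1
      rw [Finset.sum_mul, ← Finset.sum_sub_distrib]
      exact Finset.sum_congr rfl fun ω _ => by ring
    rw [h3, gw_sum]
    ring
  have h4 : ∑ ω, gw (vt v0 w t) a x ω * (dot x (w ω) - AL1 v0 w a t x) * dot x (w ω) =
      ∑ ω, gw (vt v0 w t) a x ω * (dot x (w ω) - AL1 v0 w a t x) ^ 2 +
        (∑ ω, gw (vt v0 w t) a x ω * (dot x (w ω) - AL1 v0 w a t x)) * AL1 v0 w a t x := by
    rw [Finset.sum_mul, ← Finset.sum_add_distrib]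
    exact Finset.sum_congr rfl fun ω _ => by ring
  rw [h4, h2, zero_mul, add_zero]

/-- nonnegativity -/
theorem AL2_nonneg (x : ι → ℝ) (t : ℝ) : 0 ≤ AL2 v0 w a t x := by
  exact Finset.sum_nonneg fun ω _ => mul_nonneg (gw_nonneg _ _ _ _) (sq_nonneg _)

/-- monotonicity of the first derivative (`monotone_of_deriv_nonneg`) -/
theorem AL1_mono (x : ι → ℝ) : Monotone (fun t => AL1 v0 w a t x) := by
  refine monotone_of_deriv_nonneg (fun t => (hasDerivAt_AL1 v0 w a x t).differentiableAt) fun t => ?_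
  rw [(hasDerivAt_AL1 v0 w a x t).deriv]
  exact AL2_nonneg v0 w a x t

/-- Convexity: the tangent line is below the function. Proof: convexity of `AL` in `t`, or the mean value
theorem and `AL1_mono`; alternatively Jensen's inequality for the Gibbs weights:
`AL s = AL t + log ∑ ω, gw t ω * exp ((s - t) * e ω) ≥ AL t + (s - t) * AL1 t`. -/
theorem AL_ge (x : ι → ℝ) (s t : ℝ) :
    AL v0 w a t x + (s - t) * AL1 v0 w a t x ≤ AL v0 w a s x := by
  rcases lt_trichotomy s t with h | h | h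
  · obtain ⟨c, hc, hc2⟩ := exists_hasDerivAt_eq_slope (fun s => AL v0 w a s x)
      (fun s => AL1 v0 w a s x) h
      (fun r _ => (hasDerivAt_AL v0 w a x r).continuousAt.continuousWithinAt)
      (fun r _ => hasDerivAt_AL v0 w a x r)
    have h1 : AL1 v0 w a c x ≤ AL1 v0 w a t x := AL1_mono v0 w a x hc.2.le
    have h2 : 0 < t - s := by linarith
    rw [eq_div_iff h2.ne'] at hc2
    have h3 := mul_le_mul_of_nonneg_right h1 h2.le
    linarith
  · rw [h]
    simp
  · obtain ⟨c, hc, hc2⟩ := exists_hasDerivAt_eq_slope (fun s => AL v0 w a s x)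
      (fun s => AL1 v0 w a s x) h
      (fun r _ => (hasDerivAt_AL v0 w a x r).continuousAt.continuousWithinAt)
      (fun r _ => hasDerivAt_AL v0 w a x r)
    have h1 : AL1 v0 w a t x ≤ AL1 v0 w a c x := AL1_mono v0 w a x hc.1.le
    have h2 : 0 < s - t := by linarith
    rw [eq_div_iff h2.ne'] at hc2
    have h3 := mul_le_mul_of_nonneg_right h1 h2.le
    linarith

/-- Jensen for the Gibbs weights: the mean absolute deviation is at most the square root of the variance. -/
theorem mad_le (x : ι → ℝ) (t : ℝ) :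
    ∑ ω, gw (vt v0 w t) a x ω * |dot x (w ω) - AL1 v0 w a t x| ≤ Real.sqrt (AL2 v0 w a t x) := by
  apply Real.le_sqrt_of_sq_le
  have h1 := Finset.sum_sq_le_sum_mul_sum_of_sq_eq_mul (Finset.univ : Finset Ω)
    (r := fun ω => gw (vt v0 w t) a x ω * |dot x (w ω) - AL1 v0 w a t x|)
    (f := fun ω => gw (vt v0 w t) a x ω)
    (g := fun ω => gw (vt v0 w t) a x ω * (dot x (w ω) - AL1 v0 w a t x) ^ 2)
    (fun ω _ => gw_nonneg _ _ _ _)
    (fun ω _ => mul_nonneg (gw_nonneg _ _ _ _) (sq_nonneg _))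
    (fun ω _ => by rw [mul_pow, sq_abs]; ring)
  rw [gw_sum, one_mul] at h1
  exact h1

end SKC
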