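import Pool.Agent.H.MP_08eaf3_pr.D.AbsDef

/-!
Part D: joint continuity and growth of the abstract perturbed system, continuity of Gaussian integrals
depending on a parameter.
-/

set_option autoImplicit false

open MeasureTheory ProbabilityTheory Filter Topology Matrix

namespace SKC

theorem Abs1b_exp_integrable {ι : Type} [Fintype ι] (C k : ℝ) :
    Integrable (fun z : ι → ℝ => C * Real.exp (k * ∑ i, |z i|)) (gam ι) := by
  refine integrable_growth ?_ |C| k fun x => ?_
  · fun_prop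
  · rw [abs_mul, Real.abs_exp]

/-- Continuity of a Gaussian integral in a parameter. Proof: `continuousAt_of_dominated` (in a first
countable space) with the dominating function `C * exp (k * ∑ i, |z i|)`, integrable by
`integrable_growth`; measurability of `Φ y` from continuity. -/
theorem continuous_int_gam {Y ι : Type} [Fintype ι] [TopologicalSpace Y] [FirstCountableTopology Y]
    (Φ : Y → (ι → ℝ) → ℝ) (hΦ : Continuous (fun p : Y × (ι → ℝ) => Φ p.1 p.2))
    (hb : ∀ y0 : Y, ∃ C k : ℝ, ∀ᶠ y in 𝓝 y0, ∀ z, |Φ y z| ≤ C * Real.exp (k * ∑ i, |z i|)) :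
    Continuous (fun y => ∫ z, Φ y z ∂(gam ι)) := by
  rw [continuous_iff_continuousAt]
  intro y0
  obtain ⟨C, k, h⟩ := hb y0
  refine continuousAt_of_dominated (bound := fun z => C * Real.exp (k * ∑ i, |z i|)) ?_ ?_
    (Abs1b_exp_integrable C k) ?_
  · refine Eventually.of_forall fun y => ?_
    have : Continuous (Φ y) := hΦ.comp (Continuous.prodMk continuous_const continuous_id)
    exact this.aestronglyMeasurable
  · filter_upwards [h] with y hy
    exact Eventually.of_forall fun z => by rw [Real.norm_eq_abs]; exact hy z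
  · refine Eventually.of_forall fun z => ?_
    have : Continuous (fun y => Φ y z) := hΦ.comp (Continuous.prodMk continuous_id continuous_const)
    exact this.continuousAt

/-- growth of a dot product -/
theorem abs_dot_le {ι : Type} [Fintype ι] (x y : ι → ℝ) (C : ℝ) (hC : ∀ i, |y i| ≤ C) :
    |dot x y| ≤ C * ∑ i, |x i| := by
  unfold dot
  rw [Finset.mul_sum]
  refine (Finset.abs_sum_le_sum_abs _ _).trans (Finset.sum_le_sum fun i _ => ?_)
  rw [abs_mul, mul_comm]
  exact mul_le_mul_of_nonneg_right (hC i) (abs_nonneg _)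

theorem Abs1b_dot_cont {Y Ω ι : Type} [Fintype ι] [TopologicalSpace Y]
    (V : Y → Ω → ι → ℝ) (hV : ∀ ω i, Continuous (fun y => V y ω i)) (ω : Ω) :
    Continuous (fun p : Y × (ι → ℝ) => dot p.2 (V p.1 ω)) := by
  unfold dot
  refine continuous_finsetSum _ fun i _ => ?_
  exact ((continuous_apply i).comp continuous_snd).mul ((hV ω i).comp continuous_fst)

/-- Joint continuity of the Gibbs weights when the features depend continuously on a parameter. -/
theorem continuous_gw_joint {Y Ω ι : Type} [Fintype Ω] [Fintype ι] [TopologicalSpace Y]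
    (V : Y → Ω → ι → ℝ) (hV : ∀ ω i, Continuous (fun y => V y ω i)) (a : Ω → ℝ) (ω : Ω) :
    Continuous (fun p : Y × (ι → ℝ) => gw (V p.1) a p.2 ω) := by
  have : Nonempty Ω := ⟨ω⟩
  have hd : ∀ ω' : Ω, Continuous fun p : Y × (ι → ℝ) => Real.exp (dot p.2 (V p.1 ω') + a ω') :=
    fun ω' => Real.continuous_exp.comp ((Abs1b_dot_cont V hV ω').add continuous_const)
  exact (hd ω).div (continuous_finsetSum _ fun ω' _ => hd ω') fun x =>
    (Finset.sum_pos (fun _ _ => Real.exp_pos _) Finset.univ_nonempty).ne'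

/-- Joint continuity of the log partition function when the features depend continuously on a parameter
(`Ω` is nonempty, so the sum is positive). -/
theorem continuous_lse_joint {Y Ω ι : Type} [Fintype Ω] [Nonempty Ω] [Fintype ι] [TopologicalSpace Y]
    (V : Y → Ω → ι → ℝ) (hV : ∀ ω i, Continuous (fun y => V y ω i)) (a : Ω → ℝ) :
    Continuous (fun p : Y × (ι → ℝ) => lse Finset.univ (fun ω => dot p.2 (V p.1 ω) + a ω)) := by
  have hd : ∀ ω' : Ω, Continuous fun p : Y × (ι → ℝ) => Real.exp (dot p.2 (V p.1 ω') + a ω') :=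
    fun ω' => Real.continuous_exp.comp ((Abs1b_dot_cont V hV ω').add continuous_const)
  exact (continuous_finsetSum _ fun ω' _ => hd ω').log fun x =>
    (Finset.sum_pos (fun _ _ => Real.exp_pos _) Finset.univ_nonempty).ne'

/-- Growth of log-sum-exp: if all `|b ω| ≤ R` then `|lse B b| ≤ log (card B) + R`. -/
theorem abs_lse_le {Ω : Type} (B : Finset Ω) (hB : B.Nonempty) (b : Ω → ℝ) (R : ℝ)
    (hb : ∀ ω ∈ B, |b ω| ≤ R) : |lse B b| ≤ Real.log B.card + R := by
  have hcard : (1 : ℝ) ≤ B.card := by exact_mod_cast hB.card_pos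
  have hpos : 0 < ∑ ω ∈ B, Real.exp (b ω) := Finset.sum_pos (fun _ _ => Real.exp_pos _) hB
  have hlog : 0 ≤ Real.log B.card := Real.log_nonneg hcard
  have h1 : ∑ ω ∈ B, Real.exp (b ω) ≤ B.card * Real.exp R := by
    have := Finset.sum_le_card_nsmul B (fun ω => Real.exp (b ω)) (Real.exp R)
      (fun ω hω => Real.exp_le_exp.2 ((abs_le.1 (hb ω hω)).2))
    rwa [nsmul_eq_mul] at this
  have h2 : Real.exp (-R) ≤ ∑ ω ∈ B, Real.exp (b ω) := by
    obtain ⟨ω, hω⟩ := hB
    refine le_trans (Real.exp_le_exp.2 ((abs_le.1 (hb ω hω)).1)) ?_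
    exact Finset.single_le_sum (f := fun ω => Real.exp (b ω)) (fun _ _ => (Real.exp_pos _).le) hω
  unfold lse
  rw [abs_le]
  constructor
  · have h3 := Real.log_le_log (Real.exp_pos _) h2
    rw [Real.log_exp] at h3
    linarith
  · have h3 := Real.log_le_log hpos h1
    rwa [Real.log_mul (by positivity) (Real.exp_pos _).ne', Real.log_exp] at h3

/-- A Gibbs average is bounded by the bound of the function. -/
theorem abs_gw_sum_le {Ω ι : Type} [Fintype Ω] [Nonempty Ω] [Fintype ι] (v : Ω → ι → ℝ) (a : Ω → ℝ)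
    (x : ι → ℝ) (h : Ω → ℝ) (R : ℝ) (hh : ∀ ω, |h ω| ≤ R) : |∑ ω, gw v a x ω * h ω| ≤ R := by
  calc |∑ ω, gw v a x ω * h ω| ≤ ∑ ω, |gw v a x ω * h ω| := Finset.abs_sum_le_sum_abs _ _
    _ ≤ ∑ ω, gw v a x ω * R := Finset.sum_le_sum fun ω _ => by
        rw [abs_mul, abs_of_nonneg (gw_nonneg v a x ω)]
        exact mul_le_mul_of_nonneg_left (hh ω) (gw_nonneg v a x ω)
    _ = R := by rw [← Finset.sum_mul, gw_sum, one_mul]

variable {Ω ι : Type} [Fintype Ω] [Nonempty Ω] [Fintype ι] (v0 w : Ω → ι → ℝ) (a : Ω → ℝ)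

/-- Growth of the log partition function, its first and second derivative: there are constants, uniform for
`t` in a bounded set. Proof: with `C0 = ∑ ω, ∑ i, (|v0 ω i| + |w ω i|) + ∑ ω, |a ω|` every energy is bounded by
`(1 + T) * C0 * (1 + ∑ |x i|)`; `1 + s ≤ exp s`, `(1 + s)^2 ≤ exp (2 s)`. -/
theorem AL_growth (T : ℝ) : ∃ C k : ℝ, ∀ t x, |t| ≤ T →
    |AL v0 w a t x| ≤ C * Real.exp (k * ∑ i, |x i|) ∧
    |AL1 v0 w a t x| ≤ C * Real.exp (k * ∑ i, |x i|) ∧
    |AL2 v0 w a t x| ≤ C * Real.exp (k * ∑ i, |x i|) ∧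
    (∀ ω, |dot x (w ω)| ≤ C * Real.exp (k * ∑ i, |x i|)) := by
  set C0 : ℝ := (∑ ω, ∑ i, (|v0 ω i| + |w ω i|)) + ∑ ω, |a ω| with hC0
  have hin : ∀ ω i, |v0 ω i| + |w ω i| ≤ ∑ ω, ∑ i, (|v0 ω i| + |w ω i|) := by
    intro ω i
    refine le_trans (Finset.single_le_sum (f := fun i => |v0 ω i| + |w ω i|) (fun _ _ => by positivity)
      (Finset.mem_univ i)) ?_
    exact Finset.single_le_sum (f := fun ω => ∑ i, (|v0 ω i| + |w ω i|))
      (fun _ _ => Finset.sum_nonneg fun _ _ => by positivity) (Finset.mem_univ ω)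
  have hS1 : 0 ≤ ∑ ω, ∑ i, (|v0 ω i| + |w ω i|) :=
    Finset.sum_nonneg fun _ _ => Finset.sum_nonneg fun _ _ => by positivity
  have hS2 : 0 ≤ ∑ ω, |a ω| := Finset.sum_nonneg fun _ _ => by positivity
  have hC0n : 0 ≤ C0 := by rw [hC0]; positivity
  have hv : ∀ ω i, |v0 ω i| + |w ω i| ≤ C0 := fun ω i => (hin ω i).trans (by rw [hC0]; linarith)
  have ha : ∀ ω, |a ω| ≤ C0 := by
    intro ω
    have := Finset.single_le_sum (f := fun ω => |a ω|) (fun _ _ => abs_nonneg _) (Finset.mem_univ ω)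
    rw [hC0]
    linarith
  set A : ℝ := (1 + |T|) * C0 with hA
  have hAC : C0 ≤ A := by
    rw [hA]
    nlinarith [abs_nonneg T]
  set L : ℝ := Real.log (Finset.univ : Finset Ω).card with hL
  have hL0 : 0 ≤ L := Real.log_nonneg (by exact_mod_cast (Finset.univ_nonempty (α := Ω)).card_pos)
  refine ⟨L + A + C0 + 4 * C0 ^ 2, 2, fun t x ht => ?_⟩
  set s : ℝ := ∑ i, |x i| with hs
  have hs0 : 0 ≤ s := Finset.sum_nonneg fun _ _ => abs_nonneg _
  have he0 : 0 < Real.exp (2 * s) := Real.exp_pos _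
  have he1 : 1 + s ≤ Real.exp (2 * s) := by
    have h1 := Real.add_one_le_exp s
    have h2 : Real.exp s ≤ Real.exp (2 * s) := Real.exp_le_exp.2 (by linarith)
    linarith
  have he2 : s ^ 2 ≤ Real.exp (2 * s) := by
    have h1 := Real.add_one_le_exp s
    have h2 : Real.exp (2 * s) = Real.exp s ^ 2 := by
      rw [← Real.exp_nat_mul]
      norm_num
    rw [h2]
    exact pow_le_pow_left₀ hs0 (by linarith) 2
  have hw : ∀ ω, |dot x (w ω)| ≤ C0 * s := fun ω =>
    abs_dot_le x (w ω) C0 fun i => le_trans (by linarith [abs_nonneg (v0 ω i)]) (hv ω i)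
  have hvt : ∀ ω, |dot x (vt v0 w t ω)| ≤ A * s := fun ω =>
    abs_dot_le x _ A fun i => by
      unfold vt
      refine (abs_add_le _ _).trans ?_
      rw [abs_mul]
      have h1 := hv ω i
      have h2 : |t| ≤ |T| := ht.trans (le_abs_self T)
      have h3 := abs_nonneg (v0 ω i)
      have h4 := abs_nonneg (w ω i)
      have h5 : |t| * |w ω i| ≤ |T| * |w ω i| := mul_le_mul_of_nonneg_right h2 h4
      have h6 : |T| * |w ω i| ≤ |T| * C0 := mul_le_mul_of_nonneg_left (by linarith) (abs_nonneg _)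
      rw [hA]
      linarith
  have hAL1 : |AL1 v0 w a t x| ≤ C0 * s := abs_gw_sum_le _ a x _ _ hw
  have hCs : C0 * s ≤ C0 * Real.exp (2 * s) := mul_le_mul_of_nonneg_left (by linarith) hC0n
  have hsplit : (L + A + C0 + 4 * C0 ^ 2) * Real.exp (2 * s) =
      L * Real.exp (2 * s) + A * Real.exp (2 * s) + C0 * Real.exp (2 * s)
        + 4 * C0 ^ 2 * Real.exp (2 * s) := by ring
  have hA0 : 0 ≤ A := hC0n.trans hAC
  have n1 : 0 ≤ L * Real.exp (2 * s) := by positivity
  have n2 : 0 ≤ A * Real.exp (2 * s) := by positivity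
  have n3 : 0 ≤ C0 * Real.exp (2 * s) := by positivity
  have n4 : 0 ≤ 4 * C0 ^ 2 * Real.exp (2 * s) := by positivity
  refine ⟨?_, ?_, ?_, fun ω => ?_⟩
  · have h1 : |AL v0 w a t x| ≤ L + A * (1 + s) := by
      refine abs_lse_le Finset.univ Finset.univ_nonempty _ _ fun ω _ => ?_
      refine (abs_add_le _ _).trans ?_
      have := hvt ω
      have := ha ω
      linarith
    have h2 : A * (1 + s) ≤ A * Real.exp (2 * s) := mul_le_mul_of_nonneg_left he1 hA0
    have h3 : L ≤ L * Real.exp (2 * s) := by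
      have : 1 ≤ Real.exp (2 * s) := by linarith
      nlinarith
    linarith
  · linarith
  · have h1 : |AL2 v0 w a t x| ≤ (2 * (C0 * s)) ^ 2 := by
      refine abs_gw_sum_le _ a x _ _ fun ω => ?_
      rw [abs_pow]
      refine pow_le_pow_left₀ (abs_nonneg _) ?_ 2
      refine (abs_sub _ _).trans ?_
      have := hw ω
      linarith
    have h2 : (2 * (C0 * s)) ^ 2 ≤ 4 * C0 ^ 2 * Real.exp (2 * s) := by
      have : (2 * (C0 * s)) ^ 2 = 4 * C0 ^ 2 * s ^ 2 := by ring
      rw [this]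
      exact mul_le_mul_of_nonneg_left he2 (by positivity)
    linarith
  · have := hw ω
    linarith

theorem Abs1b_vt_cont (ω : Ω) (i : ι) : Continuous (fun t : ℝ => vt v0 w t ω i) := by
  unfold vt
  fun_prop

theorem Abs1b_gw_cont (ω : Ω) : Continuous (fun p : ℝ × (ι → ℝ) => gw (vt v0 w p.1) a p.2 ω) :=
  continuous_gw_joint (fun t => vt v0 w t) (fun ω i => Abs1b_vt_cont v0 w ω i) a ω

theorem Abs1b_dw_cont (ω : Ω) : Continuous (fun p : ℝ × (ι → ℝ) => dot p.2 (w ω)) :=
  Abs1b_dot_cont (fun _ : ℝ => w) (fun _ _ => continuous_const) ω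

/-- joint continuity -/
theorem AL_cont : Continuous (fun p : ℝ × (ι → ℝ) => AL v0 w a p.1 p.2) :=
  continuous_lse_joint (fun t => vt v0 w t) (fun ω i => Abs1b_vt_cont v0 w ω i) a

/-- joint continuity -/
theorem AL1_cont : Continuous (fun p : ℝ × (ι → ℝ) => AL1 v0 w a p.1 p.2) :=
  continuous_finsetSum _ fun ω _ => (Abs1b_gw_cont v0 w a ω).mul (Abs1b_dw_cont w ω)

/-- joint continuity -/
theorem AL2_cont : Continuous (fun p : ℝ × (ι → ℝ) => AL2 v0 w a p.1 p.2) :=
  continuous_finsetSum _ fun ω _ => (Abs1b_gw_cont v0 w a ω).mul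
    (((Abs1b_dw_cont w ω).sub (AL1_cont v0 w a)).pow 2)

/-- integrability of the log partition function -/
theorem AL_integrable (t : ℝ) : Integrable (fun x => AL v0 w a t x) (gam ι) := by
  obtain ⟨C, k, h⟩ := AL_growth v0 w a |t|
  have h1 : Continuous (fun x : ι → ℝ => AL v0 w a t x) :=
    (AL_cont v0 w a).comp (Continuous.prodMk continuous_const continuous_id)
  exact integrable_growth h1 C k fun x => (h t x le_rfl).1

/-- integrability of the first derivative -/
theorem AL1_integrable (t : ℝ) : Integrable (fun x => AL1 v0 w a t x) (gam ι) := by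
  obtain ⟨C, k, h⟩ := AL_growth v0 w a |t|
  have h1 : Continuous (fun x : ι → ℝ => AL1 v0 w a t x) := by
    have h2 : Continuous (fun x : ι → ℝ => ((t, x) : ℝ × (ι → ℝ))) :=
      Continuous.prodMk continuous_const continuous_id
    have h4 := (AL1_cont v0 w a).comp h2
    simpa only [Function.comp_def] using h4
  have h3 : ∀ x : ι → ℝ, |AL1 v0 w a t x| ≤ C * Real.exp (k * ∑ i, |x i|) := fun x => (h t x le_rfl).2.1
  exact integrable_growth h1 C k h3

/-- integrability of the second derivative -/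
theorem AL2_integrable (t : ℝ) : Integrable (fun x => AL2 v0 w a t x) (gam ι) := by
  obtain ⟨C, k, h⟩ := AL_growth v0 w a |t|
  have h1 : Continuous (fun x : ι → ℝ => AL2 v0 w a t x) := by
    have h2 : Continuous (fun x : ι → ℝ => ((t, x) : ℝ × (ι → ℝ))) :=
      Continuous.prodMk continuous_const continuous_id
    have h4 := (AL2_cont v0 w a).comp h2
    simpa only [Function.comp_def] using h4
  have h3 : ∀ x : ι → ℝ, |AL2 v0 w a t x| ≤ C * Real.exp (k * ∑ i, |x i|) := fun x => (h t x le_rfl).2.2.1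
  exact integrable_growth h1 C k h3

theorem Abs1b_ev (t0 : ℝ) : ∀ᶠ t in 𝓝 t0, |t| ≤ |t0| + 1 := by
  have h : ContinuousAt (fun t : ℝ => |t|) t0 := continuous_abs.continuousAt
  filter_upwards [h.eventually_lt_const (show |t0| < |t0| + 1 by linarith)] with t ht
  exact ht.le

/-- continuity of the quenched average of the energy -/
theorem am1_cont : Continuous (am1 v0 w a) := by
  refine continuous_int_gam (fun t x => AL1 v0 w a t x) (AL1_cont v0 w a) fun t0 => ?_
  obtain ⟨C, k, h⟩ := AL_growth v0 w a (|t0| + 1)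
  refine ⟨C, k, ?_⟩
  filter_upwards [Abs1b_ev t0] with t ht z
  exact (h t z ht).2.1

/-- continuity of the quenched average of the second derivative -/
theorem int_AL2_cont : Continuous (fun t => ∫ x, AL2 v0 w a t x ∂(gam ι)) := by
  refine continuous_int_gam (fun t x => AL2 v0 w a t x) (AL2_cont v0 w a) fun t0 => ?_
  obtain ⟨C, k, h⟩ := AL_growth v0 w a (|t0| + 1)
  refine ⟨C, k, ?_⟩
  filter_upwards [Abs1b_ev t0] with t ht z
  exact (h t z ht).2.2.1

/-- growth of the absolute deviation -/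
theorem Abs1b_dev_growth (T M : ℝ) : ∃ C k : ℝ, ∀ (t m : ℝ) (x : ι → ℝ), (|t| ≤ T) → (|m| ≤ M) →
    |(∑ ω, gw (vt v0 w t) a x ω * |dot x (w ω) - m|)| ≤ C * Real.exp (k * ∑ i, |x i|) := by
  obtain ⟨C, k, h⟩ := AL_growth v0 w a T
  refine ⟨|C| + |M|, |k|, fun t m x ht hm => ?_⟩
  refine abs_gw_sum_le _ a x _ _ fun ω => ?_
  rw [abs_abs]
  refine (abs_sub _ _).trans ?_
  have hs0 : 0 ≤ ∑ i, |x i| := Finset.sum_nonneg fun _ _ => abs_nonneg _
  have h1 := (h t x ht).2.2.2 ω
  have h2 : Real.exp (k * ∑ i, |x i|) ≤ Real.exp (|k| * ∑ i, |x i|) :=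
    Real.exp_le_exp.2 (mul_le_mul_of_nonneg_right (le_abs_self k) hs0)
  have h3 : C * Real.exp (k * ∑ i, |x i|) ≤ |C| * Real.exp (|k| * ∑ i, |x i|) :=
    (mul_le_mul_of_nonneg_right (le_abs_self C) (Real.exp_pos _).le).trans
      (mul_le_mul_of_nonneg_left h2 (abs_nonneg C))
  have h4 : 1 ≤ Real.exp (|k| * ∑ i, |x i|) := Real.one_le_exp (by positivity)
  have h5 : |m| ≤ |M| * Real.exp (|k| * ∑ i, |x i|) := by
    have h6 : |m| ≤ |M| := hm.trans (le_abs_self M)
    have h7 := abs_nonneg M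
    nlinarith
  rw [add_mul]
  linarith

/-- continuity of the quenched absolute deviation -/
theorem aDD_cont : Continuous (aDD v0 w a) := by
  have hm := am1_cont v0 w a
  refine continuous_int_gam (fun t x => ∑ ω, gw (vt v0 w t) a x ω * |dot x (w ω) - am1 v0 w a t|) ?_
    fun t0 => ?_
  · exact continuous_finsetSum _ fun ω _ => (Abs1b_gw_cont v0 w a ω).mul
      ((Abs1b_dw_cont w ω).sub (hm.comp continuous_fst)).abs
  · obtain ⟨C, k, h⟩ := Abs1b_dev_growth v0 w a (|t0| + 1) (|am1 v0 w a t0| + 1)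
    refine ⟨C, k, ?_⟩
    have h1 : ContinuousAt (fun t : ℝ => |am1 v0 w a t|) t0 := hm.abs.continuousAt
    filter_upwards [Abs1b_ev t0, h1.eventually_lt_const
      (show |am1 v0 w a t0| < |am1 v0 w a t0| + 1 by linarith)] with t ht ht2 z
    exact h t _ z ht ht2.le

/-- integrability of the absolute deviations -/
theorem dev_integrable (t m : ℝ) :
    Integrable (fun x => ∑ ω, gw (vt v0 w t) a x ω * |dot x (w ω) - m|) (gam ι) := by
  obtain ⟨C, k, h⟩ := Abs1b_dev_growth v0 w a |t| |m|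
  refine integrable_growth ?_ C k fun x => h t m x le_rfl le_rfl
  refine continuous_finsetSum _ fun ω _ => ?_
  have h1 : Continuous fun x : ι → ℝ => gw (vt v0 w t) a x ω :=
    (Abs1b_gw_cont v0 w a ω).comp (Continuous.prodMk continuous_const continuous_id)
  have h2 : Continuous fun x : ι → ℝ => dot x (w ω) :=
    (Abs1b_dw_cont w ω).comp (Continuous.prodMk (continuous_const (y := (0 : ℝ))) continuous_id)
  exact h1.mul (h2.sub continuous_const).abs

end SKC
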