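import Pool.Agent.H.MP_08eaf3_pr.D.Abs1
import Pool.Agent.H.MP_08eaf3_pr.D.Abs1b

/-!
Part D: Gaussian integration by parts for replicas of the abstract perturbed system.
-/

set_option autoImplicit false

open MeasureTheory ProbabilityTheory Filter Topology Matrix

namespace SKC

variable {Ω ι : Type} [Fintype Ω] [Nonempty Ω] [Fintype ι] (v0 w : Ω → ι → ℝ) (a : Ω → ℝ)

/-- The derivative of a Gibbs weight of the system `v` in the direction `c`:
`d/ds gw v a (x + s c) ω = gw v a (x + s c) ω * (dot c (v ω) - ∑ ω', gw v a (x + s c) ω' * dot c (v ω'))`. -/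
theorem hasDerivAt_gw_dir (v : Ω → ι → ℝ) (x c : ι → ℝ) (s : ℝ) (ω : Ω) :
    HasDerivAt (fun s : ℝ => gw v a (x + s • c) ω)
      (gw v a (x + s • c) ω *
        (dot c (v ω) - ∑ ω', gw v a (x + s • c) ω' * dot c (v ω'))) s := by
  have hexp : ∀ ω, HasDerivAt (fun s : ℝ => Real.exp (dot (x + s • c) (v ω) + a ω))
      (Real.exp (dot (x + s • c) (v ω) + a ω) * dot c (v ω)) s := by
    intro ω
    have h1 : HasDerivAt (fun s : ℝ => dot (x + s • c) (v ω) + a ω) (dot c (v ω)) s := by
      have h2 : (fun s : ℝ => dot (x + s • c) (v ω) + a ω) =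
          fun s : ℝ => dot x (v ω) + s * dot c (v ω) + a ω := by
        funext s
        congr 1
        unfold dot
        rw [Finset.mul_sum, ← Finset.sum_add_distrib]
        refine Finset.sum_congr rfl fun i _ => ?_
        rw [Pi.add_apply, Pi.smul_apply, smul_eq_mul]
        ring
      rw [h2]
      have h3 := (((hasDerivAt_id s).mul_const (dot c (v ω))).const_add (dot x (v ω))).add_const (a ω)
      rw [one_mul] at h3
      exact h3
    exact h1.exp
  have hZ : HasDerivAt (fun s : ℝ => ∑ ω, Real.exp (dot (x + s • c) (v ω) + a ω))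
      (∑ ω, Real.exp (dot (x + s • c) (v ω) + a ω) * dot c (v ω)) s :=
    HasDerivAt.fun_sum fun ω _ => hexp ω
  have hpos : 0 < ∑ ω, Real.exp (dot (x + s • c) (v ω) + a ω) :=
    Finset.sum_pos (fun _ _ => Real.exp_pos _) Finset.univ_nonempty
  have h1 := (hexp ω).fun_div hZ hpos.ne'
  have h2 : (fun s : ℝ => gw v a (x + s • c) ω) = fun s : ℝ =>
      Real.exp (dot (x + s • c) (v ω) + a ω) /
        ∑ ω', Real.exp (dot (x + s • c) (v ω') + a ω') := rfl
  rw [h2]
  refine h1.congr_deriv ?_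
  have h3 : ∑ ω', gw v a (x + s • c) ω' * dot c (v ω') =
      (∑ ω', Real.exp (dot (x + s • c) (v ω') + a ω') * dot c (v ω')) /
        ∑ ω', Real.exp (dot (x + s • c) (v ω') + a ω') := by
    unfold gw
    rw [Finset.sum_div]
    exact Finset.sum_congr rfl fun ω _ => by ring
  rw [h3]
  unfold gw
  have h0 := hpos.ne'
  field_simp

/-- bounded continuous functions are integrable -/
theorem Abs2_int {ι : Type} [Fintype ι] {F : (ι → ℝ) → ℝ} (hF : Continuous F) (C : ℝ)
    (hb : ∀ x, |F x| ≤ C) : Integrable F (gam ι) :=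
  integrable_growth hF C 0 (fun x => by rw [zero_mul, Real.exp_zero, mul_one]; exact hb x)

omit [Nonempty Ω] in
theorem Abs2_cont (v : Ω → ι → ℝ) {n : ℕ} (r : Fin n → Ω) :
    Continuous (fun x => ∏ j, gw v a x (r j)) :=
  continuous_finset_prod _ fun j _ => gw_continuous v a (r j)

omit [Nonempty Ω] in
theorem Abs2_le (v : Ω → ι → ℝ) {n : ℕ} (r : Fin n → Ω) (x : ι → ℝ) :
    |∏ j, gw v a x (r j)| ≤ 1 := by
  rw [abs_of_nonneg (Finset.prod_nonneg fun j _ => gw_nonneg v a x (r j))]
  exact Finset.prod_le_one (fun j _ => gw_nonneg v a x (r j)) fun j _ => gw_le_one v a x (r j)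

omit [Nonempty Ω] in
theorem Abs2_pint (v : Ω → ι → ℝ) {n : ℕ} (r : Fin n → Ω) :
    Integrable (fun x => ∏ j, gw v a x (r j)) (gam ι) :=
  Abs2_int (Abs2_cont a v r) 1 (Abs2_le a v r)

omit [Nonempty Ω] in
theorem Abs2_GA (v : Ω → ι → ℝ) {n : ℕ} (f : (Fin n → Ω) → ℝ) :
    GA v a f = ∑ r, (∫ x, ∏ l, gw v a x (r l) ∂(gam ι)) * f r := by
  unfold GA
  rw [integral_finsetSum]
  · exact Finset.sum_congr rfl fun r _ => integral_mul_const _ _
  · intro r _
    exact (Abs2_pint a v r).mul_const _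

/-- integration by parts for one product of weights -/
theorem Abs2_ibp (h0 : ∀ ω ω', dot (w ω) (v0 ω') = 0) {n : ℕ} (r : Fin n → Ω) (ω0 : Ω) (t : ℝ) :
    ∫ x, dot x (w ω0) * ∏ j, gw (vt v0 w t) a x (r j) ∂(gam ι) =
      t * (∑ j, dot (w ω0) (w (r j)) * ∫ x, ∏ j, gw (vt v0 w t) a x (r j) ∂(gam ι)) -
        (n : ℝ) * (t * ∑ ω', dot (w ω0) (w ω') *
          ∫ x, ∏ j, gw (vt v0 w t) a x ((Fin.snoc r ω' : Fin (n + 1) → Ω) j) ∂(gam ι)) := by
  have hK : ∀ ω, dot (w ω0) (vt v0 w t ω) = t * dot (w ω0) (w ω) := by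
    intro ω
    rw [dot_vt, h0, zero_add]
  obtain ⟨K, hKdef⟩ : ∃ K : ℝ, K = ∑ ω, |dot (w ω0) (w ω)| := ⟨_, rfl⟩
  have hKb : ∀ ω, |dot (w ω0) (w ω)| ≤ K := by
    intro ω
    rw [hKdef]
    exact Finset.single_le_sum (f := fun ω => |dot (w ω0) (w ω)|) (fun _ _ => abs_nonneg _)
      (Finset.mem_univ ω)
  have hK0 : 0 ≤ K := by
    rw [hKdef]
    exact Finset.sum_nonneg fun _ _ => abs_nonneg _
  obtain ⟨F', hF'⟩ : ∃ F' : (ι → ℝ) → ℝ, F' = fun x => (∏ j, gw (vt v0 w t) a x (r j)) *
      ∑ j, (t * dot (w ω0) (w (r j)) -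
        ∑ ω', gw (vt v0 w t) a x ω' * (t * dot (w ω0) (w ω'))) := ⟨_, rfl⟩
  have hcont' : Continuous F' := by
    rw [hF']
    refine (Abs2_cont a (vt v0 w t) r).mul (continuous_finsetSum _ fun j _ => ?_)
    exact continuous_const.sub (continuous_finsetSum _ fun ω' _ =>
      (gw_continuous (vt v0 w t) a ω').mul continuous_const)
  have hbd : ∀ x, |F' x| ≤ (n : ℝ) * (|t| * K + |t| * K) := by
    intro x
    rw [hF']
    simp only
    rw [abs_mul]
    have h1 : |∑ j : Fin n, (t * dot (w ω0) (w (r j)) -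
        ∑ ω', gw (vt v0 w t) a x ω' * (t * dot (w ω0) (w ω')))| ≤ (n : ℝ) * (|t| * K + |t| * K) := by
      refine (Finset.abs_sum_le_sum_abs _ _).trans ?_
      refine (Finset.sum_le_card_nsmul _ _ (|t| * K + |t| * K) fun j _ => ?_).trans ?_
      · refine (abs_sub _ _).trans (add_le_add ?_ ?_)
        · rw [abs_mul]
          exact mul_le_mul_of_nonneg_left (hKb _) (abs_nonneg _)
        · refine (Finset.abs_sum_le_sum_abs _ _).trans ?_
          have h2 : ∀ ω' ∈ (Finset.univ : Finset Ω),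
              |gw (vt v0 w t) a x ω' * (t * dot (w ω0) (w ω'))| ≤
                gw (vt v0 w t) a x ω' * (|t| * K) := by
            intro ω' _
            rw [abs_mul, abs_of_nonneg (gw_nonneg _ _ _ _), abs_mul]
            exact mul_le_mul_of_nonneg_left (mul_le_mul_of_nonneg_left (hKb _) (abs_nonneg _))
              (gw_nonneg _ _ _ _)
          refine (Finset.sum_le_sum h2).trans (le_of_eq ?_)
          rw [← Finset.sum_mul, gw_sum, one_mul]
      · rw [Finset.card_univ, Fintype.card_fin, nsmul_eq_mul]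
    have h3 := mul_le_mul (Abs2_le a (vt v0 w t) r x) h1 (abs_nonneg _) zero_le_one
    rw [one_mul] at h3
    exact h3
  have h1 := ibp_dir (w ω0) (F := fun x => ∏ j, gw (vt v0 w t) a x (r j)) (F' := F') (by
    intro x s
    have h2 := HasDerivAt.fun_finset_prod (u := (Finset.univ : Finset (Fin n)))
      (f := fun j s => gw (vt v0 w t) a (x + s • w ω0) (r j))
      (f' := fun j => gw (vt v0 w t) a (x + s • w ω0) (r j) *
        (dot (w ω0) (vt v0 w t (r j)) -
          ∑ ω', gw (vt v0 w t) a (x + s • w ω0) ω' * dot (w ω0) (vt v0 w t ω')))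
      (x := s) (fun j _ => hasDerivAt_gw_dir a (vt v0 w t) x (w ω0) s (r j))
    refine h2.congr_deriv ?_
    rw [hF']
    simp only
    rw [Finset.mul_sum]
    refine Finset.sum_congr rfl fun j _ => ?_
    rw [smul_eq_mul, ← mul_assoc, Finset.prod_erase_mul _ _ (Finset.mem_univ j), hK]
    congr 2
    exact Finset.sum_congr rfl fun ω' _ => by rw [hK])
    (Abs2_cont a (vt v0 w t) r) hcont' (max 1 ((n : ℝ) * (|t| * K + |t| * K))) 0
    (fun x => by
      rw [zero_mul, Real.exp_zero, mul_one]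
      exact (Abs2_le a (vt v0 w t) r x).trans (le_max_left _ _))
    (fun x => by
      rw [zero_mul, Real.exp_zero, mul_one]
      exact (hbd x).trans (le_max_right _ _))
  rw [h1]
  have h2 : F' = fun x => (∑ j, t * dot (w ω0) (w (r j)) * ∏ j, gw (vt v0 w t) a x (r j)) -
      ∑ ω', (n : ℝ) * (t * dot (w ω0) (w ω')) *
        ∏ j, gw (vt v0 w t) a x ((Fin.snoc r ω' : Fin (n + 1) → Ω) j) := by
    rw [hF']
    funext x
    rw [Finset.sum_sub_distrib, mul_sub, Finset.sum_const, Finset.card_univ, Fintype.card_fin,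
      nsmul_eq_mul, Finset.mul_sum]
    congr 1
    · exact Finset.sum_congr rfl fun j _ => by ring
    · rw [← mul_assoc, Finset.mul_sum]
      refine Finset.sum_congr rfl fun ω' _ => ?_
      rw [Fin.prod_univ_castSucc]
      simp only [Fin.snoc_castSucc, Fin.snoc_last]
      ring
  rw [h2, integral_sub, integral_finsetSum, integral_finsetSum]
  · congr 1
    · rw [Finset.mul_sum]
      refine Finset.sum_congr rfl fun j _ => ?_
      rw [integral_const_mul]
      ring
    · rw [Finset.mul_sum, Finset.mul_sum]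
      refine Finset.sum_congr rfl fun j _ => ?_
      rw [integral_const_mul]
      ring
  · intro ω' _
    exact (Abs2_pint a (vt v0 w t) (Fin.snoc r ω' : Fin (n + 1) → Ω)).const_mul _
  · intro j _
    exact (Abs2_pint a (vt v0 w t) r).const_mul _
  · exact integrable_finsetSum _ fun j _ => (Abs2_pint a (vt v0 w t) r).const_mul _
  · exact integrable_finsetSum _ fun ω' _ =>
      (Abs2_pint a (vt v0 w t) (Fin.snoc r ω' : Fin (n + 1) → Ω)).const_mul _

/-- Gaussian integration by parts for `n` replicas: `E < f e(r_l) > = t (∑_j E < f K(l,j) > - n E < f K(l,n+1) >)`,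
`K(j,j') = dot (w (r j)) (w (r j'))`, when the features `w` are orthogonal to `v0`.
Proof: exchange the sum over `r` and the integral. For fixed `r` apply `ibp_dir` with `c = w (r l)` and
`F x = ∏ j, gw (vt v0 w t) a x (r j)` (bounded by one, continuous); its derivative in the direction `c` is
`F * ∑ j, (dot c (vt (r j)) - ∑ ω', gw ω' * dot c (vt ω'))` (`hasDerivAt_gw_dir`, `HasDerivAt.finset_prod`;
the weights are positive, so one can also use logarithmic derivatives), and `dot c (vt ω) = t * dot c (w ω)` by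
`h0` and `dot_vt` (with the arguments of `dot` exchanged). Then sum over `r` with the weights `f r`; the term
with `ω'` is a sum over `Fin (n+1) → Ω` (`Fin.snoc`, `Fin.prod_univ_castSucc`,
`Fin.snocEquiv` or `Fin.consEquiv`). All integrands are bounded and continuous (up to the factor
`dot x c`), so integrable by `integrable_growth`. -/
theorem GA_ibp (h0 : ∀ ω ω', dot (w ω) (v0 ω') = 0) {n : ℕ} (f : (Fin n → Ω) → ℝ) (l : Fin n)
    (t : ℝ) :
    ∫ x, ∑ r : Fin n → Ω, (∏ j, gw (vt v0 w t) a x (r j)) * (f r * dot x (w (r l))) ∂(gam ι) =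
      t * ((∑ j, GA (vt v0 w t) a (fun r => f r * dot (w (r l)) (w (r j)))) -
        (n : ℝ) * GA (n := n + 1) (vt v0 w t) a
          (fun r => f (fun j => r j.castSucc) * dot (w (r l.castSucc)) (w (r (Fin.last n))))) := by
  have hI : ∀ r : Fin n → Ω, Integrable
      (fun x => (∏ j, gw (vt v0 w t) a x (r j)) * (f r * dot x (w (r l)))) (gam ι) := by
    intro r
    have hcd : Continuous fun x : ι → ℝ => dot x (w (r l)) := by
      unfold dot
      fun_prop
    refine integrable_growth ((Abs2_cont a (vt v0 w t) r).mul (continuous_const.mul hcd))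
      (|f r| * ∑ i, |w (r l) i|) 1 fun x => ?_
    have h1 : |dot x (w (r l))| ≤ (∑ i, |w (r l) i|) * ∑ i, |x i| :=
      abs_dot_le x (w (r l)) _ fun i => Finset.single_le_sum (f := fun i => |w (r l) i|)
        (fun _ _ => abs_nonneg _) (Finset.mem_univ i)
    have h2 : ∑ i, |x i| ≤ Real.exp (1 * ∑ i, |x i|) := by
      rw [one_mul]
      have := Real.add_one_le_exp (∑ i, |x i|)
      linarith
    have h3 : 0 ≤ ∑ i, |w (r l) i| := Finset.sum_nonneg fun _ _ => abs_nonneg _
    rw [abs_mul, abs_mul]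
    calc |∏ j, gw (vt v0 w t) a x (r j)| * (|f r| * |dot x (w (r l))|)
        ≤ 1 * (|f r| * |dot x (w (r l))|) :=
          mul_le_mul_of_nonneg_right (Abs2_le a (vt v0 w t) r x) (by positivity)
      _ ≤ |f r| * ((∑ i, |w (r l) i|) * ∑ i, |x i|) := by
          rw [one_mul]
          exact mul_le_mul_of_nonneg_left h1 (abs_nonneg _)
      _ ≤ |f r| * ((∑ i, |w (r l) i|) * Real.exp (1 * ∑ i, |x i|)) :=
          mul_le_mul_of_nonneg_left (mul_le_mul_of_nonneg_left h2 h3) (abs_nonneg _)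
      _ = |f r| * (∑ i, |w (r l) i|) * Real.exp (1 * ∑ i, |x i|) := by ring
  rw [integral_finsetSum _ fun r _ => hI r]
  have h1 : ∀ r : Fin n → Ω, ∫ x, (∏ j, gw (vt v0 w t) a x (r j)) * (f r * dot x (w (r l))) ∂(gam ι) =
      f r * (t * (∑ j, dot (w (r l)) (w (r j)) * ∫ x, ∏ j, gw (vt v0 w t) a x (r j) ∂(gam ι)) -
        (n : ℝ) * (t * ∑ ω', dot (w (r l)) (w ω') *
          ∫ x, ∏ j, gw (vt v0 w t) a x ((Fin.snoc r ω' : Fin (n + 1) → Ω) j) ∂(gam ι))) := by
    intro r
    rw [← Abs2_ibp v0 w a h0 r (r l) t, ← integral_const_mul]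
    congr 1
    funext x
    ring
  rw [Finset.sum_congr rfl fun r _ => h1 r]
  rw [Abs2_GA, Finset.sum_congr rfl fun j _ => Abs2_GA a (vt v0 w t)
    (fun r : Fin n → Ω => f r * dot (w (r l)) (w (r j)))]
  have h2 : ∑ r : Fin (n + 1) → Ω, (∫ x, ∏ l, gw (vt v0 w t) a x (r l) ∂(gam ι)) *
      (f (fun j => r j.castSucc) * dot (w (r l.castSucc)) (w (r (Fin.last n)))) =
      ∑ r : Fin n → Ω, ∑ ω', (∫ x, ∏ j, gw (vt v0 w t) a x
        ((Fin.snoc r ω' : Fin (n + 1) → Ω) j) ∂(gam ι)) * (f r * dot (w (r l)) (w ω')) := by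
    rw [← (Fin.snocEquiv (fun _ : Fin (n + 1) => Ω)).sum_comp, Fintype.sum_prod_type,
      Finset.sum_comm]
    refine Finset.sum_congr rfl fun r _ => Finset.sum_congr rfl fun ω' _ => ?_
    have e1 : Fin.snocEquiv (fun _ : Fin (n + 1) => Ω) (ω', r) =
        (Fin.snoc r ω' : Fin (n + 1) → Ω) := rfl
    rw [e1]
    congr 2
    · congr 1
      funext j
      exact Fin.snoc_castSucc (α := fun _ => Ω) _ _ _
    · rw [Fin.snoc_castSucc (α := fun _ => Ω), Fin.snoc_last (α := fun _ => Ω)]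
  rw [h2, Finset.sum_comm, mul_sub, Finset.mul_sum, Finset.mul_sum, Finset.mul_sum,
    ← Finset.sum_sub_distrib]
  refine Finset.sum_congr rfl fun r _ => ?_
  rw [mul_sub]
  congr 1
  · rw [Finset.mul_sum, Finset.mul_sum, Finset.mul_sum]
    exact Finset.sum_congr rfl fun j _ => by ring
  · rw [Finset.mul_sum, Finset.mul_sum, Finset.mul_sum, Finset.mul_sum, Finset.mul_sum]
    exact Finset.sum_congr rfl fun j _ => by ring

end SKC
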