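import Pool.Agent.H.MP_08eaf3_pr.D.Abs2

/-!
Part D: consequences of integration by parts: the mean energy, the Ghirlanda-Guerra bound.
-/

set_option autoImplicit false

open MeasureTheory ProbabilityTheory Filter Topology Matrix

namespace SKC

variable {Ω ι : Type} [Fintype Ω] [Nonempty Ω] [Fintype ι] (v0 w : Ω → ι → ℝ) (a : Ω → ℝ)

theorem Abs3_sum_cont {n : ℕ} (v : Ω → ι → ℝ) (f : (Fin n → Ω) → ℝ) :
    Continuous (fun x => ∑ r : Fin n → Ω, (∏ l, gw v a x (r l)) * f r) := by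
  refine continuous_finsetSum _ fun r _ => ?_
  exact (continuous_finsetProd _ fun l _ => gw_continuous v a (r l)).mul continuous_const

theorem Abs3_sum_le {n : ℕ} (v : Ω → ι → ℝ) (f : (Fin n → Ω) → ℝ) (C : ℝ) (hf : ∀ r, |f r| ≤ C)
    (x : ι → ℝ) : |∑ r : Fin n → Ω, (∏ l, gw v a x (r l)) * f r| ≤ C := by
  calc |∑ r : Fin n → Ω, (∏ l, gw v a x (r l)) * f r|
      ≤ ∑ r : Fin n → Ω, |(∏ l, gw v a x (r l)) * f r| := Finset.abs_sum_le_sum_abs _ _
    _ ≤ ∑ r : Fin n → Ω, (∏ l, gw v a x (r l)) * C := by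
        refine Finset.sum_le_sum fun r _ => ?_
        rw [abs_mul, abs_of_nonneg (Finset.prod_nonneg fun l _ => gw_nonneg v a x (r l))]
        exact mul_le_mul_of_nonneg_left (hf r) (Finset.prod_nonneg fun l _ => gw_nonneg v a x (r l))
    _ = C := by rw [← Finset.sum_mul, gw_prod_sum, one_mul]

theorem Abs3_int {n : ℕ} (v : Ω → ι → ℝ) (f : (Fin n → Ω) → ℝ) :
    Integrable (fun x => ∑ r : Fin n → Ω, (∏ l, gw v a x (r l)) * f r) (gam ι) := by
  refine Integrable.of_bound (Abs3_sum_cont a v f).aestronglyMeasurable (∑ r, |f r|) ?_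
  refine Filter.Eventually.of_forall fun x => ?_
  rw [Real.norm_eq_abs]
  exact Abs3_sum_le a v f _ (fun r => Finset.single_le_sum (f := fun r => |f r|)
    (fun r _ => abs_nonneg _) (Finset.mem_univ r)) x

/-- quenched averages of functions bounded by `C` are bounded by `C` (`gw_prod_sum`) -/
theorem abs_GA_le {n : ℕ} (v : Ω → ι → ℝ) (f : (Fin n → Ω) → ℝ) (C : ℝ) (hf : ∀ r, |f r| ≤ C) :
    |GA v a f| ≤ C := by
  have h := norm_integral_le_of_norm_le_const (μ := gam ι)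
    (f := fun x => ∑ r : Fin n → Ω, (∏ l, gw v a x (r l)) * f r) (C := C)
    (Filter.Eventually.of_forall fun x => by
      rw [Real.norm_eq_abs]; exact Abs3_sum_le a v f C hf x)
  rw [Real.norm_eq_abs] at h
  simpa [GA] using h

/-- differences of quenched averages -/
theorem abs_GA_sub_le {n : ℕ} (v : Ω → ι → ℝ) (f g : (Fin n → Ω) → ℝ) :
    |GA v a f - GA v a g| ≤ GA v a (fun r => |f r - g r|) := by
  unfold GA
  rw [← integral_sub (Abs3_int a v f) (Abs3_int a v g)]
  refine (abs_integral_le_integral_abs).trans ?_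
  refine integral_mono ((Abs3_int a v f).sub (Abs3_int a v g)).abs (Abs3_int a v _) fun x => ?_
  simp only
  rw [← Finset.sum_sub_distrib]
  refine (Finset.abs_sum_le_sum_abs _ _).trans (le_of_eq (Finset.sum_congr rfl fun r _ => ?_))
  rw [← mul_sub, abs_mul, abs_of_nonneg (Finset.prod_nonneg fun l _ => gw_nonneg v a x (r l))]

theorem Abs3_sumout {n : ℕ} (v : Ω → ι → ℝ) (x : ι → ℝ) (g : Ω → ℝ) (l : Fin n) :
    ∑ r : Fin n → Ω, (∏ j, gw v a x (r j)) * g (r l) = ∑ ω, gw v a x ω * g ω := by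
  classical
  have h := Finset.prod_univ_sum (fun _ : Fin n => (Finset.univ : Finset Ω))
    (fun j ω => gw v a x ω * (if j = l then g ω else 1))
  rw [Fintype.piFinset_univ] at h
  have h1 : ∀ r : Fin n → Ω, ∏ j, (gw v a x (r j) * (if j = l then g (r j) else 1)) =
      (∏ j, gw v a x (r j)) * g (r l) := by
    intro r
    rw [Finset.prod_mul_distrib]
    congr 1
    rw [Finset.prod_ite_eq' Finset.univ l (fun j => g (r j))]
    simp
  rw [← Finset.sum_congr rfl fun r _ => h1 r, ← h]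
  rw [← Finset.mul_prod_erase Finset.univ _ (Finset.mem_univ l)]
  rw [Finset.prod_eq_one]
  · simp
  · intro j hj
    have hjl : j ≠ l := (Finset.mem_erase.1 hj).1
    simp [hjl, gw_sum]

theorem Abs3_sum_snoc {n : ℕ} (F : (Fin (n + 1) → Ω) → ℝ) :
    ∑ r : Fin (n + 1) → Ω, F r = ∑ r : Fin n → Ω, ∑ ω : Ω, F (Fin.snoc (α := fun _ => Ω) r ω) := by
  rw [← Fintype.sum_prod_type']
  symm
  refine Fintype.sum_equiv ((Equiv.prodComm _ _).trans (Fin.snocEquiv (fun _ => Ω))) _ _ fun p => ?_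
  rfl

/-- a function of the replica `l` has the same average as the function of one replica
(`Fintype.sum` over `Fin n → Ω`: sum out the other replicas, `gw_sum`) -/
theorem GA_one {n : ℕ} (v : Ω → ι → ℝ) (g : Ω → ℝ) (l : Fin n) :
    GA v a (fun r : Fin n → Ω => g (r l)) = GA v a (fun r : Fin 1 → Ω => g (r 0)) := by
  unfold GA
  refine integral_congr_ae (Filter.Eventually.of_forall fun x => ?_)
  simp only
  rw [Abs3_sumout a v x g l, Abs3_sumout a v x g 0]

/-- The mean energy is `t (E K(1,1) - E K(1,2))`. Proof: `GA_ibp` with `n = 1`, `f = 1`, `l = 0`; the sum over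
`Fin 1 → Ω` is the sum over `Ω`. -/
theorem am1_eq (h0 : ∀ ω ω', dot (w ω) (v0 ω') = 0) (t : ℝ) :
    am1 v0 w a t = t * (GA (n := 1) (vt v0 w t) a (fun r => dot (w (r 0)) (w (r 0))) -
      GA (n := 2) (vt v0 w t) a (fun r => dot (w (r 0)) (w (r 1)))) := by
  have h := GA_ibp v0 w a h0 (n := 1) (fun _ => (1 : ℝ)) 0 t
  have hl : ∫ x, ∑ r : Fin 1 → Ω, (∏ j, gw (vt v0 w t) a x (r j)) * ((1 : ℝ) * dot x (w (r 0)))
      ∂(gam ι) = am1 v0 w a t := by
    unfold am1 AL1
    refine integral_congr_ae (Filter.Eventually.of_forall fun x => ?_)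
    simp only [one_mul]
    exact Abs3_sumout a (vt v0 w t) x (fun ω => dot x (w ω)) (0 : Fin 1)
  rw [hl] at h
  rw [h]
  simp only [one_mul, Finset.univ_unique, Fin.default_eq_zero, Fin.isValue, Finset.sum_singleton,
    Nat.cast_one]
  rfl

/-- Bound of the mean energy. Proof: `am1_eq`, `abs_GA_le`. -/
theorem abs_am1_le (h0 : ∀ ω ω', dot (w ω) (v0 ω') = 0) (h1 : ∀ ω ω', |dot (w ω) (w ω')| ≤ 1)
    (t : ℝ) : |am1 v0 w a t| ≤ 2 * |t| := by
  rw [am1_eq v0 w a h0 t, abs_mul, mul_comm 2 |t|]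
  refine mul_le_mul_of_nonneg_left ?_ (abs_nonneg t)
  have e1 := abs_GA_le a (n := 1) (vt v0 w t) (fun r => dot (w (r 0)) (w (r 0))) 1
    (fun r => h1 _ _)
  have e2 := abs_GA_le a (n := 2) (vt v0 w t) (fun r => dot (w (r 0)) (w (r 1))) 1
    (fun r => h1 _ _)
  rw [abs_le] at *
  constructor <;> linarith [e1.1, e1.2, e2.1, e2.2]

/-- The mean energy is nondecreasing in `t`. Proof: `AL1_mono` and integrability. -/
theorem am1_mono : Monotone (am1 v0 w a) := by
  intro s t hst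
  exact integral_mono (AL1_integrable v0 w a s) (AL1_integrable v0 w a t)
    fun x => AL1_mono v0 w a x hst

theorem Abs3_GA_sub {n : ℕ} (v : Ω → ι → ℝ) (f g : (Fin n → Ω) → ℝ) :
    GA v a (fun r => f r - g r) = GA v a f - GA v a g := by
  unfold GA
  rw [← integral_sub (Abs3_int a v f) (Abs3_int a v g)]
  refine integral_congr_ae (Filter.Eventually.of_forall fun x => ?_)
  simp only
  rw [← Finset.sum_sub_distrib]
  exact Finset.sum_congr rfl fun r _ => mul_sub _ _ _

theorem Abs3_GA_mul {n : ℕ} (v : Ω → ι → ℝ) (f : (Fin n → Ω) → ℝ) (c : ℝ) :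
    GA v a (fun r => f r * c) = GA v a f * c := by
  unfold GA
  rw [← integral_mul_const]
  refine integral_congr_ae (Filter.Eventually.of_forall fun x => ?_)
  simp only
  rw [Finset.sum_mul]
  exact Finset.sum_congr rfl fun r _ => (mul_assoc _ _ _).symm

theorem Abs3_term_le (x : ι → ℝ) (c : ι → ℝ) : |dot x c| ≤
    (∑ i, |c i|) * Real.exp (1 * ∑ i, |x i|) := by
  have h1 := abs_dot_le x c (∑ i, |c i|) (fun i => Finset.single_le_sum
    (f := fun i => |c i|) (fun i _ => abs_nonneg _) (Finset.mem_univ i))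
  have h2 : ∑ i, |x i| ≤ Real.exp (1 * ∑ i, |x i|) := by
    rw [one_mul]
    linarith [Real.add_one_le_exp (∑ i, |x i|)]
  exact h1.trans (mul_le_mul_of_nonneg_left h2 (Finset.sum_nonneg fun i _ => abs_nonneg _))

theorem Abs3_int_e {n : ℕ} (v : Ω → ι → ℝ) (f : (Fin n → Ω) → ℝ) (l : Fin n) :
    Integrable (fun x => ∑ r : Fin n → Ω, (∏ j, gw v a x (r j)) * (f r * dot x (w (r l))))
      (gam ι) := by
  refine integrable_finsetSum _ fun r _ => ?_
  have hd : Continuous fun x : ι → ℝ => dot x (w (r l)) := by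
    unfold dot
    fun_prop
  refine integrable_growth
    ((continuous_finsetProd _ fun j _ => gw_continuous v a (r j)).mul (continuous_const.mul hd))
    (|f r| * ∑ i, |w (r l) i|) 1 fun x => ?_
  have hp0 : 0 ≤ ∏ j, gw v a x (r j) := Finset.prod_nonneg fun j _ => gw_nonneg v a x (r j)
  have hp1 : ∏ j, gw v a x (r j) ≤ 1 :=
    Finset.prod_le_one (fun j _ => gw_nonneg v a x (r j)) fun j _ => gw_le_one v a x (r j)
  rw [abs_mul, abs_mul, abs_of_nonneg hp0]
  calc (∏ j, gw v a x (r j)) * (|f r| * |dot x (w (r l))|)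
      ≤ 1 * (|f r| * |dot x (w (r l))|) :=
        mul_le_mul_of_nonneg_right hp1 (mul_nonneg (abs_nonneg _) (abs_nonneg _))
    _ = |f r| * |dot x (w (r l))| := one_mul _
    _ ≤ |f r| * ((∑ i, |w (r l) i|) * Real.exp (1 * ∑ i, |x i|)) :=
        mul_le_mul_of_nonneg_left (Abs3_term_le x (w (r l))) (abs_nonneg _)
    _ = |f r| * (∑ i, |w (r l) i|) * Real.exp (1 * ∑ i, |x i|) := by ring

/-- the deviation of the energy, weighted by a function bounded by one -/
theorem Abs3_dev {n : ℕ} (f : (Fin n → Ω) → ℝ) (hf : ∀ r, |f r| ≤ 1) (l : Fin n) (t : ℝ) :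
    |(∫ x, ∑ r : Fin n → Ω, (∏ j, gw (vt v0 w t) a x (r j)) * (f r * dot x (w (r l))) ∂(gam ι)) -
      am1 v0 w a t * GA (vt v0 w t) a f| ≤ aDD v0 w a t := by
  unfold GA aDD
  rw [← integral_const_mul, ← integral_sub (Abs3_int_e w a (vt v0 w t) f l)
    ((Abs3_int a (vt v0 w t) f).const_mul _)]
  refine (abs_integral_le_integral_abs).trans ?_
  refine integral_mono ((Abs3_int_e w a (vt v0 w t) f l).sub
    ((Abs3_int a (vt v0 w t) f).const_mul _)).abs (dev_integrable v0 w a t (am1 v0 w a t))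
    fun x => ?_
  simp only
  rw [← Abs3_sumout a (vt v0 w t) x (fun ω => |dot x (w ω) - am1 v0 w a t|) l, Finset.mul_sum,
    ← Finset.sum_sub_distrib]
  refine (Finset.abs_sum_le_sum_abs _ _).trans (Finset.sum_le_sum fun r _ => ?_)
  have hp0 : 0 ≤ ∏ j, gw (vt v0 w t) a x (r j) :=
    Finset.prod_nonneg fun j _ => gw_nonneg (vt v0 w t) a x (r j)
  have he : (∏ j, gw (vt v0 w t) a x (r j)) * (f r * dot x (w (r l))) -
      am1 v0 w a t * ((∏ j, gw (vt v0 w t) a x (r j)) * f r) =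
      (∏ j, gw (vt v0 w t) a x (r j)) * (f r * (dot x (w (r l)) - am1 v0 w a t)) := by ring
  rw [he, abs_mul, abs_of_nonneg hp0, abs_mul]
  refine mul_le_mul_of_nonneg_left ?_ hp0
  calc |f r| * |dot x (w (r l)) - am1 v0 w a t| ≤ 1 * |dot x (w (r l)) - am1 v0 w a t| :=
        mul_le_mul_of_nonneg_right (hf r) (abs_nonneg _)
    _ = _ := one_mul _

/-- The Ghirlanda-Guerra bound. Proof: write `e = dot x (w (r l))`, `m = am1 t`, `K(j,j') = dot (w (r j)) (w (r j'))`.
By `GA_ibp` and `am1_eq`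
`∫ ∑ r, (∏ gw) (f r (e - m)) = t (∑_j GA (f K(l,j)) - n GA (f K(l,n+1)) - GA f * (GA K(1,1) - GA K(1,2)))`, so
`n GA (f K(l,n+1)) - GA f * GA K(1,2) - ∑_(j ≠ l) GA (f K(l,j)) = GA (f K(l,l)) - GA f * GA K(1,1) - (1/t) ∫ ∑ (∏ gw) f (e - m)`.
The last integral is at most `aDD t` in absolute value (`|f| ≤ 1`, and the replica `l` alone: sum out the others).
With the constant `κ`: `GA (f K(l,l)) - GA f * GA K(1,1) = GA (f (K(l,l) - κ)) - GA f * GA (K(1,1) - κ)`, bounded by
`2 GA |K(1,1) - κ|` (`GA_one`). -/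
theorem GA_gg_le (h0 : ∀ ω ω', dot (w ω) (v0 ω') = 0) {n : ℕ} (f : (Fin n → Ω) → ℝ)
    (hf : ∀ r, |f r| ≤ 1) (l : Fin n) (t : ℝ) (ht : 0 < t) (κ : ℝ) :
    |(n : ℝ) * GA (n := n + 1) (vt v0 w t) a
        (fun r => f (fun j => r j.castSucc) * dot (w (r l.castSucc)) (w (r (Fin.last n)))) -
      GA (vt v0 w t) a f * GA (n := 2) (vt v0 w t) a (fun r => dot (w (r 0)) (w (r 1))) -
      ∑ j ∈ Finset.univ.erase l, GA (vt v0 w t) a (fun r => f r * dot (w (r l)) (w (r j)))| ≤
      aDD v0 w a t / t +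
        2 * GA (n := 1) (vt v0 w t) a (fun r => |dot (w (r 0)) (w (r 0)) - κ|) := by
  classical
  have hA := GA_ibp v0 w a h0 f l t
  have hD := Abs3_dev v0 w a f hf l t
  have hm := am1_eq v0 w a h0 t
  rw [← Finset.add_sum_erase Finset.univ
    (fun j => GA (vt v0 w t) a (fun r => f r * dot (w (r l)) (w (r j)))) (Finset.mem_univ l)] at hA
  -- the diagonal part
  have e1 : |GA (vt v0 w t) a (fun r => f r * dot (w (r l)) (w (r l))) -
      GA (vt v0 w t) a f * κ| ≤
      GA (n := 1) (vt v0 w t) a (fun r => |dot (w (r 0)) (w (r 0)) - κ|) := by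
    rw [← Abs3_GA_mul a (vt v0 w t) f κ]
    refine (abs_GA_sub_le a (vt v0 w t) _ _).trans ?_
    rw [← GA_one a (vt v0 w t) (fun ω => |dot (w ω) (w ω) - κ|) l]
    unfold GA
    refine integral_mono (Abs3_int a (vt v0 w t) _) (Abs3_int a (vt v0 w t) _) fun x => ?_
    refine Finset.sum_le_sum fun r _ => ?_
    refine mul_le_mul_of_nonneg_left ?_
      (Finset.prod_nonneg fun j _ => gw_nonneg (vt v0 w t) a x (r j))
    simp only
    rw [← mul_sub, abs_mul]
    calc |f r| * |dot (w (r l)) (w (r l)) - κ| ≤ 1 * |dot (w (r l)) (w (r l)) - κ| :=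
          mul_le_mul_of_nonneg_right (hf r) (abs_nonneg _)
      _ = _ := one_mul _
  have e2 : |GA (n := 1) (vt v0 w t) a (fun r => dot (w (r 0)) (w (r 0))) - κ| ≤
      GA (n := 1) (vt v0 w t) a (fun r => |dot (w (r 0)) (w (r 0)) - κ|) := by
    have hk : GA (n := 1) (vt v0 w t) a (fun _ => κ) = κ := by
      have h1 := Abs3_GA_mul a (n := 1) (vt v0 w t) (fun _ => (1 : ℝ)) κ
      have h2 : GA (n := 1) (vt v0 w t) a (fun _ => (1 : ℝ)) = 1 := by
        unfold GA
        simp only [mul_one, gw_prod_sum]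
        simp
      rw [h2] at h1
      simpa using h1
    have h3 := abs_GA_sub_le a (n := 1) (vt v0 w t) (fun r => dot (w (r 0)) (w (r 0))) (fun _ => κ)
    rw [hk] at h3
    exact h3
  have e3 : |GA (vt v0 w t) a f| ≤ 1 := abs_GA_le a (vt v0 w t) f 1 hf
  set GE := GA (vt v0 w t) a f with hGE
  set X1 := GA (n := n + 1) (vt v0 w t) a
        (fun r => f (fun j => r j.castSucc) * dot (w (r l.castSucc)) (w (r (Fin.last n)))) with hX1
  set K12 := GA (n := 2) (vt v0 w t) a (fun r => dot (w (r 0)) (w (r 1))) with hK12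
  set K11 := GA (n := 1) (vt v0 w t) a (fun r => dot (w (r 0)) (w (r 0))) with hK11
  set LL := GA (vt v0 w t) a (fun r => f r * dot (w (r l)) (w (r l))) with hLL
  set SS := ∑ j ∈ Finset.univ.erase l, GA (vt v0 w t) a (fun r => f r * dot (w (r l)) (w (r j)))
    with hSS
  set AA := ∫ x, ∑ r : Fin n → Ω, (∏ j, gw (vt v0 w t) a x (r j)) * (f r * dot x (w (r l)))
    ∂(gam ι) with hAA
  set EE := GA (n := 1) (vt v0 w t) a (fun r => |dot (w (r 0)) (w (r 0)) - κ|) with hEE
  have key : (n : ℝ) * X1 - GE * K12 - SS =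
      (LL - GE * κ) - GE * (K11 - κ) - (AA - am1 v0 w a t * GE) / t := by
    rw [hA, hm]
    field_simp
    ring
  rw [key]
  have a1 : |GE * (K11 - κ)| ≤ EE := by
    rw [abs_mul]
    calc |GE| * |K11 - κ| ≤ 1 * |K11 - κ| := mul_le_mul_of_nonneg_right e3 (abs_nonneg _)
      _ = |K11 - κ| := one_mul _
      _ ≤ EE := e2
  have a2 : |(AA - am1 v0 w a t * GE) / t| ≤ aDD v0 w a t / t := by
    rw [abs_div, abs_of_pos ht]
    exact div_le_div_of_nonneg_right hD ht.le
  have b1 := abs_le.1 e1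
  have b2 := abs_le.1 a1
  have b3 := abs_le.1 a2
  rw [abs_le]
  constructor <;> linarith [b1.1, b1.2, b2.1, b2.2, b3.1, b3.2]

end SKC
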