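import Pool.Agent.H.MP_08eaf3_pr.D.Abs1
import Pool.Agent.H.MP_08eaf3_pr.D.Abs1b

/-!
Part D: thermal fluctuations of the energy.
-/

set_option autoImplicit false

open MeasureTheory ProbabilityTheory Filter Topology Matrix

namespace SKC

variable {Ω ι : Type} [Fintype Ω] [Nonempty Ω] [Fintype ι] (v0 w : Ω → ι → ℝ) (a : Ω → ℝ)

/-- Cauchy-Schwarz for the square root -/
theorem Abs4_sqrt_int {κ : Type} [Fintype κ] (f : (κ → ℝ) → ℝ) (hc : Continuous f)
    (h0 : ∀ x, 0 ≤ f x) (hi : Integrable f (gam κ)) :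
    Integrable (fun x => Real.sqrt (f x)) (gam κ) ∧
      ∫ x, Real.sqrt (f x) ∂(gam κ) ≤ Real.sqrt (∫ x, f x ∂(gam κ)) := by
  have hS : Integrable (fun x => Real.sqrt (f x)) (gam κ) := by
    apply ((integrable_const (1 : ℝ)).add hi).mono
    · exact (Real.continuous_sqrt.comp hc).aestronglyMeasurable
    · refine Filter.Eventually.of_forall (fun x => ?_)
      have h1 := h0 x
      simp only [Pi.add_apply]
      rw [Real.norm_eq_abs, Real.norm_eq_abs, abs_of_nonneg (Real.sqrt_nonneg _),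
        abs_of_nonneg (by linarith)]
      have h2 := Real.sq_sqrt h1
      nlinarith [Real.sqrt_nonneg (f x), sq_nonneg (Real.sqrt (f x) - 1)]
  refine ⟨hS, ?_⟩
  apply Real.le_sqrt_of_sq_le
  obtain ⟨c, hcdef⟩ : ∃ c : ℝ, c = ∫ x, Real.sqrt (f x) ∂(gam κ) := ⟨_, rfl⟩
  rw [← hcdef]
  have h3 : ∫ x, (Real.sqrt (f x) - c) ^ 2 ∂(gam κ) =
      (∫ x, f x ∂(gam κ)) - 2 * c * (∫ x, Real.sqrt (f x) ∂(gam κ)) + c ^ 2 := by
    have h4 : ∀ x, (Real.sqrt (f x) - c) ^ 2 = f x - 2 * c * Real.sqrt (f x) + c ^ 2 := by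
      intro x
      have h2 := Real.sq_sqrt (h0 x)
      nlinarith
    simp only [h4]
    have hI1 : Integrable (fun x => 2 * c * Real.sqrt (f x)) (gam κ) := hS.const_mul _
    have hI2 : Integrable (fun x => f x - 2 * c * Real.sqrt (f x)) (gam κ) := hi.sub hI1
    rw [integral_add hI2 (integrable_const _), integral_sub hi hI1, integral_const_mul]
    simp
  have h5 : 0 ≤ ∫ x, (Real.sqrt (f x) - c) ^ 2 ∂(gam κ) :=
    integral_nonneg (fun x => sq_nonneg _)
  rw [h3, ← hcdef] at h5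
  nlinarith

/-- Derivative of the mean energy. Proof: `hasDerivAt_integral_of_dominated_loc_of_deriv_le` with
`hasDerivAt_AL1` and the bound `AL_growth`. -/
theorem hasDerivAt_am1 (t : ℝ) :
    HasDerivAt (am1 v0 w a) (∫ x, AL2 v0 w a t x ∂(gam ι)) t := by
  obtain ⟨C, k, hC⟩ := AL_growth v0 w a (|t| + 1)
  have h := hasDerivAt_integral_of_dominated_loc_of_deriv_le (μ := gam ι)
    (F := fun s x => AL1 v0 w a s x) (F' := fun s x => AL2 v0 w a s x) (x₀ := t)
    (s := Metric.ball t 1) (bound := fun x => C * Real.exp (k * ∑ i, |x i|))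
    (Metric.ball_mem_nhds t one_pos)
    (Filter.Eventually.of_forall (fun s => (AL1_integrable v0 w a s).aestronglyMeasurable))
    (AL1_integrable v0 w a t) (AL2_integrable v0 w a t).aestronglyMeasurable
    (Filter.Eventually.of_forall (fun x s hs => by
      have h1 : |s| ≤ |t| + 1 := by
        rw [Metric.mem_ball, Real.dist_eq] at hs
        have h2 := abs_sub_abs_le_abs_sub s t
        linarith
      rw [Real.norm_eq_abs]
      exact (hC s x h1).2.2.1))
    (integrable_growth (by fun_prop) |C| k (fun x => by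
      rw [abs_mul, abs_of_pos (Real.exp_pos _)]))
    (Filter.Eventually.of_forall (fun x s _ => hasDerivAt_AL1 v0 w a x s))
  exact h.2

/-- The integral of the mean Gibbs variance. Proof: `hasDerivAt_am1`, `int_AL2_cont` and the fundamental
theorem of calculus (`intervalIntegral.integral_eq_sub_of_hasDerivAt`). -/
theorem int_int_AL2 (b c : ℝ) :
    ∫ t in b..c, (∫ x, AL2 v0 w a t x ∂(gam ι)) = am1 v0 w a c - am1 v0 w a b := by
  exact intervalIntegral.integral_eq_sub_of_hasDerivAt (fun t _ => hasDerivAt_am1 v0 w a t)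
    ((int_AL2_cont v0 w a).intervalIntegrable _ _)

/-- Decomposition of the absolute deviation. Proof: pointwise
`∑ gw |e - m| ≤ ∑ gw |e - AL1| + |AL1 - m| ≤ √AL2 + |AL1 - m|` (`mad_le`, `gw_sum`), integrate, and
`∫ √AL2 ≤ √(∫ AL2)` (Cauchy-Schwarz or Jensen, `gam` is a probability measure; e.g. from
`0 ≤ ∫ (√AL2 - ∫ √AL2)^2`). -/
theorem aDD_le (t : ℝ) :
    aDD v0 w a t ≤ Real.sqrt (∫ x, AL2 v0 w a t x ∂(gam ι)) +
      ∫ x, |AL1 v0 w a t x - am1 v0 w a t| ∂(gam ι) := by
  have hc2 : Continuous (fun x => AL2 v0 w a t x) :=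
    (AL2_cont v0 w a).comp (f := fun x : ι → ℝ => (t, x)) (by fun_prop)
  have hs := Abs4_sqrt_int (fun x => AL2 v0 w a t x) hc2 (fun x => AL2_nonneg v0 w a x t)
    (AL2_integrable v0 w a t)
  have hA : Integrable (fun x => |AL1 v0 w a t x - am1 v0 w a t|) (gam ι) :=
    ((AL1_integrable v0 w a t).sub (integrable_const _)).abs
  have h1 : aDD v0 w a t ≤ ∫ x, (Real.sqrt (AL2 v0 w a t x) +
      |AL1 v0 w a t x - am1 v0 w a t|) ∂(gam ι) := by
    unfold aDD
    have hI3 : Integrable (fun x => Real.sqrt (AL2 v0 w a t x) +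
      |AL1 v0 w a t x - am1 v0 w a t|) (gam ι) := hs.1.add hA
    apply integral_mono (dev_integrable v0 w a t _) hI3
    intro x
    have h2 : ∑ ω, gw (vt v0 w t) a x ω * |dot x (w ω) - am1 v0 w a t| ≤
        ∑ ω, (gw (vt v0 w t) a x ω * |dot x (w ω) - AL1 v0 w a t x| +
          gw (vt v0 w t) a x ω * |AL1 v0 w a t x - am1 v0 w a t|) := by
      apply Finset.sum_le_sum
      intro ω _
      rw [← mul_add]
      apply mul_le_mul_of_nonneg_left _ (gw_nonneg _ a x ω)
      exact abs_sub_le _ _ _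
    rw [Finset.sum_add_distrib, ← Finset.sum_mul, gw_sum, one_mul] at h2
    have h3 := mad_le v0 w a x t
    exact h2.trans (add_le_add_left h3 _)
  rw [integral_add hs.1 hA] at h1
  linarith [hs.2]

end SKC
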