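import Pool.Agent.H.MP_08eaf3_pr.D.Abs1
import Pool.Agent.H.MP_08eaf3_pr.D.Abs1b

/-!
Part D: disorder fluctuations of the energy.
-/

set_option autoImplicit false

open MeasureTheory ProbabilityTheory Filter Topology Matrix

namespace SKC

variable {Ω ι : Type} [Fintype Ω] [Nonempty Ω] [Fintype ι] (v0 w : Ω → ι → ℝ) (a : Ω → ℝ)

theorem Abs5_cs {Ω : Type} [MeasurableSpace Ω] (μ : Measure Ω) [IsProbabilityMeasure μ] {f : Ω → ℝ}
    (h1 : Integrable f μ) (h2 : Integrable (fun x => f x ^ 2) μ) {V : ℝ}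
    (hV : ∫ x, f x ^ 2 ∂μ ≤ V) : ∫ x, |f x| ∂μ ≤ Real.sqrt V := by
  set m : ℝ := ∫ x, |f x| ∂μ with hm
  have h3 : 0 ≤ ∫ x, (|f x| - m) ^ 2 ∂μ := integral_nonneg fun x => sq_nonneg _
  have h4 : ∫ x, (|f x| - m) ^ 2 ∂μ = ∫ x, f x ^ 2 ∂μ - m ^ 2 := by
    have e1 : (fun x => (|f x| - m) ^ 2) = fun x => (f x ^ 2 - 2 * m * |f x|) + m ^ 2 := by
      funext x
      rw [← sq_abs (f x)]; ring
    have j1 : Integrable (fun x => 2 * m * |f x|) μ := h1.abs.const_mul _
    have j2 : Integrable (fun x => f x ^ 2 - 2 * m * |f x|) μ := h2.sub j1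
    rw [e1, integral_add j2 (integrable_const _), integral_sub h2 j1, integral_const_mul, ← hm]
    simp
    ring
  rw [h4] at h3
  exact Real.le_sqrt_of_sq_le (by linarith)

/-- Mean absolute deviation of the log partition function. Proof: `var_lse` with `B = univ` (note
`EL univ (vt v0 w t) a = ∫ AL v0 w a t`), and `∫ |f| ≤ √(∫ f^2)` for a probability measure (square integrability
of `AL t - c` by `AL_growth` and `integrable_growth`). -/
theorem mad_AL_le (t V : ℝ) (hV : ∀ ω, dot (vt v0 w t ω) (vt v0 w t ω) ≤ V) :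
    ∫ x, |AL v0 w a t x - ∫ y, AL v0 w a t y ∂(gam ι)| ∂(gam ι) ≤ Real.sqrt V := by
  set c : ℝ := ∫ y, AL v0 w a t y ∂(gam ι) with hc
  have h1 := AL_integrable v0 w a t
  have h2 : Integrable (fun x => AL v0 w a t x ^ 2) (gam ι) := by
    obtain ⟨C, k, hC⟩ := AL_growth v0 w a |t|
    have hcont : Continuous (fun x => AL v0 w a t x) :=
      (AL_cont v0 w a).comp (continuous_const.prodMk continuous_id)
    refine integrable_growth (hcont.pow 2) (C ^ 2) (2 * k) fun x => ?_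
    have h3 := (hC t x le_rfl).1
    rw [abs_pow]
    calc |AL v0 w a t x| ^ 2 ≤ (C * Real.exp (k * ∑ i, |x i|)) ^ 2 :=
          pow_le_pow_left₀ (abs_nonneg _) h3 2
      _ = C ^ 2 * Real.exp (2 * k * ∑ i, |x i|) := by
          rw [mul_pow, ← Real.exp_nat_mul]
          congr 2
          push_cast
          ring
  refine Abs5_cs (gam ι) (f := fun x => AL v0 w a t x - c) (h1.sub (integrable_const c)) ?_ ?_
  · have e1 : (fun x => (AL v0 w a t x - c) ^ 2) =
        fun x => (AL v0 w a t x ^ 2 - 2 * c * AL v0 w a t x) + c ^ 2 := by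
      funext x; ring
    have e2 : Integrable (fun x => (AL v0 w a t x ^ 2 - 2 * c * AL v0 w a t x) + c ^ 2) (gam ι) :=
      (h2.sub (h1.const_mul _)).add (integrable_const _)
    rw [← e1] at e2
    exact e2
  · exact var_lse Finset.univ Finset.univ_nonempty (vt v0 w t) a V (fun ω _ => hV ω)

/-- Disorder fluctuation of the Gibbs average of the energy by convexity.
Write `φ s = ∫ AL s`. From `AL_ge` (with `t` and `t + h`, with `t` and `t - h`, and with `t ± h` and `t`):
`AL1 t x ≤ (AL (t+h) x - AL t x)/h`, `AL1 t x ≥ (AL t x - AL (t-h) x)/h`, and integrating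
`(φ (t+h) - φ t)/h ≤ am1 (t+h)`, `(φ t - φ (t-h))/h ≥ am1 (t-h)`. Hence pointwise
`|AL1 t x - am1 t| ≤ (|AL (t+h) x - φ (t+h)| + |AL t x - φ t| + |AL (t-h) x - φ (t-h)|)/h + am1 (t+h) - am1 (t-h)`
(also `am1 (t-h) ≤ am1 t ≤ am1 (t+h)`). Integrate and use `mad_AL_le` three times. -/
theorem dis_le (t h V : ℝ) (hh : 0 < h)
    (hV : ∀ s ∈ Set.Icc (t - h) (t + h), ∀ ω, dot (vt v0 w s ω) (vt v0 w s ω) ≤ V) :
    ∫ x, |AL1 v0 w a t x - am1 v0 w a t| ∂(gam ι) ≤
      3 * Real.sqrt V / h + (am1 v0 w a (t + h) - am1 v0 w a (t - h)) := by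
  set φ : ℝ → ℝ := fun s => ∫ y, AL v0 w a s y ∂(gam ι) with hφ
  have hm1 : am1 v0 w a (t - h) ≤ am1 v0 w a t :=
    integral_mono (AL1_integrable v0 w a _) (AL1_integrable v0 w a _)
      fun x => AL1_mono v0 w a x (by linarith)
  have hm2 : am1 v0 w a t ≤ am1 v0 w a (t + h) :=
    integral_mono (AL1_integrable v0 w a _) (AL1_integrable v0 w a _)
      fun x => AL1_mono v0 w a x (by linarith)
  have hi1 : φ (t + h) - φ t ≤ h * am1 v0 w a (t + h) := by
    have h3 : ∫ x, (AL v0 w a (t + h) x - h * AL1 v0 w a (t + h) x) ∂(gam ι) ≤ φ t := by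
      refine integral_mono ((AL_integrable v0 w a _).sub ((AL1_integrable v0 w a _).const_mul _))
        (AL_integrable v0 w a _) fun x => ?_
      have := AL_ge v0 w a x t (t + h)
      have e1 : (t - (t + h)) * AL1 v0 w a (t + h) x = -(h * AL1 v0 w a (t + h) x) := by ring
      rw [e1] at this
      show AL v0 w a (t + h) x - h * AL1 v0 w a (t + h) x ≤ AL v0 w a t x
      linarith
    rw [integral_sub (AL_integrable v0 w a _) ((AL1_integrable v0 w a _).const_mul _),
      integral_const_mul] at h3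
    have e2 : am1 v0 w a (t + h) = ∫ x, AL1 v0 w a (t + h) x ∂(gam ι) := rfl
    rw [e2]
    simp only [hφ] at h3 ⊢
    linarith
  have hi2 : h * am1 v0 w a (t - h) ≤ φ t - φ (t - h) := by
    have h3 : ∫ x, (AL v0 w a (t - h) x + h * AL1 v0 w a (t - h) x) ∂(gam ι) ≤ φ t := by
      refine integral_mono ((AL_integrable v0 w a _).add ((AL1_integrable v0 w a _).const_mul _))
        (AL_integrable v0 w a _) fun x => ?_
      have := AL_ge v0 w a x t (t - h)
      have e1 : (t - (t - h)) * AL1 v0 w a (t - h) x = h * AL1 v0 w a (t - h) x := by ring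
      rw [e1] at this
      exact this
    rw [integral_add (AL_integrable v0 w a _) ((AL1_integrable v0 w a _).const_mul _),
      integral_const_mul] at h3
    have e2 : am1 v0 w a (t - h) = ∫ x, AL1 v0 w a (t - h) x ∂(gam ι) := rfl
    rw [e2]
    simp only [hφ] at h3 ⊢
    linarith
  set dp : (ι → ℝ) → ℝ := fun x => |AL v0 w a (t + h) x - φ (t + h)| with hdp
  set d0 : (ι → ℝ) → ℝ := fun x => |AL v0 w a t x - φ t| with hd0
  set dm : (ι → ℝ) → ℝ := fun x => |AL v0 w a (t - h) x - φ (t - h)| with hdm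
  have idp : Integrable dp (gam ι) := ((AL_integrable v0 w a _).sub (integrable_const _)).abs
  have id0 : Integrable d0 (gam ι) := ((AL_integrable v0 w a _).sub (integrable_const _)).abs
  have idm : Integrable dm (gam ι) := ((AL_integrable v0 w a _).sub (integrable_const _)).abs
  set Δ : ℝ := am1 v0 w a (t + h) - am1 v0 w a (t - h) with hΔ
  have hpt : ∀ x, |AL1 v0 w a t x - am1 v0 w a t| ≤ h⁻¹ * ((dp x + d0 x) + dm x) + Δ := by
    intro x
    have u1 := AL_ge v0 w a x (t + h) t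
    have u2 := AL_ge v0 w a x (t - h) t
    have e1 : (t + h - t) * AL1 v0 w a t x = h * AL1 v0 w a t x := by ring
    have e2 : (t - h - t) * AL1 v0 w a t x = -(h * AL1 v0 w a t x) := by ring
    rw [e1] at u1
    rw [e2] at u2
    have a1 := abs_le.1 (le_refl (dp x))
    have a2 := abs_le.1 (le_refl (d0 x))
    have a3 := abs_le.1 (le_refl (dm x))
    have n1 : 0 ≤ dp x := abs_nonneg _
    have n2 : 0 ≤ d0 x := abs_nonneg _
    have n3 : 0 ≤ dm x := abs_nonneg _
    have key : h * |AL1 v0 w a t x - am1 v0 w a t| ≤ ((dp x + d0 x) + dm x) + h * Δ := by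
      rw [← abs_of_pos hh, ← abs_mul, abs_of_pos hh, abs_le, hΔ]
      have p1 : h * am1 v0 w a (t - h) ≤ h * am1 v0 w a t := mul_le_mul_of_nonneg_left hm1 hh.le
      have p2 : h * am1 v0 w a t ≤ h * am1 v0 w a (t + h) := mul_le_mul_of_nonneg_left hm2 hh.le
      constructor
      · linarith [a1.1, a1.2, a2.1, a2.2, a3.1, a3.2]
      · linarith [a1.1, a1.2, a2.1, a2.2, a3.1, a3.2]
    have key2 : |AL1 v0 w a t x - am1 v0 w a t| ≤ h⁻¹ * (((dp x + d0 x) + dm x) + h * Δ) := by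
      rw [← div_eq_inv_mul, le_div_iff₀ hh, mul_comm]
      exact key
    refine key2.trans (le_of_eq ?_)
    field_simp
  have hint : ∫ x, |AL1 v0 w a t x - am1 v0 w a t| ∂(gam ι) ≤
      ∫ x, (h⁻¹ * ((dp x + d0 x) + dm x) + Δ) ∂(gam ι) :=
    integral_mono ((AL1_integrable v0 w a t).sub (integrable_const _)).abs
      ((((idp.add id0).add idm).const_mul _).add (integrable_const _)) hpt
  have e3 : ∫ x, (h⁻¹ * ((dp x + d0 x) + dm x) + Δ) ∂(gam ι) =
      h⁻¹ * ((∫ x, dp x ∂(gam ι) + ∫ x, d0 x ∂(gam ι)) + ∫ x, dm x ∂(gam ι)) + Δ := by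
    have j1 : Integrable (fun x => dp x + d0 x) (gam ι) := idp.add id0
    have j2 : Integrable (fun x => (dp x + d0 x) + dm x) (gam ι) := j1.add idm
    have j3 : Integrable (fun x => h⁻¹ * ((dp x + d0 x) + dm x)) (gam ι) := j2.const_mul _
    rw [integral_add j3 (integrable_const _), integral_const_mul, integral_add j1 idm,
      integral_add idp id0]
    simp
  have m1 : ∫ x, dp x ∂(gam ι) ≤ Real.sqrt V :=
    mad_AL_le v0 w a (t + h) V (hV _ ⟨by linarith, le_rfl⟩)
  have m2 : ∫ x, d0 x ∂(gam ι) ≤ Real.sqrt V :=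
    mad_AL_le v0 w a t V (hV _ ⟨by linarith, by linarith⟩)
  have m3 : ∫ x, dm x ∂(gam ι) ≤ Real.sqrt V :=
    mad_AL_le v0 w a (t - h) V (hV _ ⟨le_rfl, by linarith⟩)
  rw [e3] at hint
  refine hint.trans ?_
  have m4 : h⁻¹ * ((∫ x, dp x ∂(gam ι) + ∫ x, d0 x ∂(gam ι)) + ∫ x, dm x ∂(gam ι)) ≤
      h⁻¹ * (3 * Real.sqrt V) :=
    mul_le_mul_of_nonneg_left (by linarith) (inv_nonneg.2 hh.le)
  have e4 : h⁻¹ * (3 * Real.sqrt V) = 3 * Real.sqrt V / h := by rw [div_eq_inv_mul]
  linarith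

end SKC
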