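import Pool.Agent.H.MP_08eaf3_pr.D.Abs3
import Pool.Agent.H.MP_08eaf3_pr.D.Abs4
import Pool.Agent.H.MP_08eaf3_pr.D.Abs5

/-!
Part D: the total fluctuation of the energy, averaged over the parameter.
-/

set_option autoImplicit false

open MeasureTheory ProbabilityTheory Filter Topology Matrix

namespace SKC

variable {Ω ι : Type} [Fintype Ω] [Nonempty Ω] [Fintype ι] (v0 w : Ω → ι → ℝ) (a : Ω → ℝ)

/-- Thermal part. Proof: by Jensen (concavity of the square root, or Cauchy-Schwarz on the interval `[1,2]`)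
`∫_1^2 √(g y) dy ≤ √(∫_1^2 g y dy)` for continuous `g ≥ 0`; substitution `t = s y`
(`intervalIntegral.integral_comp_mul_left`), `int_int_AL2`, `abs_am1_le`:
`∫_1^2 (∫ AL2 (s y)) dy = (am1 (2 s) - am1 s)/s ≤ (4 s + 2 s)/s = 6`, and `√6 ≤ 3`. -/
theorem thermal_le (h0 : ∀ ω ω', dot (w ω) (v0 ω') = 0) (h1 : ∀ ω ω', |dot (w ω) (w ω')| ≤ 1)
    (s : ℝ) (hs : 0 < s) :
    ∫ y in (1 : ℝ)..2, Real.sqrt (∫ x, AL2 v0 w a (s * y) x ∂(gam ι)) ≤ 3 := by
  have hsne : s ≠ 0 := hs.ne'
  have hGc : Continuous (fun t => ∫ x, AL2 v0 w a t x ∂(gam ι)) := int_AL2_cont v0 w a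
  have hGn : ∀ t, 0 ≤ ∫ x, AL2 v0 w a t x ∂(gam ι) := fun t =>
    integral_nonneg (fun x => AL2_nonneg v0 w a x t)
  have hc2 : Continuous (fun y : ℝ => ∫ x, AL2 v0 w a (s * y) x ∂(gam ι)) :=
    hGc.comp (continuous_const.mul continuous_id)
  have hI : ∫ y in (1 : ℝ)..2, (∫ x, AL2 v0 w a (s * y) x ∂(gam ι)) ≤ 6 := by
    have h2 : ∫ y in (1 : ℝ)..2, (∫ x, AL2 v0 w a (s * y) x ∂(gam ι)) =
        s⁻¹ * (am1 v0 w a (s * 2) - am1 v0 w a (s * 1)) := by
      have h3 := intervalIntegral.integral_comp_mul_left (a := (1 : ℝ)) (b := 2)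
        (fun t => ∫ x, AL2 v0 w a t x ∂(gam ι)) hsne
      rw [int_int_AL2] at h3
      simpa [smul_eq_mul] using h3
    rw [h2]
    have e1 := abs_le.mp (abs_am1_le v0 w a h0 h1 (s * 2))
    have e2 := abs_le.mp (abs_am1_le v0 w a h0 h1 (s * 1))
    rw [abs_of_pos (by linarith : 0 < s * 2)] at e1
    rw [abs_of_pos (by linarith : 0 < s * 1)] at e2
    have e3 : am1 v0 w a (s * 2) - am1 v0 w a (s * 1) ≤ s * 6 := by linarith [e1.2, e2.1]
    calc s⁻¹ * (am1 v0 w a (s * 2) - am1 v0 w a (s * 1)) ≤ s⁻¹ * (s * 6) :=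
          mul_le_mul_of_nonneg_left e3 (inv_nonneg.mpr hs.le)
      _ = 6 := by rw [← mul_assoc, inv_mul_cancel₀ hsne, one_mul]
  have hpt : ∀ u : ℝ, 0 ≤ u → Real.sqrt u ≤ (1 / 6) * u + 3 / 2 := by
    intro u hu
    have e1 := Real.sq_sqrt hu
    nlinarith [sq_nonneg (Real.sqrt u - 3)]
  have hm : ∫ y in (1 : ℝ)..2, Real.sqrt (∫ x, AL2 v0 w a (s * y) x ∂(gam ι)) ≤
      ∫ y in (1 : ℝ)..2, ((1 / 6) * (∫ x, AL2 v0 w a (s * y) x ∂(gam ι)) + 3 / 2) := by
    apply intervalIntegral.integral_mono_on (by norm_num)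
    · exact (Real.continuous_sqrt.comp hc2).intervalIntegrable _ _
    · exact ((continuous_const.mul hc2).add continuous_const).intervalIntegrable _ _
    · intro y _
      exact hpt _ (hGn _)
  have hs2 : ∫ y in (1 : ℝ)..2, ((1 / 6) * (∫ x, AL2 v0 w a (s * y) x ∂(gam ι)) + 3 / 2) =
      (1 / 6) * (∫ y in (1 : ℝ)..2, (∫ x, AL2 v0 w a (s * y) x ∂(gam ι))) + 3 / 2 := by
    have hc3 : Continuous (fun y : ℝ => (1 / 6 : ℝ) * (∫ x, AL2 v0 w a (s * y) x ∂(gam ι))) :=
      continuous_const.mul hc2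
    rw [intervalIntegral.integral_add (hc3.intervalIntegrable _ _)
      (continuous_const.intervalIntegrable _ _), intervalIntegral.integral_const_mul,
      intervalIntegral.integral_const]
    norm_num
  rw [hs2] at hm
  linarith

/-- Difference of shifted integrals of a monotone function `g`:
`∫_b^c (g (t+h) - g (t-h)) dt ≤ 2 h (g (c+h) - g (b-h))` for `b ≤ c`, `0 ≤ h`. Proof: the left side is
`∫_(c-h)^(c+h) g - ∫_(b-h)^(b+h) g` (`intervalIntegral.integral_comp_add_right`, additivity), and `g` is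
at most `g (c+h)` on the first interval and at least `g (b-h)` on the second. -/
theorem shift_le (g : ℝ → ℝ) (hg : Monotone g) (hc : Continuous g) (b c h : ℝ) (hbc : b ≤ c)
    (hh : 0 ≤ h) :
    ∫ t in b..c, (g (t + h) - g (t - h)) ≤ 2 * h * (g (c + h) - g (b - h)) := by
  have hi : ∀ p q : ℝ, IntervalIntegrable g volume p q := fun p q => hc.intervalIntegrable p q
  have e0 : ∫ t in b..c, (g (t + h) - g (t - h)) =
      (∫ t in b..c, g (t + h)) - ∫ t in b..c, g (t - h) :=
    intervalIntegral.integral_sub ((hc.comp (continuous_id.add continuous_const)).intervalIntegrable _ _)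
      ((hc.comp (continuous_id.sub continuous_const)).intervalIntegrable _ _)
  rw [e0, intervalIntegral.integral_comp_add_right, intervalIntegral.integral_comp_sub_right]
  have a1 : ∫ x in (b + h)..(c + h), g x =
      (∫ x in (b + h)..(c - h), g x) + ∫ x in (c - h)..(c + h), g x :=
    (intervalIntegral.integral_add_adjacent_intervals (hi _ _) (hi _ _)).symm
  have a2 : ∫ x in (b - h)..(c - h), g x =
      (∫ x in (b - h)..(b + h), g x) + ∫ x in (b + h)..(c - h), g x :=
    (intervalIntegral.integral_add_adjacent_intervals (hi _ _) (hi _ _)).symm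
  have u1 : ∫ x in (c - h)..(c + h), g x ≤ 2 * h * g (c + h) := by
    have u2 : ∫ x in (c - h)..(c + h), g x ≤ ∫ _x in (c - h)..(c + h), g (c + h) :=
      intervalIntegral.integral_mono_on (by linarith) (hi _ _)
        (continuous_const.intervalIntegrable _ _) (fun x hx => hg hx.2)
    rw [intervalIntegral.integral_const, smul_eq_mul] at u2
    calc ∫ x in (c - h)..(c + h), g x ≤ (c + h - (c - h)) * g (c + h) := u2
      _ = 2 * h * g (c + h) := by ring
  have u3 : 2 * h * g (b - h) ≤ ∫ x in (b - h)..(b + h), g x := by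
    have u4 : ∫ _x in (b - h)..(b + h), g (b - h) ≤ ∫ x in (b - h)..(b + h), g x :=
      intervalIntegral.integral_mono_on (by linarith) (continuous_const.intervalIntegrable _ _)
        (hi _ _) (fun x hx => hg hx.1)
    rw [intervalIntegral.integral_const, smul_eq_mul] at u4
    calc 2 * h * g (b - h) = (b + h - (b - h)) * g (b - h) := by ring
      _ ≤ _ := u4
  rw [a1, a2]
  linarith

/-- Shifted mean energies. Proof: substitution `t = s y`, `shift_le` with `g = am1`, `b = s`, `c = 2 s`, and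
`|am1 t| ≤ 2 |t|`: the integral is at most `(1/s) * 2 h * (am1 (2 s + h) - am1 (s - h)) ≤ (2 h/s) * (2 * (3 s) + 2 s) = 16 h`. -/
theorem shift_am1_le (h0 : ∀ ω ω', dot (w ω) (v0 ω') = 0) (h1 : ∀ ω ω', |dot (w ω) (w ω')| ≤ 1)
    (s h : ℝ) (hh : 0 < h) (hs : h ≤ s) :
    ∫ y in (1 : ℝ)..2, (am1 v0 w a (s * y + h) - am1 v0 w a (s * y - h)) ≤ 16 * h := by
  have hs0 : 0 < s := lt_of_lt_of_le hh hs
  have hsne : s ≠ 0 := hs0.ne'
  have h3 := intervalIntegral.integral_comp_mul_left (a := (1 : ℝ)) (b := 2)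
    (fun t => am1 v0 w a (t + h) - am1 v0 w a (t - h)) hsne
  have h4 := shift_le (am1 v0 w a) (am1_mono v0 w a) (am1_cont v0 w a) (s * 1) (s * 2) h
    (by linarith) hh.le
  rw [h3, smul_eq_mul]
  have e1 := abs_le.mp (abs_am1_le v0 w a h0 h1 (s * 2 + h))
  have e2 := abs_le.mp (abs_am1_le v0 w a h0 h1 (s * 1 - h))
  rw [abs_of_pos (by linarith : 0 < s * 2 + h)] at e1
  rw [abs_of_nonneg (by linarith : 0 ≤ s * 1 - h)] at e2
  have e3 : am1 v0 w a (s * 2 + h) - am1 v0 w a (s * 1 - h) ≤ s * 6 := by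
    linarith [e1.2, e2.1]
  have e4 : 2 * h * (am1 v0 w a (s * 2 + h) - am1 v0 w a (s * 1 - h)) ≤ 2 * h * (s * 6) :=
    mul_le_mul_of_nonneg_left e3 (by linarith)
  calc s⁻¹ * ∫ t in (s * 1)..(s * 2), (am1 v0 w a (t + h) - am1 v0 w a (t - h))
      ≤ s⁻¹ * (2 * h * (s * 6)) :=
        mul_le_mul_of_nonneg_left (h4.trans e4) (inv_nonneg.mpr hs0.le)
    _ = 12 * h := by field_simp; ring
    _ ≤ 16 * h := by linarith

/-- The total fluctuation. Proof: `aDD_le`, `dis_le` at `t = s y`, `thermal_le`, `shift_am1_le`; monotonicity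
and linearity of the interval integral (all functions of `y` are continuous: `aDD_cont`, `int_AL2_cont`, `am1_cont`). -/
theorem int_aDD_le (h0 : ∀ ω ω', dot (w ω) (v0 ω') = 0) (h1 : ∀ ω ω', |dot (w ω) (w ω')| ≤ 1)
    (s h V : ℝ) (hh : 0 < h) (hs : h ≤ s)
    (hV : ∀ t ∈ Set.Icc 0 (3 * s), ∀ ω, dot (vt v0 w t ω) (vt v0 w t ω) ≤ V) :
    ∫ y in (1 : ℝ)..2, aDD v0 w a (s * y) ≤ 3 + 16 * h + 3 * Real.sqrt V / h := by
  have hs0 : 0 < s := lt_of_lt_of_le hh hs
  have hlin : Continuous (fun y : ℝ => s * y) := continuous_const.mul continuous_id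
  have hcD : Continuous (fun y : ℝ => aDD v0 w a (s * y)) := (aDD_cont v0 w a).comp hlin
  have hcS : Continuous (fun y : ℝ => Real.sqrt (∫ x, AL2 v0 w a (s * y) x ∂(gam ι))) :=
    Real.continuous_sqrt.comp ((int_AL2_cont v0 w a).comp hlin)
  have hcA : Continuous (fun y : ℝ => am1 v0 w a (s * y + h) - am1 v0 w a (s * y - h)) :=
    ((am1_cont v0 w a).comp (hlin.add continuous_const)).sub
      ((am1_cont v0 w a).comp (hlin.sub continuous_const))
  have hcR : Continuous (fun y : ℝ => Real.sqrt (∫ x, AL2 v0 w a (s * y) x ∂(gam ι)) +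
      (am1 v0 w a (s * y + h) - am1 v0 w a (s * y - h))) := hcS.add hcA
  have hm : ∫ y in (1 : ℝ)..2, aDD v0 w a (s * y) ≤
      ∫ y in (1 : ℝ)..2, ((Real.sqrt (∫ x, AL2 v0 w a (s * y) x ∂(gam ι)) +
        (am1 v0 w a (s * y + h) - am1 v0 w a (s * y - h))) + 3 * Real.sqrt V / h) := by
    apply intervalIntegral.integral_mono_on (by norm_num)
    · exact hcD.intervalIntegrable _ _
    · exact (hcR.add continuous_const).intervalIntegrable _ _
    · intro y hy
      have hy1 : s * 1 ≤ s * y := mul_le_mul_of_nonneg_left hy.1 hs0.le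
      have hy2 : s * y ≤ s * 2 := mul_le_mul_of_nonneg_left hy.2 hs0.le
      have q1 := aDD_le v0 w a (s * y)
      have q2 := dis_le v0 w a (s * y) h V hh (by
        intro t ht
        apply hV
        constructor
        · linarith [ht.1]
        · linarith [ht.2])
      linarith
  have hs2 : ∫ y in (1 : ℝ)..2, ((Real.sqrt (∫ x, AL2 v0 w a (s * y) x ∂(gam ι)) +
        (am1 v0 w a (s * y + h) - am1 v0 w a (s * y - h))) + 3 * Real.sqrt V / h) =
      ((∫ y in (1 : ℝ)..2, Real.sqrt (∫ x, AL2 v0 w a (s * y) x ∂(gam ι))) +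
        ∫ y in (1 : ℝ)..2, (am1 v0 w a (s * y + h) - am1 v0 w a (s * y - h))) +
        3 * Real.sqrt V / h := by
    rw [intervalIntegral.integral_add (hcR.intervalIntegrable _ _)
      (continuous_const.intervalIntegrable _ _),
      intervalIntegral.integral_add (hcS.intervalIntegrable _ _) (hcA.intervalIntegrable _ _),
      intervalIntegral.integral_const, smul_eq_mul]
    norm_num
  rw [hs2] at hm
  have q3 := thermal_le v0 w a h0 h1 s hs0
  have q4 := shift_am1_le v0 w a h0 h1 s h hh hs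
  linarith

end SKC
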