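import Pool.Agent.H.MP_08eaf3_pr.Sys
import Pool.Agent.H.MP_08eaf3_pr.IfA

/-!
Part D: the four Gaussian tools used from part A.
-/

set_option autoImplicit false

open MeasureTheory ProbabilityTheory Filter Topology Matrix

namespace SKC

/-- growth class from an exponential bound -/
theorem NeedA_EG {ι : Type} [Fintype ι] {F : (ι → ℝ) → ℝ} (hF : Continuous F) (C k : ℝ)
    (hb : ∀ x, |F x| ≤ C * Real.exp (k * ∑ i, |x i|)) : EG F := by
  refine ⟨hF, |C| + |k|, fun z => ?_⟩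
  have h0 : (0 : ℝ) ≤ n1 z := Finset.sum_nonneg (fun i _ => abs_nonneg (z i))
  have h1 : |F z| ≤ |C| * Real.exp (k * n1 z) := by
    refine (hb z).trans ?_
    exact mul_le_mul_of_nonneg_right (le_abs_self C) (Real.exp_pos _).le
  refine h1.trans ?_
  have h2 : Real.exp (k * n1 z) ≤ Real.exp ((|C| + |k|) * n1 z) := by
    apply Real.exp_le_exp.2
    apply mul_le_mul_of_nonneg_right _ h0
    have := le_abs_self k
    have := abs_nonneg C
    linarith
  exact mul_le_mul (by have := abs_nonneg k; linarith) h2 (Real.exp_pos _).le (by positivity)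

/-- continuous functions of exponential growth are integrable (part A) -/
theorem integrable_growth {ι : Type} [Fintype ι] {F : (ι → ℝ) → ℝ} (hF : Continuous F) (C k : ℝ)
    (hb : ∀ x, |F x| ≤ C * Real.exp (k * ∑ i, |x i|)) : Integrable F (gam ι) :=
  (NeedA_EG hF C k hb).integrable

/-- Gaussian integration by parts in the direction `c` (part A) -/
theorem ibp_dir {ι : Type} [Fintype ι] (c : ι → ℝ) {F F' : (ι → ℝ) → ℝ}
    (hd : ∀ x : ι → ℝ, ∀ s : ℝ, HasDerivAt (fun s : ℝ => F (x + s • c)) (F' (x + s • c)) s)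
    (hF : Continuous F) (hF' : Continuous F') (C k : ℝ)
    (hb : ∀ x, |F x| ≤ C * Real.exp (k * ∑ i, |x i|))
    (hb' : ∀ x, |F' x| ≤ C * Real.exp (k * ∑ i, |x i|)) :
    ∫ x, dot x c * F x ∂(gam ι) = ∫ x, F' x ∂(gam ι) := by
  refine A.stein_dir c F F' (NeedA_EG hF C k hb) (NeedA_EG hF' C k hb') (fun x => ?_)
  have := hd x 0
  simpa using this

/-- variance of log-sum-exp (part A) -/
theorem var_lse {Ω ι : Type} [Fintype ι] (B : Finset Ω) (hB : B.Nonempty) (v : Ω → ι → ℝ)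
    (a : Ω → ℝ) (V : ℝ) (hV : ∀ ω ∈ B, dot (v ω) (v ω) ≤ V) :
    ∫ x, (lse B (fun ω => dot x (v ω) + a ω) - EL B v a) ^ 2 ∂(gam ι) ≤ V :=
  var_lse_le B hB v a V hV

/-- comparison of two Gaussian processes (part A) -/
theorem EL_comp {Ω ι ι' : Type} [Fintype ι] [Fintype ι'] (B : Finset Ω) (hB : B.Nonempty)
    (v : Ω → ι → ℝ) (v' : Ω → ι' → ℝ) (a : Ω → ℝ) (κ : ℝ)
    (h : ∀ ω ∈ B, ∀ ω' ∈ B, |dot (v ω) (v ω') - dot (v' ω) (v' ω')| ≤ κ) :
    |EL B v a - EL B v' a| ≤ κ :=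
  EL_diff_le B hB v v' a κ h

end SKC
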