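import Pool.Agent.H.MP_08eaf3_pr.Sys.Gw
import Pool.Agent.H.MP_08eaf3_pr.D.NeedA

/-!
Part D: abstract one-parameter perturbation `v0 + t w` of a finite Gaussian system: definitions.
-/

set_option autoImplicit false

open MeasureTheory ProbabilityTheory Filter Topology Matrix

namespace SKC

variable {Ω ι : Type} [Fintype Ω] [Fintype ι] (v0 w : Ω → ι → ℝ) (a : Ω → ℝ)

/-- features `v0 + t w` -/
noncomputable def vt (t : ℝ) (ω : Ω) (i : ι) : ℝ := v0 ω i + t * w ω i

/-- log partition function at the parameter `t` -/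
noncomputable def AL (t : ℝ) (x : ι → ℝ) : ℝ :=
  lse Finset.univ (fun ω => dot x (vt v0 w t ω) + a ω)

/-- Gibbs average of the energy `dot x (w ω)` (first derivative of `AL` in `t`) -/
noncomputable def AL1 (t : ℝ) (x : ι → ℝ) : ℝ :=
  ∑ ω, gw (vt v0 w t) a x ω * dot x (w ω)

/-- Gibbs variance of the energy (second derivative of `AL` in `t`) -/
noncomputable def AL2 (t : ℝ) (x : ι → ℝ) : ℝ :=
  ∑ ω, gw (vt v0 w t) a x ω * (dot x (w ω) - AL1 v0 w a t x) ^ 2

/-- quenched average of the energy -/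
noncomputable def am1 (t : ℝ) : ℝ := ∫ x, AL1 v0 w a t x ∂(gam ι)

/-- quenched average of the absolute deviation of the energy from its quenched average -/
noncomputable def aDD (t : ℝ) : ℝ :=
  ∫ x, ∑ ω, gw (vt v0 w t) a x ω * |dot x (w ω) - am1 v0 w a t| ∂(gam ι)

end SKC
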