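import Pool.Agent.H.MP_08eaf3_pr.D.InstDef
import Pool.Agent.H.MP_08eaf3_pr.D.Abs1b

/-!
Part D: continuity in the parameters `x`.
-/

set_option autoImplicit false

open MeasureTheory ProbabilityTheory Filter Topology Matrix

namespace SKC

/-- the sum of all absolute values bounds one of them -/
theorem Cont_le_sum {A B : Type} [Fintype A] [Fintype B] (g : A → B → ℝ) (a : A) (b : B) :
    |g a b| ≤ ∑ a, ∑ b, |g a b| := by
  refine le_trans (Finset.single_le_sum (f := fun b => |g a b|) (fun _ _ => abs_nonneg _)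
    (Finset.mem_univ b)) ?_
  exact Finset.single_le_sum (f := fun a => ∑ b, |g a b|)
    (fun _ _ => Finset.sum_nonneg fun _ _ => abs_nonneg _) (Finset.mem_univ a)

/-- linear growth is exponential growth -/
theorem Cont_lin {ι : Type} [Fintype ι] (z : ι → ℝ) (A B y : ℝ) (hy : |y| ≤ A + B * ∑ i, |z i|) :
    |y| ≤ (|A| + |B|) * Real.exp (1 * ∑ i, |z i|) := by
  have hs0 : 0 ≤ ∑ i, |z i| := Finset.sum_nonneg fun _ _ => abs_nonneg _
  have h1 := Real.add_one_le_exp (1 * ∑ i, |z i|)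
  have h2 : A ≤ |A| := le_abs_self A
  have h3 : B ≤ |B| := le_abs_self B
  have h4 := abs_nonneg A
  have h5 := abs_nonneg B
  have h6 : B * ∑ i, |z i| ≤ |B| * ∑ i, |z i| := mul_le_mul_of_nonneg_right h3 hs0
  have h7 : |B| * ∑ i, |z i| ≤ |B| * Real.exp (1 * ∑ i, |z i|) :=
    mul_le_mul_of_nonneg_left (by linarith) h5
  have h8 : |A| * 1 ≤ |A| * Real.exp (1 * ∑ i, |z i|) :=
    mul_le_mul_of_nonneg_left (by linarith) h4
  rw [add_mul]
  linarith

/-- the features depend continuously on the parameters (affine) -/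
theorem continuous_vA (b1 b2 c : ℝ) (M N : ℕ) (ρ : Cfg (Fin 2) N)
    (i : (Fin N × Fin N) ⊕ IP M N) : Continuous (fun x : PM M → ℝ => vA b1 b2 c M N x ρ i) := by
  rcases i with i | i
  · simp only [vA, Sum.elim_inl]
    exact continuous_const
  · simp only [vA, vP, Sum.elim_inr]
    fun_prop

/-- bound of the features, uniformly near a point; `C` may depend on `x0` -/
theorem vA_bdd (b1 b2 c : ℝ) (M N : ℕ) (x0 : PM M → ℝ) :
    ∃ C : ℝ, ∀ᶠ x in 𝓝 x0, ∀ ρ i, |vA b1 b2 c M N x ρ i| ≤ C := by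
  refine ⟨(∑ ρ, ∑ i, |vA b1 b2 c M N x0 ρ i|) + 1, ?_⟩
  rw [Filter.eventually_all]
  intro ρ
  rw [Filter.eventually_all]
  intro i
  have h1 : ContinuousAt (fun x : PM M → ℝ => |vA b1 b2 c M N x ρ i|) x0 :=
    (continuous_vA b1 b2 c M N ρ i).abs.continuousAt
  have h2 := Cont_le_sum (fun ρ i => vA b1 b2 c M N x0 ρ i) ρ i
  filter_upwards [h1.eventually_lt_const
    (show |vA b1 b2 c M N x0 ρ i| < (∑ ρ, ∑ i, |vA b1 b2 c M N x0 ρ i|) + 1 by
      linarith)] with x hx
  exact hx.le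

/-- Continuity of the free energy in the parameters. Proof: `continuous_int_gam` with
`Φ x z = lse univ (dot z (vA x ·) + Pen)`, `continuous_lse_joint`, `abs_lse_le`, `vA_bdd`, `abs_dot_le`. -/
theorem LZ_cont (b1 b2 c u : ℝ) (M N : ℕ) : Continuous (LZ b1 b2 c u M N) := by
  refine continuous_int_gam
    (fun x z => lse Finset.univ (fun ρ => dot z (vA b1 b2 c M N x ρ) + Pen u N ρ))
    (continuous_lse_joint (fun x => vA b1 b2 c M N x) (fun ρ i => continuous_vA b1 b2 c M N ρ i)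
      (Pen u N)) fun x0 => ?_
  obtain ⟨C, hC⟩ := vA_bdd b1 b2 c M N x0
  refine ⟨abs (Real.log (Finset.univ : Finset (Cfg (Fin 2) N)).card + ∑ ρ, abs (Pen u N ρ)) + abs C, 1, ?_⟩
  filter_upwards [hC] with x hx z
  refine Cont_lin z _ _ _ ?_
  refine (abs_lse_le Finset.univ Finset.univ_nonempty _ ((∑ ρ, |Pen u N ρ|) + C * ∑ i, |z i|)
    fun ρ _ => ?_).trans (le_of_eq (by ring))
  refine (abs_add_le _ _).trans ?_
  have h1 := abs_dot_le z (vA b1 b2 c M N x ρ) C (hx ρ)
  have h2 := Finset.single_le_sum (f := fun ρ => |Pen u N ρ|) (fun _ _ => abs_nonneg _)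
    (Finset.mem_univ ρ)
  linarith

/-- Continuity of quenched averages in the parameters. Proof: `continuous_int_gam`; the integrand is a finite sum
of products of Gibbs weights (`continuous_gw_joint`), bounded by `∑ r, |f r|`. -/
theorem GA_cont (b1 b2 c u : ℝ) (M N : ℕ) {n : ℕ} (f : (Fin n → Cfg (Fin 2) N) → ℝ) :
    Continuous (fun x : PM M → ℝ => GA (vA b1 b2 c M N x) (Pen u N) f) := by
  refine continuous_int_gam
    (fun x z => ∑ r : Fin n → Cfg (Fin 2) N, (∏ l, gw (vA b1 b2 c M N x) (Pen u N) z (r l)) * f r)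
    ?_ fun x0 => ?_
  · refine continuous_finsetSum _ fun r _ => ?_
    refine (continuous_finsetProd _ fun l _ => ?_).mul continuous_const
    exact continuous_gw_joint (fun x => vA b1 b2 c M N x)
      (fun ρ i => continuous_vA b1 b2 c M N ρ i) (Pen u N) (r l)
  · refine ⟨∑ r, |f r|, 0, Eventually.of_forall fun x z => ?_⟩
    rw [zero_mul, Real.exp_zero, mul_one]
    refine (Finset.abs_sum_le_sum_abs _ _).trans (Finset.sum_le_sum fun r _ => ?_)
    rw [abs_mul, abs_of_nonneg (Finset.prod_nonneg fun l _ => gw_nonneg _ _ _ _)]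
    have h1 : ∏ l, gw (vA b1 b2 c M N x) (Pen u N) z (r l) ≤ 1 :=
      Finset.prod_le_one (fun l _ => gw_nonneg _ _ _ _) (fun l _ => gw_le_one _ _ _ _)
    calc (∏ l, gw (vA b1 b2 c M N x) (Pen u N) z (r l)) * |f r| ≤ 1 * |f r| :=
          mul_le_mul_of_nonneg_right h1 (abs_nonneg _)
      _ = |f r| := one_mul _

/-- continuity -/
theorem devP_cont (b1 b2 c u : ℝ) (M N : ℕ) : Continuous (devP b1 b2 c u M N) := by
  unfold devP
  exact GA_cont b1 b2 c u M N _

/-- joint continuity of the Gibbs weights -/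
theorem Cont_gw (b1 b2 c u : ℝ) (M N : ℕ) (ρ : Cfg (Fin 2) N) :
    Continuous (fun q : (PM M → ℝ) × ((Fin N × Fin N) ⊕ IP M N → ℝ) =>
      gw (vA b1 b2 c M N q.1) (Pen u N) q.2 ρ) :=
  continuous_gw_joint (fun x => vA b1 b2 c M N x) (fun ρ i => continuous_vA b1 b2 c M N ρ i)
    (Pen u N) ρ

/-- joint continuity of the energy -/
theorem Cont_dw (M N : ℕ) (p : PM M) (ρ : Cfg (Fin 2) N) :
    Continuous (fun q : (PM M → ℝ) × ((Fin N × Fin N) ⊕ IP M N → ℝ) => dot q.2 (wP M N p ρ)) := by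
  unfold dot
  refine continuous_finsetSum _ fun i _ => ?_
  exact ((continuous_apply i).comp continuous_snd).mul continuous_const

/-- Continuity of the mean energy (`continuous_int_gam`, `abs_gw_sum_le`, `abs_dot_le`). -/
theorem m1P_cont (b1 b2 c u : ℝ) (M N : ℕ) (p : PM M) : Continuous (m1P b1 b2 c u M N p) := by
  refine continuous_int_gam
    (fun x z => ∑ ρ, gw (vA b1 b2 c M N x) (Pen u N) z ρ * dot z (wP M N p ρ)) ?_ fun x0 => ?_
  · exact continuous_finsetSum _ fun ρ _ => (Cont_gw b1 b2 c u M N ρ).mul (Cont_dw M N p ρ)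
  · refine ⟨abs (0 : ℝ) + abs (∑ ρ, ∑ i, abs (wP M N p ρ i)), 1, Eventually.of_forall fun x z => ?_⟩
    refine Cont_lin z _ _ _ ?_
    rw [zero_add]
    exact abs_gw_sum_le _ _ _ _ _ fun ρ =>
      abs_dot_le z (wP M N p ρ) _ fun i => Cont_le_sum (fun ρ i => wP M N p ρ i) ρ i

/-- Continuity of the deviation (`continuous_int_gam` with `m1P_cont`). -/
theorem DDP_cont (b1 b2 c u : ℝ) (M N : ℕ) (p : PM M) : Continuous (DDP b1 b2 c u M N p) := by
  have hm := m1P_cont b1 b2 c u M N p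
  refine continuous_int_gam
    (fun x z => ∑ ρ, gw (vA b1 b2 c M N x) (Pen u N) z ρ *
      |dot z (wP M N p ρ) - m1P b1 b2 c u M N p x|) ?_ fun x0 => ?_
  · exact continuous_finsetSum _ fun ρ _ => (Cont_gw b1 b2 c u M N ρ).mul
      ((Cont_dw M N p ρ).sub (hm.comp continuous_fst)).abs
  · refine ⟨abs (abs (m1P b1 b2 c u M N p x0) + 1) + abs (∑ ρ, ∑ i, abs (wP M N p ρ i)), 1, ?_⟩
    have h1 : ContinuousAt (fun x : PM M → ℝ => |m1P b1 b2 c u M N p x|) x0 := hm.abs.continuousAt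
    filter_upwards [h1.eventually_lt_const
      (show |m1P b1 b2 c u M N p x0| < |m1P b1 b2 c u M N p x0| + 1 by linarith)] with x hx z
    refine Cont_lin z _ _ _ ?_
    refine abs_gw_sum_le _ _ _ _ _ fun ρ => ?_
    rw [abs_abs]
    refine (abs_sub _ _).trans ?_
    have h2 := abs_dot_le z (wP M N p ρ) _ fun i => Cont_le_sum (fun ρ i => wP M N p ρ i) ρ i
    linarith

/-- Continuity of the error on the cube (`sN N * x p ≠ 0`). -/
theorem gge_contOn (b1 b2 c u : ℝ) {M N : ℕ} (hN : 0 < N) (p : PM M) :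
    ContinuousOn (gge b1 b2 c u M N p) (Set.pi Set.univ (fun _ => Set.Icc (1 : ℝ) 2)) := by
  unfold gge
  refine ContinuousOn.add (ContinuousOn.div (DDP_cont b1 b2 c u M N p).continuousOn ?_ ?_)
    (((devP_cont b1 b2 c u M N).const_smul (2 * (M : ℝ))).continuousOn)
  · exact (continuous_const.mul (continuous_apply p)).continuousOn
  · intro x hx
    have h1 : (1 : ℝ) ≤ x p := (hx p (Set.mem_univ p)).1
    have h2 := one_le_sN hN
    positivity

end SKC
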