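import Pool.Agent.H.MP_08eaf3_pr.D.InstDef
import Pool.Agent.H.MP_08eaf3_pr.D.Abs3

/-!
Part D: the Ghirlanda-Guerra expressions of the perturbed pair system are bounded by `gge`.
-/

set_option autoImplicit false

open MeasureTheory ProbabilityTheory Filter Topology Matrix

namespace SKC

/-- The Ghirlanda-Guerra bound. Proof: `GA_gg_le` for the abstract system of `vA_eq_vt` (hypothesis `h0` from
`dot_wP_v0P`), `t = sN N * x p > 0` (`one_le_sN`), `κ = ((1 + u)/2)^p3`; by `dot_wP` and `mono3_Tv` its left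
side is `|RS.gg f l (mono3 ..)|` of the replica system `SP` (`RS.av_ofFeat`); by `DDP_eq` the first term of the
right side is `DDP / (sN N * x p)`; by `abs_Kp_self_sub_le` and monotonicity of the average
(`GA = RS.av (RS.ofFeat ..)`, `RS.av_mono`, `RS.av_const_mul`) the second is at most `2 M devP`. -/
theorem gg_le_gge (b1 b2 c : ℝ) {u : ℝ} (hu : |u| ≤ 1) {M N : ℕ} (hN : 0 < N) (x : PM M → ℝ)
    (p : PM M) (hx : 0 < x p) {n : ℕ} (f : (Fin n → Cfg (Fin 2) N) → ℝ) (hf : ∀ r, |f r| ≤ 1)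
    (l : Fin n) :
    |(SP b1 b2 c u M N x).gg f l (mono3 p.1 p.2.1 p.2.2)| ≤ gge b1 b2 c u M N p x := by
  classical
  have : Nonempty (Cfg (Fin 2) N) := ⟨fun _ _ => true⟩
  have ht : 0 < sN N * x p := mul_pos (lt_of_lt_of_le one_pos (one_le_sN hN)) hx
  have key := GA_gg_le (v0P b1 b2 c M N p x) (wP M N p) (Pen u N)
    (dot_wP_v0P b1 b2 c p x) f hf l (sN N * x p) ht (((1 + u) / 2) ^ (p.2.2 : ℕ))
  rw [← vA_eq_vt, ← DDP_eq] at key
  have hl : (SP b1 b2 c u M N x).gg f l (mono3 p.1 p.2.1 p.2.2) =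
      (n : ℝ) * GA (n := n + 1) (vA b1 b2 c M N x) (Pen u N)
        (fun r => f (fun j => r j.castSucc) *
          dot (wP M N p (r l.castSucc)) (wP M N p (r (Fin.last n)))) -
      GA (vA b1 b2 c M N x) (Pen u N) f *
        GA (n := 2) (vA b1 b2 c M N x) (Pen u N)
          (fun r => dot (wP M N p (r 0)) (wP M N p (r 1))) -
      ∑ j ∈ Finset.univ.erase l, GA (vA b1 b2 c M N x) (Pen u N)
        (fun r => f r * dot (wP M N p (r l)) (wP M N p (r j))) := by
    simp only [dot_wP, ← mono3_Tv]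
    rfl
  rw [hl]
  refine key.trans ?_
  unfold gge
  refine add_le_add le_rfl ?_
  have h1 : GA (n := 1) (vA b1 b2 c M N x) (Pen u N)
      (fun r => |dot (wP M N p (r 0)) (wP M N p (r 0)) - ((1 + u) / 2) ^ (p.2.2 : ℕ)|) ≤
      (M : ℝ) * devP b1 b2 c u M N x := by
    have h2 : (RS.ofFeat (vA b1 b2 c M N x) (Pen u N)).av (n := 1)
        (fun r => |dot (wP M N p (r 0)) (wP M N p (r 0)) - ((1 + u) / 2) ^ (p.2.2 : ℕ)|) ≤
        (RS.ofFeat (vA b1 b2 c M N x) (Pen u N)).av (n := 1)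
          (fun r => (M : ℝ) * |ovM (r 0) (r 0) 0 1 - u|) := by
      refine RS.av_mono _ _ _ ?_
      intro r
      rw [dot_wP]
      exact abs_Kp_self_sub_le hN p u hu (r 0)
    rw [RS.av_const_mul] at h2
    exact h2
  have h3 : 2 * ((M : ℝ) * devP b1 b2 c u M N x) = 2 * M * devP b1 b2 c u M N x := by ring
  rw [← h3]
  exact mul_le_mul_of_nonneg_left h1 (by norm_num)

end SKC
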