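import Pool.Agent.H.MP_08eaf3_pr.Sys

/-!
Part D: the law `muX` of the parameters.
-/

set_option autoImplicit false

open MeasureTheory ProbabilityTheory Filter Topology Matrix

namespace SKC

/-- the uniform law on `[1,2]` is a probability measure -/
theorem prob_Icc : IsProbabilityMeasure ((volume : Measure ℝ).restrict (Set.Icc 1 2)) := by
  refine ⟨?_⟩
  rw [Measure.restrict_apply_univ, Real.volume_Icc]
  norm_num

/-- `muX` is a probability measure -/
theorem prob_muX (M : ℕ) : IsProbabilityMeasure (muX M) := by
  have := prob_Icc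
  unfold muX
  infer_instance

theorem MuX_eq (M : ℕ) : muX M = (volume : Measure (PM M → ℝ)).restrict
    (Set.pi Set.univ (fun _ => Set.Icc (1 : ℝ) 2)) := by
  unfold muX
  rw [volume_pi, Measure.restrict_pi_pi]

/-- `muX` is concentrated on the cube. Proof: `Measure.restrict_pi_pi`, or `ae_all_iff` and
`Measure.ae_eval_ne`-type lemmas (`Measure.quasiMeasurePreserving_eval`, `ae_restrict_mem`). -/
theorem ae_mem_cube (M : ℕ) : ∀ᵐ x ∂(muX M), ∀ p, x p ∈ Set.Icc (1 : ℝ) 2 := by
  rw [MuX_eq]
  have hm : MeasurableSet (Set.pi Set.univ (fun _ : PM M => Set.Icc (1 : ℝ) 2)) :=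
    MeasurableSet.univ_pi fun _ => measurableSet_Icc
  filter_upwards [ae_restrict_mem hm] with x hx p
  exact hx p (Set.mem_univ p)

/-- Functions continuous on the cube are integrable. Proof: `muX M = volume.restrict (cube)`
(`Measure.restrict_pi_pi`, `volume_pi`), the cube is compact (`isCompact_univ_pi`),
`ContinuousOn.integrableOn_compact`. -/
theorem integrable_muX {M : ℕ} {f : (PM M → ℝ) → ℝ}
    (hf : ContinuousOn f (Set.pi Set.univ (fun _ => Set.Icc (1 : ℝ) 2))) :
    Integrable f (muX M) := by
  rw [MuX_eq]
  exact hf.integrableOn_compact (isCompact_univ_pi fun _ => isCompact_Icc)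

theorem MuX_meas {M : ℕ} (p : PM M) :
    Measurable (fun q : (PM M → ℝ) × ℝ => Function.update q.1 p q.2) := by
  refine measurable_pi_iff.2 fun i => ?_
  by_cases h : i = p
  · subst h
    simp only [Function.update_self]
    exact measurable_snd
  · simp only [Function.update_of_ne h]
    exact (measurable_pi_apply i).comp measurable_fst

theorem MuX_map {M : ℕ} (p : PM M) :
    ((muX M).prod ((volume : Measure ℝ).restrict (Set.Icc 1 2))).map
      (fun q : (PM M → ℝ) × ℝ => Function.update q.1 p q.2) = muX M := by
  have := prob_Icc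
  have := prob_muX M
  symm
  conv_lhs => unfold muX
  refine Measure.pi_eq fun s hs => ?_
  rw [Measure.map_apply (MuX_meas p) (MeasurableSet.univ_pi hs)]
  have h1 : (fun q : (PM M → ℝ) × ℝ => Function.update q.1 p q.2) ⁻¹' (Set.pi Set.univ s) =
      (Set.pi Set.univ (Function.update s p Set.univ)) ×ˢ (s p) := by
    ext ⟨x, y⟩
    simp only [Set.mem_preimage, Set.mem_pi, Set.mem_univ, true_implies, Set.mem_prod]
    constructor
    · intro h
      refine ⟨fun i => ?_, ?_⟩
      · by_cases hi : i = p
        · subst hi
          rw [Function.update_self]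
          exact Set.mem_univ _
        · have h2 := h i
          rw [Function.update_of_ne hi] at h2 ⊢
          exact h2
      · have h2 := h p
        rwa [Function.update_self] at h2
    · rintro ⟨h, h'⟩ i
      by_cases hi : i = p
      · subst hi
        rw [Function.update_self]
        exact h'
      · have h2 := h i
        rw [Function.update_of_ne hi] at h2 ⊢
        exact h2
  rw [h1, Measure.prod_prod]
  unfold muX
  rw [Measure.pi_pi]
  rw [← Finset.mul_prod_erase Finset.univ _ (Finset.mem_univ p),
    ← Finset.mul_prod_erase Finset.univ (fun i => ((volume : Measure ℝ).restrict (Set.Icc 1 2)) (s i))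
      (Finset.mem_univ p)]
  rw [Function.update_self, measure_univ, one_mul, mul_comm]
  congr 1
  refine Finset.prod_congr rfl fun i hi => ?_
  rw [Function.update_of_ne (Finset.ne_of_mem_erase hi)]

/-- Resampling one coordinate preserves a product of equal probability measures.
Proof: the map `(x, y) ↦ Function.update x p y` is measurable and sends `μ.prod ν`, `μ = Measure.pi ν`, to `μ`
(`Measure.pi_eq`: the preimage of the box `∏ s i` is the product of the box with `s p` replaced by `univ` and of
`s p`; `ν univ = 1`). Then `integral_map` and `integral_prod`. Use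
`intervalIntegral.integral_of_le` and `integral_Icc_eq_integral_Ioc` for the inner integral. -/
theorem int_update {M : ℕ} (p : PM M) {f : (PM M → ℝ) → ℝ} (hf : Integrable f (muX M)) :
    ∫ x, f x ∂(muX M) = ∫ x, (∫ y in (1 : ℝ)..2, f (Function.update x p y)) ∂(muX M) := by
  have := prob_Icc
  have := prob_muX M
  have hmap := MuX_map p
  have hm := MuX_meas p
  have hf' : Integrable f (((muX M).prod ((volume : Measure ℝ).restrict (Set.Icc 1 2))).map
      (fun q : (PM M → ℝ) × ℝ => Function.update q.1 p q.2)) := by
    rw [hmap]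
    exact hf
  have hint : Integrable (fun q : (PM M → ℝ) × ℝ => f (Function.update q.1 p q.2))
      ((muX M).prod ((volume : Measure ℝ).restrict (Set.Icc 1 2))) :=
    (integrable_map_measure hf'.aestronglyMeasurable hm.aemeasurable).1 hf'
  calc ∫ x, f x ∂(muX M)
      = ∫ x, f x ∂(((muX M).prod ((volume : Measure ℝ).restrict (Set.Icc 1 2))).map
          (fun q : (PM M → ℝ) × ℝ => Function.update q.1 p q.2)) := by rw [hmap]
    _ = ∫ q : (PM M → ℝ) × ℝ, f (Function.update q.1 p q.2)
          ∂((muX M).prod ((volume : Measure ℝ).restrict (Set.Icc 1 2))) :=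
        integral_map hm.aemeasurable hf'.aestronglyMeasurable
    _ = ∫ x, (∫ y, f (Function.update x p y) ∂((volume : Measure ℝ).restrict (Set.Icc 1 2)))
          ∂(muX M) := integral_prod _ hint
    _ = ∫ x, (∫ y in (1 : ℝ)..2, f (Function.update x p y)) ∂(muX M) := by
        refine integral_congr_ae (Filter.Eventually.of_forall fun x => ?_)
        beta_reduce
        rw [intervalIntegral.integral_of_le (by norm_num), integral_Icc_eq_integral_Ioc]

/-- Monotone bound: if `f` is integrable, and at most `C` on the cube, its integral is at most `C`. -/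
theorem int_muX_le {M : ℕ} {f : (PM M → ℝ) → ℝ} (hf : Integrable f (muX M)) (C : ℝ)
    (h : ∀ x : PM M → ℝ, (∀ p, x p ∈ Set.Icc (1 : ℝ) 2) → f x ≤ C) : ∫ x, f x ∂(muX M) ≤ C := by
  have := prob_muX M
  have h1 : ∫ x, f x ∂(muX M) ≤ ∫ _x, C ∂(muX M) := by
    refine integral_mono_ae hf (integrable_const C) ?_
    filter_upwards [ae_mem_cube M] with x hx
    exact h x hx
  simpa using h1

/-- Selection: if the integral of `f` is at most `C` then `f x ≤ C` for some `x` in the cube
(`MeasureTheory.exists_le_integral` for the probability measure, on the set of full measure `ae_mem_cube`). -/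
theorem exists_cube_le {M : ℕ} {f : (PM M → ℝ) → ℝ} (hf : Integrable f (muX M)) (C : ℝ)
    (h : ∫ x, f x ∂(muX M) ≤ C) : ∃ x : PM M → ℝ, (∀ p, x p ∈ Set.Icc (1 : ℝ) 2) ∧ f x ≤ C := by
  have := prob_muX M
  obtain ⟨x, hx, hfx⟩ := exists_notMem_null_le_integral hf (ae_iff.1 (ae_mem_cube M))
  refine ⟨x, ?_, hfx.trans h⟩
  by_contra hcon
  exact hx hcon

end SKC
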