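import Pool.Agent.H.MP_08eaf3_pr.D.Cont
import Pool.Agent.H.MP_08eaf3_pr.D.MuX
import Pool.Agent.H.MP_08eaf3_pr.D.Abs6

/-!
Part D: the mean of the Ghirlanda-Guerra error over the parameters.
-/

set_option autoImplicit false

open MeasureTheory ProbabilityTheory Filter Topology Matrix

namespace SKC

/-- -/
theorem Inst2_sqrt {K : ℝ} (hK : 0 ≤ K) {N : ℕ} (hN : 0 < N) :
    Real.sqrt (K * N) / (N : ℝ) ^ (1 / 4 : ℝ) = Real.sqrt K * (N : ℝ) ^ (1 / 4 : ℝ) := by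
  have hN0 : (0 : ℝ) < N := by exact_mod_cast hN
  have hh : 0 < (N : ℝ) ^ (1 / 4 : ℝ) := Real.rpow_pos_of_pos hN0 _
  have h1 : Real.sqrt (N : ℝ) = (N : ℝ) ^ (1 / 4 : ℝ) * (N : ℝ) ^ (1 / 4 : ℝ) := by
    rw [Real.sqrt_eq_rpow, ← Real.rpow_add hN0]
    norm_num
  rw [Real.sqrt_mul hK, h1]
  field_simp

/-- -/
theorem Inst2_vt (b1 b2 c : ℝ) (M N : ℕ) (p : PM M) (x : PM M → ℝ) (y : ℝ) :
    vt (v0P b1 b2 c M N p x) (wP M N p) (sN N * y) =
      vA b1 b2 c M N (Function.update x p y) := by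
  rw [vA_eq_vt b1 b2 c M N p (Function.update x p y), v0P_update, Function.update_self]

/-- -/
theorem Inst2_div {N : ℕ} (hN : 0 < N) :
    (N : ℝ) ^ (1 / 4 : ℝ) / sN N = (N : ℝ) ^ (-(1 / 8) : ℝ) := by
  have hN0 : (0 : ℝ) < N := by exact_mod_cast hN
  unfold sN
  rw [← Real.rpow_sub hN0]
  norm_num

/-- -/
theorem Inst2_cont {M : ℕ} (p : PM M) {f : (PM M → ℝ) → ℝ} (hf : Continuous f) :
    Continuous (fun x : PM M → ℝ => ∫ y in (1 : ℝ)..2, f (Function.update x p y)) := by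
  apply intervalIntegral.continuous_parametric_intervalIntegral_of_continuous'
  exact hf.comp (continuous_fst.update p continuous_snd)

/-- Average of the deviation over the parameter `x p`. Proof: `DDP_update`, `int_aDD_le` with `s = sN N`,
`h = N^(1/4)` (`1 ≤ h ≤ s` for `N ≥ 1`, `Real.rpow_le_rpow_of_exponent_le`), `h0` from `dot_wP_v0P`, `h1` from
`dot_wP` and `abs_Kp_le`, and
`V = ((b1+b2)^2 + 9 (M+1)^3) N`: for `t = s y'` with `0 ≤ y' ≤ 3` the features `vt .. t` are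
`vA (Function.update x p y')` (`vA_eq_vt`, `v0P_update`), with parameters bounded by `3`, `dot_vA_self_le`.
`√V / h = √((b1+b2)^2 + 9 (M+1)^3) * N^(1/4)`. -/
theorem int_DDP_coord {b1 b2 c : ℝ} (hb1 : 0 ≤ b1) (hb2 : 0 ≤ b2) (hc : |c| ≤ 1) (u : ℝ)
    {M N : ℕ} (hN : 0 < N) (p : PM M) (x : PM M → ℝ) (hx : ∀ q, x q ∈ Set.Icc (1 : ℝ) 2) :
    ∫ y in (1 : ℝ)..2, DDP b1 b2 c u M N p (Function.update x p y) ≤
      3 + (16 + 3 * Real.sqrt ((b1 + b2) ^ 2 + 9 * ((M : ℝ) + 1) ^ 3)) * (N : ℝ) ^ (1 / 4 : ℝ) := by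
  have hs1 := one_le_sN hN
  have hs0 : 0 < sN N := by linarith
  have hN1 : (1 : ℝ) ≤ N := by exact_mod_cast hN
  have hN0 : (0 : ℝ) < N := by linarith
  have hK0 : 0 ≤ (b1 + b2) ^ 2 + 9 * ((M : ℝ) + 1) ^ 3 := by positivity
  have hh : 0 < (N : ℝ) ^ (1 / 4 : ℝ) := Real.rpow_pos_of_pos hN0 _
  have hhs : (N : ℝ) ^ (1 / 4 : ℝ) ≤ sN N :=
    Real.rpow_le_rpow_of_exponent_le hN1 (by norm_num)
  have h := int_aDD_le (v0P b1 b2 c M N p x) (wP M N p) (Pen u N)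
    (fun ρ ρ' => dot_wP_v0P b1 b2 c p x ρ ρ')
    (fun ρ ρ' => by rw [dot_wP]; exact abs_Kp_le p ρ ρ') (sN N) ((N : ℝ) ^ (1 / 4 : ℝ))
    (((b1 + b2) ^ 2 + 9 * ((M : ℝ) + 1) ^ 3) * N) hh hhs (by
      intro t ht ρ
      have ht2 : t = sN N * (t / sN N) := by field_simp
      rw [ht2, Inst2_vt]
      have h1 := dot_vA_self_le hb1 hb2 hc (M := M) (N := N)
        (Function.update x p (t / sN N)) 3 (by
          intro q
          by_cases hq : q = p
          · subst hq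
            rw [Function.update_self, abs_le]
            constructor
            · have : 0 ≤ t / sN N := div_nonneg ht.1 hs0.le
              linarith
            · rw [div_le_iff₀ hs0]
              exact ht.2
          · rw [Function.update_of_ne hq, abs_le]
            constructor <;> linarith [(hx q).1, (hx q).2]) ρ
      have h2 : (3 : ℝ) ^ 2 = 9 := by norm_num
      rw [h2] at h1
      exact h1)
  simp only [DDP_update]
  rw [mul_div_assoc, Inst2_sqrt hK0 hN] at h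
  linarith

/-- The mean error. Proof: on the cube `gge ≤ DDP / sN N + 2 M B` (`x p ≥ 1`, `DDP_nonneg`), all functions are
integrable (`integrable_muX`, `gge_contOn`, `DDP_cont`); `int_update` and `int_DDP_coord` (`int_muX_le`) bound
`∫ DDP`; `3 ≤ 3 N^(1/4)`, `N^(1/4) / N^(3/8) = N^(-1/8)`. -/
theorem int_gge_le {b1 b2 c : ℝ} (hb1 : 0 ≤ b1) (hb2 : 0 ≤ b2) (hc : |c| ≤ 1) (u : ℝ)
    {M N : ℕ} (hN : 0 < N) (p : PM M) (B : ℝ)
    (hB : ∀ x : PM M → ℝ, (∀ q, x q ∈ Set.Icc (1 : ℝ) 2) → devP b1 b2 c u M N x ≤ B) :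
    ∫ x, gge b1 b2 c u M N p x ∂(muX M) ≤
      (19 + 3 * Real.sqrt ((b1 + b2) ^ 2 + 9 * ((M : ℝ) + 1) ^ 3)) * (N : ℝ) ^ (-(1 / 8) : ℝ) +
        2 * M * B := by
  have hs1 := one_le_sN hN
  have hs0 : 0 < sN N := by linarith
  have hN1 : (1 : ℝ) ≤ N := by exact_mod_cast hN
  have hN0 : (0 : ℝ) < N := by linarith
  have hprob := prob_muX M
  have hh1 : 1 ≤ (N : ℝ) ^ (1 / 4 : ℝ) := Real.one_le_rpow hN1 (by norm_num)
  have hDi : Integrable (DDP b1 b2 c u M N p) (muX M) :=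
    integrable_muX (DDP_cont b1 b2 c u M N p).continuousOn
  have h1 : ∫ x, DDP b1 b2 c u M N p x ∂(muX M) ≤
      (19 + 3 * Real.sqrt ((b1 + b2) ^ 2 + 9 * ((M : ℝ) + 1) ^ 3)) * (N : ℝ) ^ (1 / 4 : ℝ) := by
    rw [int_update p hDi]
    have h2 := int_muX_le (M := M)
      (integrable_muX (Inst2_cont p (DDP_cont b1 b2 c u M N p)).continuousOn)
      (3 + (16 + 3 * Real.sqrt ((b1 + b2) ^ 2 + 9 * ((M : ℝ) + 1) ^ 3)) * (N : ℝ) ^ (1 / 4 : ℝ))
      (fun x hx => int_DDP_coord hb1 hb2 hc u hN p x hx)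
    linarith
  have h3 : ∫ x, gge b1 b2 c u M N p x ∂(muX M) ≤
      ∫ x, (DDP b1 b2 c u M N p x / sN N + 2 * M * B) ∂(muX M) := by
    apply integral_mono_ae (integrable_muX (gge_contOn b1 b2 c u hN p))
      ((hDi.div_const _).add (integrable_const _))
    filter_upwards [ae_mem_cube M] with x hx
    unfold gge
    have h4 : DDP b1 b2 c u M N p x / (sN N * x p) ≤ DDP b1 b2 c u M N p x / sN N := by
      apply div_le_div_of_nonneg_left (DDP_nonneg b1 b2 c u M N p x) hs0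
      have h5 := (hx p).1
      nlinarith
    have h6 : 2 * (M : ℝ) * devP b1 b2 c u M N x ≤ 2 * M * B :=
      mul_le_mul_of_nonneg_left (hB x hx) (by positivity)
    exact add_le_add h4 h6
  rw [integral_add (hDi.div_const _) (integrable_const _), integral_div, integral_const] at h3
  have h7 : (∫ x, DDP b1 b2 c u M N p x ∂(muX M)) / sN N ≤
      (19 + 3 * Real.sqrt ((b1 + b2) ^ 2 + 9 * ((M : ℝ) + 1) ^ 3)) *
        (N : ℝ) ^ (-(1 / 8) : ℝ) := by
    rw [← Inst2_div hN, ← mul_div_assoc]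
    exact div_le_div_of_nonneg_right h1 hs0.le
  have h8 : (muX M).real Set.univ • (2 * (M : ℝ) * B) = 2 * M * B := by
    rw [probReal_univ, one_smul]
  rw [h8] at h3
  linarith

end SKC
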