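import Pool.Agent.H.MP_08eaf3_pr.Sys.Ov
import Pool.Agent.H.MP_08eaf3_pr.H.PkA

/-!
Part D: kernels of the Hamiltonian and of one perturbation term (proved in part H).
-/

set_option autoImplicit false

open MeasureTheory ProbabilityTheory Filter Topology Matrix

namespace SKC

/-- The kernel of the features `vp N p` is `Kp p` (part H). -/
theorem dot_vp {M N : ℕ} (p : PM M) (ρ ρ' : Cfg (Fin 2) N) :
    dot (vp N p ρ) (vp N p ρ') = Kp p (ovM ρ ρ') :=
  H.dot_vp N p ρ ρ'

/-- The kernel of the Hamiltonian (part H). -/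
theorem dot_vH {K : Type} [Fintype K] (β : K → ℝ) {N : ℕ} (ρ ρ' : Cfg K N) :
    dot (vH β N ρ) (vH β N ρ') = (N : ℝ) * Cf β (fun c c' => ov ρ ρ' c c') :=
  H.dot_vH β N ρ ρ'

end SKC
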