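import Pool.Agent.H.MP_08eaf3_pr.Sys.Ov
import Pool.Agent.H.MP_08eaf3_pr.D.Ker1

/-!
Part D: kernels of the Hamiltonian and of the perturbation.
-/

set_option autoImplicit false

open MeasureTheory ProbabilityTheory Filter Topology Matrix

namespace SKC

theorem Ker_pow_sub {a b : ℝ} (ha : |a| ≤ 1) (hb : |b| ≤ 1) (k : ℕ) :
    |a ^ k - b ^ k| ≤ k * |a - b| := by
  induction k with
  | zero => simp
  | succ k ih =>
    have e : a ^ (k + 1) - b ^ (k + 1) = a * (a ^ k - b ^ k) + (a - b) * b ^ k := by ring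
    rw [e]
    refine (abs_add_le _ _).trans ?_
    rw [abs_mul, abs_mul, abs_pow]
    have h1 : |b| ^ k ≤ 1 := pow_le_one₀ (abs_nonneg _) hb
    have h2 : |a| * |a ^ k - b ^ k| ≤ 1 * (k * |a - b|) :=
      mul_le_mul ha ih (abs_nonneg _) zero_le_one
    have h3 : |a - b| * |b| ^ k ≤ |a - b| * 1 := mul_le_mul_of_nonneg_left h1 (abs_nonneg _)
    push_cast
    linarith

/-- The kernel is bounded by one. Proof: the entries of the overlap matrix are bounded by one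
(`abs_ovM_le`), also the mean of the four entries; a product of powers of numbers of absolute value at most
one. -/
theorem abs_Kp_le {M N : ℕ} (p : PM M) (ρ ρ' : Cfg (Fin 2) N) : |Kp p (ovM ρ ρ')| ≤ 1 := by
  have h00 := abs_ovM_le ρ ρ' 0 0
  have h01 := abs_ovM_le ρ ρ' 0 1
  have h10 := abs_ovM_le ρ ρ' 1 0
  have h11 := abs_ovM_le ρ ρ' 1 1
  unfold Kp
  rw [abs_mul, abs_mul, abs_pow, abs_pow, abs_pow]
  have h4 : |(ovM ρ ρ' 0 0 + ovM ρ ρ' 0 1 + ovM ρ ρ' 1 0 + ovM ρ ρ' 1 1) / 4| ≤ 1 := by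
    rw [abs_le] at h00 h01 h10 h11 ⊢
    constructor <;> linarith [h00.1, h00.2, h01.1, h01.2, h10.1, h10.2, h11.1, h11.2]
  have g1 : |ovM ρ ρ' 0 0| ^ (p.1 : ℕ) ≤ 1 := pow_le_one₀ (abs_nonneg _) h00
  have g2 : |ovM ρ ρ' 1 1| ^ (p.2.1 : ℕ) ≤ 1 := pow_le_one₀ (abs_nonneg _) h11
  have g3 : |(ovM ρ ρ' 0 0 + ovM ρ ρ' 0 1 + ovM ρ ρ' 1 0 + ovM ρ ρ' 1 1) / 4| ^ (p.2.2 : ℕ) ≤ 1 :=
    pow_le_one₀ (abs_nonneg _) h4
  exact mul_le_one₀ (mul_le_one₀ g1 (by positivity) g2) (by positivity) g3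

/-- The kernel of the perturbation. Proof: sum over the sigma type (`Fintype.sum_sigma`), `dot_vp`. -/
theorem dot_vP {M N : ℕ} (x : PM M → ℝ) (ρ ρ' : Cfg (Fin 2) N) :
    dot (vP M N x ρ) (vP M N x ρ') = sN N ^ 2 * ∑ p, x p ^ 2 * Kp p (ovM ρ ρ') := by
  unfold dot vP
  rw [Fintype.sum_sigma, Finset.mul_sum]
  refine Finset.sum_congr rfl fun p _ => ?_
  rw [← dot_vp]
  unfold dot
  rw [Finset.mul_sum, Finset.mul_sum]
  exact Finset.sum_congr rfl fun i _ => by ring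

/-- Square of the scale. Proof: `Real.rpow_natCast`, `Real.rpow_mul`. -/
theorem sN_sq (N : ℕ) : sN N ^ 2 = (N : ℝ) ^ (3 / 4 : ℝ) := by
  unfold sN
  rw [← Real.rpow_natCast, ← Real.rpow_mul (Nat.cast_nonneg N)]
  norm_num

/-- bounds of the scale -/
theorem sN_nonneg (N : ℕ) : 0 ≤ sN N := by
  unfold sN
  exact Real.rpow_nonneg (Nat.cast_nonneg N) _

/-- bounds of the scale -/
theorem one_le_sN {N : ℕ} (hN : 0 < N) : 1 ≤ sN N := by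
  unfold sN
  exact Real.one_le_rpow (by exact_mod_cast hN) (by norm_num)

/-- The square of the scale is at most `N`: `N^(3/4) ≤ N` for `N ≥ 1`, and `0 ≤ 0` for `N = 0`. -/
theorem sN_sq_le (N : ℕ) : sN N ^ 2 ≤ (N : ℝ) := by
  rw [sN_sq]
  rcases Nat.eq_zero_or_pos N with h | h
  · subst h
    rw [Nat.cast_zero, Real.zero_rpow (by norm_num)]
  · have h1 : (1 : ℝ) ≤ N := by exact_mod_cast h
    calc (N : ℝ) ^ (3 / 4 : ℝ) ≤ (N : ℝ) ^ (1 : ℝ) :=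
          Real.rpow_le_rpow_of_exponent_le h1 (by norm_num)
      _ = N := Real.rpow_one _

/-- Bound of the kernel of the perturbation for parameters bounded by `B`:
`card (PM M) = (M+1)^3`. -/
theorem abs_dot_vP_le {M N : ℕ} (x : PM M → ℝ) (B : ℝ) (hx : ∀ p, |x p| ≤ B) (ρ ρ' : Cfg (Fin 2) N) :
    |dot (vP M N x ρ) (vP M N x ρ')| ≤ B ^ 2 * ((M : ℝ) + 1) ^ 3 * sN N ^ 2 := by
  rw [dot_vP, abs_mul, abs_of_nonneg (sq_nonneg (sN N))]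
  have h1 : |∑ p, x p ^ 2 * Kp p (ovM ρ ρ')| ≤ B ^ 2 * ((M : ℝ) + 1) ^ 3 := by
    refine (Finset.abs_sum_le_sum_abs _ _).trans ?_
    have h2 : ∀ p ∈ (Finset.univ : Finset (PM M)), |x p ^ 2 * Kp p (ovM ρ ρ')| ≤ B ^ 2 := by
      intro p _
      rw [abs_mul, abs_pow]
      have h3 : |x p| ^ 2 ≤ B ^ 2 := pow_le_pow_left₀ (abs_nonneg _) (hx p) 2
      calc |x p| ^ 2 * |Kp p (ovM ρ ρ')| ≤ B ^ 2 * 1 :=
            mul_le_mul h3 (abs_Kp_le p ρ ρ') (abs_nonneg _) (sq_nonneg _)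
        _ = B ^ 2 := mul_one _
    refine (Finset.sum_le_sum h2).trans (le_of_eq ?_)
    rw [Finset.sum_const, Finset.card_univ, Fintype.card_prod, Fintype.card_prod, Fintype.card_fin,
      nsmul_eq_mul]
    push_cast
    ring
  calc sN N ^ 2 * |∑ p, x p ^ 2 * Kp p (ovM ρ ρ')| ≤ sN N ^ 2 * (B ^ 2 * ((M : ℝ) + 1) ^ 3) :=
        mul_le_mul_of_nonneg_left h1 (sq_nonneg _)
    _ = B ^ 2 * ((M : ℝ) + 1) ^ 3 * sN N ^ 2 := by ring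

/-- The kernel of all features. Proof: sum over the sum type, `dot_vH`, `dot_vP`. -/
theorem dot_vA (b1 b2 c : ℝ) {M N : ℕ} (x : PM M → ℝ) (ρ ρ' : Cfg (Fin 2) N) :
    dot (vA b1 b2 c M N x ρ) (vA b1 b2 c M N x ρ') =
      c ^ 2 * ((N : ℝ) * Cf (be b1 b2) (ovM ρ ρ')) + sN N ^ 2 * ∑ p, x p ^ 2 * Kp p (ovM ρ ρ') := by
  rw [← dot_vP]
  have h1 : dot (vH (be b1 b2) N ρ) (vH (be b1 b2) N ρ') = (N : ℝ) * Cf (be b1 b2) (ovM ρ ρ') :=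
    dot_vH (be b1 b2) ρ ρ'
  rw [← h1]
  unfold dot vA
  rw [Fintype.sum_sum_type]
  simp only [Sum.elim_inl, Sum.elim_inr]
  rw [Finset.mul_sum]
  congr 1
  exact Finset.sum_congr rfl fun q _ => by ring

/-- Bound of `C(R)` by `(b1 + b2)^2` when the inverse temperatures are nonnegative and the entries are bounded
by one. -/
theorem Cf_be_le {b1 b2 : ℝ} (hb1 : 0 ≤ b1) (hb2 : 0 ≤ b2) {N : ℕ} (ρ ρ' : Cfg (Fin 2) N) :
    Cf (be b1 b2) (ovM ρ ρ') ≤ (b1 + b2) ^ 2 := by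
  have h : ∀ c c', ovM ρ ρ' c c' ^ 2 ≤ 1 := by
    intro c c'
    rw [← sq_abs]
    exact pow_le_one₀ (abs_nonneg _) (abs_ovM_le ρ ρ' c c')
  unfold Cf be
  simp only [Fin.sum_univ_two, Matrix.cons_val_zero, Matrix.cons_val_one]
  have h1 := mul_le_mul_of_nonneg_left (h 0 0) (mul_nonneg hb1 hb1)
  have h2 := mul_le_mul_of_nonneg_left (h 0 1) (mul_nonneg hb1 hb2)
  have h3 := mul_le_mul_of_nonneg_left (h 1 0) (mul_nonneg hb2 hb1)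
  have h4 := mul_le_mul_of_nonneg_left (h 1 1) (mul_nonneg hb2 hb2)
  nlinarith

/-- Variance parameter of the whole system, for parameters bounded by `B`. Proof: `dot_vA`, `Cf_be_le`,
`abs_Kp_le`, `sN_sq_le`. -/
theorem dot_vA_self_le {b1 b2 c : ℝ} (hb1 : 0 ≤ b1) (hb2 : 0 ≤ b2) (hc : |c| ≤ 1) {M N : ℕ}
    (x : PM M → ℝ) (B : ℝ) (hx : ∀ p, |x p| ≤ B) (ρ : Cfg (Fin 2) N) :
    dot (vA b1 b2 c M N x ρ) (vA b1 b2 c M N x ρ) ≤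
      ((b1 + b2) ^ 2 + B ^ 2 * ((M : ℝ) + 1) ^ 3) * N := by
  rw [dot_vA, ← dot_vP]
  have h1 := (le_abs_self _).trans (abs_dot_vP_le x B hx ρ ρ)
  have h2 := Cf_be_le hb1 hb2 ρ ρ
  have h3 : c ^ 2 ≤ 1 := by
    rw [← sq_abs]
    exact pow_le_one₀ (abs_nonneg _) hc
  have hN : (0 : ℝ) ≤ N := Nat.cast_nonneg N
  have h4 : c ^ 2 * ((N : ℝ) * Cf (be b1 b2) (ovM ρ ρ)) ≤ (b1 + b2) ^ 2 * N := by
    have h5 : (N : ℝ) * Cf (be b1 b2) (ovM ρ ρ) ≤ N * (b1 + b2) ^ 2 :=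
      mul_le_mul_of_nonneg_left h2 hN
    calc c ^ 2 * ((N : ℝ) * Cf (be b1 b2) (ovM ρ ρ)) ≤ c ^ 2 * (N * (b1 + b2) ^ 2) :=
          mul_le_mul_of_nonneg_left h5 (sq_nonneg _)
      _ ≤ 1 * (N * (b1 + b2) ^ 2) := mul_le_mul_of_nonneg_right h3 (by positivity)
      _ = (b1 + b2) ^ 2 * N := by ring
  have h6 : B ^ 2 * ((M : ℝ) + 1) ^ 3 * sN N ^ 2 ≤ B ^ 2 * ((M : ℝ) + 1) ^ 3 * N :=
    mul_le_mul_of_nonneg_left (sN_sq_le N) (by positivity)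
  calc c ^ 2 * ((N : ℝ) * Cf (be b1 b2) (ovM ρ ρ)) + dot (vP M N x ρ) (vP M N x ρ)
      ≤ (b1 + b2) ^ 2 * N + B ^ 2 * ((M : ℝ) + 1) ^ 3 * N := add_le_add h4 (h1.trans h6)
    _ = ((b1 + b2) ^ 2 + B ^ 2 * ((M : ℝ) + 1) ^ 3) * N := by ring

/-- Dependence of the self-kernel on `R01`. Proof: `ovM ρ ρ 0 0 = ovM ρ ρ 1 1 = 1` (`ovM_self`) and
`ovM ρ ρ 1 0 = ovM ρ ρ 0 1` (`ovM_swap`), so `Kp p (ovM ρ ρ) = ((1 + R01)/2)^p3`; for numbers `a, b` of absolute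
value at most one `|a^k - b^k| ≤ k |a - b|`; `p3 ≤ M`. -/
theorem abs_Kp_self_sub_le {M N : ℕ} (hN : 0 < N) (p : PM M) (u : ℝ) (hu : |u| ≤ 1)
    (ρ : Cfg (Fin 2) N) :
    |Kp p (ovM ρ ρ) - ((1 + u) / 2) ^ (p.2.2 : ℕ)| ≤ (M : ℝ) * |ovM ρ ρ 0 1 - u| := by
  have h00 := ovM_self hN ρ 0
  have h11 := ovM_self hN ρ 1
  have h10 := ovM_swap ρ ρ 1 0
  have hR := abs_ovM_le ρ ρ 0 1
  have e1 : Kp p (ovM ρ ρ) = ((1 + ovM ρ ρ 0 1) / 2) ^ (p.2.2 : ℕ) := by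
    unfold Kp
    rw [h00, h11, h10, one_pow, one_pow, one_mul, one_mul]
    congr 1
    ring
  rw [e1]
  have ha : |(1 + ovM ρ ρ 0 1) / 2| ≤ 1 := by
    rw [abs_le] at hR ⊢
    constructor <;> linarith [hR.1, hR.2]
  have hb : |(1 + u) / 2| ≤ 1 := by
    rw [abs_le] at hu ⊢
    constructor <;> linarith [hu.1, hu.2]
  refine (Ker_pow_sub ha hb _).trans ?_
  have e2 : (1 + ovM ρ ρ 0 1) / 2 - (1 + u) / 2 = (ovM ρ ρ 0 1 - u) / 2 := by ring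
  rw [e2, abs_div, abs_of_pos (by norm_num : (0 : ℝ) < 2)]
  have h3 : ((p.2.2 : ℕ) : ℝ) ≤ M := by
    have : (p.2.2 : ℕ) ≤ M := Nat.lt_succ_iff.1 p.2.2.2
    exact_mod_cast this
  have h4 : (0 : ℝ) ≤ |ovM ρ ρ 0 1 - u| := abs_nonneg _
  have h5 : (0 : ℝ) ≤ ((p.2.2 : ℕ) : ℝ) := Nat.cast_nonneg _
  have h6 := mul_le_mul_of_nonneg_right h3 h4
  have h7 := mul_nonneg h5 h4
  linarith

end SKC
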