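import Pool.Agent.H.MP_08eaf3_pr.D.AbsDef
import Pool.Agent.H.MP_08eaf3_pr.D.Ker
import Pool.Agent.H.MP_08eaf3_pr.Sys.Feat

/-!
Part D: the perturbed pair system as an instance of the abstract one-parameter perturbation; the
Ghirlanda-Guerra error `gge`.
-/

set_option autoImplicit false

open MeasureTheory ProbabilityTheory Filter Topology Matrix

namespace SKC

/-- features of the kernel `p` inside the space of all features -/
noncomputable def wP (M N : ℕ) (p : PM M) (ρ : Cfg (Fin 2) N) : (Fin N × Fin N) ⊕ IP M N → ℝ :=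
  Sum.elim (fun _ => 0) (fun q => if q.1 = p then vp N q.1 ρ q.2 else 0)

/-- all features, with the parameter `x p` replaced by zero -/
noncomputable def v0P (b1 b2 c : ℝ) (M N : ℕ) (p : PM M) (x : PM M → ℝ) (ρ : Cfg (Fin 2) N) :
    (Fin N × Fin N) ⊕ IP M N → ℝ :=
  vA b1 b2 c M N (Function.update x p 0) ρ

/-- quenched average of the energy of the kernel `p` -/
noncomputable def m1P (b1 b2 c u : ℝ) (M N : ℕ) (p : PM M) (x : PM M → ℝ) : ℝ :=
  ∫ z, ∑ ρ, gw (vA b1 b2 c M N x) (Pen u N) z ρ * dot z (wP M N p ρ) ∂(gam _)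

/-- quenched average of the absolute deviation of the energy of the kernel `p` -/
noncomputable def DDP (b1 b2 c u : ℝ) (M N : ℕ) (p : PM M) (x : PM M → ℝ) : ℝ :=
  ∫ z, ∑ ρ, gw (vA b1 b2 c M N x) (Pen u N) z ρ *
    |dot z (wP M N p ρ) - m1P b1 b2 c u M N p x| ∂(gam _)

/-- average of `|R01 - u|` for one pair -/
noncomputable def devP (b1 b2 c u : ℝ) (M N : ℕ) (x : PM M → ℝ) : ℝ :=
  GA (n := 1) (vA b1 b2 c M N x) (Pen u N) (fun r => |ovM (r 0) (r 0) 0 1 - u|)

/-- bound of the error in the Ghirlanda-Guerra identities for the kernel `p` -/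
noncomputable def gge (b1 b2 c u : ℝ) (M N : ℕ) (p : PM M) (x : PM M → ℝ) : ℝ :=
  DDP b1 b2 c u M N p x / (sN N * x p) + 2 * M * devP b1 b2 c u M N x

/-- the perturbed pair system as a replica system -/
noncomputable def SP (b1 b2 c u : ℝ) (M N : ℕ) (x : PM M → ℝ) : RS N :=
  RS.ofFeat (vA b1 b2 c M N x) (Pen u N)

/-- the kernel as a function of the entries `T` of the overlap matrix -/
noncomputable def mono3 (a b c : ℕ) (t : ℝ × ℝ × ℝ) : ℝ :=
  t.1 ^ a * t.2.1 ^ b * ((t.1 + t.2.1 + t.2.2) / 4) ^ c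

/-- the kernel `Kp p` is a function of `T` -/
theorem mono3_Tv {M : ℕ} (p : PM M) (R : Matrix (Fin 2) (Fin 2) ℝ) :
    mono3 p.1 p.2.1 p.2.2 (Tv R) = Kp p R := by
  unfold mono3 Tv Kp
  simp only
  rw [← add_assoc]
  congr 2
  ring

/-- continuity of the monomials -/
theorem continuous_mono3 (a b c : ℕ) : Continuous (mono3 a b c) := by
  unfold mono3
  fun_prop

/-- Decomposition of the features. Proof: cases on the index; for `q = ⟨p', i⟩`: if `p' = p` then
`sN N * 0 * vp + (sN N * x p) * vp`, otherwise `sN N * x p' * vp + (sN N * x p) * 0`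
(`Function.update_of_ne`). -/
theorem vA_eq_vt (b1 b2 c : ℝ) (M N : ℕ) (p : PM M) (x : PM M → ℝ) :
    vA b1 b2 c M N x = vt (v0P b1 b2 c M N p x) (wP M N p) (sN N * x p) := by
  funext ρ i
  rcases i with i | i
  · simp [vA, vt, v0P, wP]
  · by_cases h : i.1 = p
    · simp [vA, vt, v0P, wP, vP, h]
    · simp [vA, vt, v0P, wP, vP, h]

/-- The part with `x p = 0` does not depend on `x p` (`Function.update_idem`). -/
theorem v0P_update (b1 b2 c : ℝ) (M N : ℕ) (p : PM M) (x : PM M → ℝ) (y : ℝ) :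
    v0P b1 b2 c M N p (Function.update x p y) = v0P b1 b2 c M N p x := by
  funext ρ
  unfold v0P
  rw [Function.update_idem]

/-- Kernel of `wP`. Proof: sum over the sum type and the sigma type; only `q.1 = p` contributes; `dot_vp`. -/
theorem dot_wP {M N : ℕ} (p : PM M) (ρ ρ' : Cfg (Fin 2) N) :
    dot (wP M N p ρ) (wP M N p ρ') = Kp p (ovM ρ ρ') := by
  rw [← dot_vp]
  unfold dot wP
  rw [Fintype.sum_sum_type]
  simp only [Sum.elim_inl, Sum.elim_inr, mul_zero, Finset.sum_const_zero, zero_add]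
  rw [Fintype.sum_sigma, Finset.sum_eq_single p]
  · simp
  · intro q _ hq
    simp [hq]
  · intro h
    exact absurd (Finset.mem_univ p) h

/-- Orthogonality. Proof: each product vanishes (`Function.update_self`). -/
theorem dot_wP_v0P (b1 b2 c : ℝ) {M N : ℕ} (p : PM M) (x : PM M → ℝ) (ρ ρ' : Cfg (Fin 2) N) :
    dot (wP M N p ρ) (v0P b1 b2 c M N p x ρ') = 0 := by
  unfold dot v0P vA wP vP
  rw [Fintype.sum_sum_type]
  simp only [Sum.elim_inl, Sum.elim_inr, zero_mul, Finset.sum_const_zero, zero_add]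
  refine Finset.sum_eq_zero fun q _ => ?_
  by_cases h : q.1 = p
  · simp [h]
  · simp [h]

/-- The deviation as an instance of the abstract one. Proof: `vA_eq_vt`, unfold. -/
theorem DDP_eq (b1 b2 c u : ℝ) (M N : ℕ) (p : PM M) (x : PM M → ℝ) :
    DDP b1 b2 c u M N p x = aDD (v0P b1 b2 c M N p x) (wP M N p) (Pen u N) (sN N * x p) := by
  unfold DDP aDD
  have h1 : m1P b1 b2 c u M N p x = am1 (v0P b1 b2 c M N p x) (wP M N p) (Pen u N) (sN N * x p) := by
    unfold m1P am1 AL1
    rw [vA_eq_vt b1 b2 c M N p x]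
  rw [h1, vA_eq_vt b1 b2 c M N p x]

/-- The deviation with changed parameter `x p = y`. Proof: `DDP_eq`, `v0P_update`. -/
theorem DDP_update (b1 b2 c u : ℝ) (M N : ℕ) (p : PM M) (x : PM M → ℝ) (y : ℝ) :
    DDP b1 b2 c u M N p (Function.update x p y) =
      aDD (v0P b1 b2 c M N p x) (wP M N p) (Pen u N) (sN N * y) := by
  rw [DDP_eq, v0P_update, Function.update_self]

/-- nonnegativity of the deviation (`gw_nonneg`) -/
theorem DDP_nonneg (b1 b2 c u : ℝ) (M N : ℕ) (p : PM M) (x : PM M → ℝ) :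
    0 ≤ DDP b1 b2 c u M N p x := by
  unfold DDP
  exact integral_nonneg fun z => Finset.sum_nonneg fun ρ _ =>
    mul_nonneg (gw_nonneg _ _ _ _) (abs_nonneg _)

/-- nonnegativity -/
theorem devP_nonneg (b1 b2 c u : ℝ) (M N : ℕ) (x : PM M → ℝ) : 0 ≤ devP b1 b2 c u M N x := by
  unfold devP GA
  exact integral_nonneg fun z => Finset.sum_nonneg fun r _ =>
    mul_nonneg (Finset.prod_nonneg fun l _ => gw_nonneg _ _ _ _) (abs_nonneg _)

/-- nonnegativity of the error -/
theorem gge_nonneg (b1 b2 c u : ℝ) (M N : ℕ) (p : PM M) {x : PM M → ℝ} (hx : 0 ≤ x p) :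
    0 ≤ gge b1 b2 c u M N p x := by
  unfold gge
  exact add_nonneg (div_nonneg (DDP_nonneg _ _ _ _ _ _ _ _) (mul_nonneg (sN_nonneg N) hx))
    (mul_nonneg (by positivity) (devP_nonneg _ _ _ _ _ _ _))

end SKC
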