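import Pool.Agent.H.MP_08eaf3_pr.D.InstDef

/-!
Part D: from the monomials `mono3` to continuous functions of `T`.
-/

set_option autoImplicit false

open MeasureTheory ProbabilityTheory Filter Topology Matrix

namespace SKC

/-- the exponent vector of a kernel index -/
noncomputable def Wei_e (M : ℕ) (p : PM M) : Fin 3 →₀ ℕ :=
  Finsupp.equivFunOnFinite.symm ![(p.1 : ℕ), (p.2.1 : ℕ), (p.2.2 : ℕ)]

theorem Wei_e0 {M : ℕ} (p : PM M) : Wei_e M p 0 = p.1 := rfl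

theorem Wei_e1 {M : ℕ} (p : PM M) : Wei_e M p 1 = p.2.1 := rfl

theorem Wei_e2 {M : ℕ} (p : PM M) : Wei_e M p 2 = p.2.2 := rfl

theorem Wei_e_inj (M : ℕ) : Function.Injective (Wei_e M) := by
  intro p q h
  have h0 : (p.1 : ℕ) = q.1 := by rw [← Wei_e0 p, ← Wei_e0 q, h]
  have h1 : (p.2.1 : ℕ) = q.2.1 := by rw [← Wei_e1 p, ← Wei_e1 q, h]
  have h2 : (p.2.2 : ℕ) = q.2.2 := by rw [← Wei_e2 p, ← Wei_e2 q, h]
  exact Prod.ext (Fin.ext h0) (Prod.ext (Fin.ext h1) (Fin.ext h2))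

theorem Wei_mem {P : MvPolynomial (Fin 3) ℝ} {d : Fin 3 →₀ ℕ} (hd : d ∈ P.support) :
    ∃ p : PM P.totalDegree, Wei_e P.totalDegree p = d := by
  have h : ∀ i, d i < P.totalDegree + 1 := fun i => Nat.lt_succ_of_le
    ((MvPolynomial.monomial_le_degreeOf i hd).trans (MvPolynomial.degreeOf_le_totalDegree P i))
  refine ⟨(⟨d 0, h 0⟩, ⟨d 1, h 1⟩, ⟨d 2, h 2⟩), ?_⟩
  ext i
  fin_cases i <;> rfl

/-- evaluation of a polynomial in three variables as a sum over the kernel indices -/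
theorem Wei_sum (P : MvPolynomial (Fin 3) ℝ) (t : ℝ × ℝ × ℝ) :
    ∑ d ∈ P.support, P.coeff d * (t.1 ^ d 0 * t.2.1 ^ d 1 * ((t.1 + t.2.1 + t.2.2) / 4) ^ d 2) =
      ∑ p : PM P.totalDegree, P.coeff (Wei_e P.totalDegree p) * mono3 p.1 p.2.1 p.2.2 t := by
  classical
  have h1 : ∑ p : PM P.totalDegree, P.coeff (Wei_e P.totalDegree p) * mono3 p.1 p.2.1 p.2.2 t =
      ∑ d ∈ Finset.univ.image (Wei_e P.totalDegree), P.coeff d *
        (t.1 ^ d 0 * t.2.1 ^ d 1 * ((t.1 + t.2.1 + t.2.2) / 4) ^ d 2) := by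
    rw [Finset.sum_image (fun x _ y _ hxy => Wei_e_inj _ hxy)]
    rfl
  rw [h1]
  refine Finset.sum_subset (fun d hd => ?_) (fun d _ hd => ?_)
  · obtain ⟨p, hp⟩ := Wei_mem hd
    exact Finset.mem_image.mpr ⟨p, Finset.mem_univ _, hp⟩
  · rw [MvPolynomial.notMem_support_iff.mp hd, zero_mul]

/-- Weierstrass approximation by the monomials `mono3`. Proof: Stone-Weierstrass
(`ContinuousMap.subalgebra_topologicalClosure_eq_top_of_separatesPoints` or
`ContinuousMap.exists_mem_subalgebra_near_continuousMap_of_separatesPoints`) on the compact space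
`{t | |t.1| ≤ 1 ∧ |t.2.1| ≤ 1 ∧ |t.2.2| ≤ 2}` for the subalgebra `Algebra.adjoin` of the three functions `t.1`,
`t.2.1`, `(t.1 + t.2.1 + t.2.2)/4`, which separate points; every element of the adjoin is a finite linear
combination of the monomials `mono3 a b c` (`Algebra.adjoin_induction`: the set of functions which are, on the
compact set, of the form `∑ p : PM M, a p * mono3 ..` for some `M` contains constants and the generators, is closed
under sums and products: enlarge `M` and use `mono3 a b c * mono3 a' b' c' = mono3 (a+a') (b+b') (c+c')`).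
Alternatively use the set of finite sums over `Finset (ℕ × ℕ × ℕ)` with coefficients first, and
convert to `PM M` at the end. -/
theorem approx_mono3 (ψ : ℝ × ℝ × ℝ → ℝ) (hψ : Continuous ψ) (ε : ℝ) (hε : 0 < ε) :
    ∃ M : ℕ, ∃ a : PM M → ℝ, ∀ t : ℝ × ℝ × ℝ, |t.1| ≤ 1 → |t.2.1| ≤ 1 → |t.2.2| ≤ 2 →
      |ψ t - ∑ p, a p * mono3 p.1 p.2.1 p.2.2 t| ≤ ε := by
  classical
  let K : Set (ℝ × ℝ × ℝ) := Set.Icc (-1) 1 ×ˢ (Set.Icc (-1) 1 ×ˢ Set.Icc (-2) 2)
  have hK : IsCompact K := isCompact_Icc.prod (isCompact_Icc.prod isCompact_Icc)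
  haveI : CompactSpace K := isCompact_iff_compactSpace.mp hK
  let g0 : C(K, ℝ) := ⟨fun t => t.1.1, by fun_prop⟩
  let g1 : C(K, ℝ) := ⟨fun t => t.1.2.1, by fun_prop⟩
  let g2 : C(K, ℝ) := ⟨fun t => (t.1.1 + t.1.2.1 + t.1.2.2) / 4, by fun_prop⟩
  let g : Fin 3 → C(K, ℝ) := ![g0, g1, g2]
  let A : Subalgebra ℝ C(K, ℝ) :=
    (MvPolynomial.aeval g : MvPolynomial (Fin 3) ℝ →ₐ[ℝ] C(K, ℝ)).range
  have hg : ∀ i, g i ∈ A := fun i => ⟨MvPolynomial.X i, MvPolynomial.aeval_X g i⟩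
  have hsep : A.SeparatesPoints := by
    intro x y hxy
    by_cases h0 : x.1.1 = y.1.1
    · by_cases h1 : x.1.2.1 = y.1.2.1
      · refine ⟨g2, ⟨g2, hg 2, rfl⟩, ?_⟩
        intro h2
        refine hxy (Subtype.ext (Prod.ext h0 (Prod.ext h1 ?_)))
        have h3 : (x.1.1 + x.1.2.1 + x.1.2.2) / 4 = (y.1.1 + y.1.2.1 + y.1.2.2) / 4 := h2
        rw [h0, h1] at h3
        linarith
      · exact ⟨g1, ⟨g1, hg 1, rfl⟩, h1⟩
    · exact ⟨g0, ⟨g0, hg 0, rfl⟩, h0⟩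
  obtain ⟨⟨G, P, hP⟩, hG⟩ :=
    ContinuousMap.exists_mem_subalgebra_near_continuous_of_separatesPoints A hsep
      (fun t : K => ψ t.1) (hψ.comp continuous_subtype_val) ε hε
  refine ⟨P.totalDegree, fun p => P.coeff (Wei_e P.totalDegree p), fun t h1 h2 h3 => ?_⟩
  have ht : t ∈ K := ⟨abs_le.mp h1, abs_le.mp h2, abs_le.mp h3⟩
  have h4 := (hG ⟨t, ht⟩).le
  rw [Real.norm_eq_abs, abs_sub_comm] at h4
  refine le_trans (le_of_eq ?_) h4
  congr 2
  rw [← Wei_sum]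
  have h5 : G = ∑ d ∈ P.support, algebraMap ℝ C(K, ℝ) (P.coeff d) * ∏ i, g i ^ d i := by
    rw [← hP]
    exact MvPolynomial.eval₂_eq' _ _ _
  simp only [h5, Fin.prod_univ_three]
  rw [ContinuousMap.coe_sum, Finset.sum_apply]
  refine Finset.sum_congr rfl fun d _ => ?_
  rfl

end SKC
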