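import Pool.Agent.H.MP_08eaf3_pr.D.Pack1
import Pool.Agent.H.MP_08eaf3_pr.D.Wei
import Pool.Agent.H.MP_08eaf3_pr.D.Inst1

/-!
Part D: the family of perturbed pair systems along a good sequence satisfies `IsGG`.
-/

set_option autoImplicit false

open MeasureTheory ProbabilityTheory Filter Topology Matrix

namespace SKC

/-- the family of the perturbed pair systems with `M` kernels, `Nn M` sites, scaling `c M` and
parameters `x M` -/
noncomputable def famP (b1 b2 u : ℝ) (Nn : ℕ → ℕ) (c : ℕ → ℝ) (x : ∀ M, PM M → ℝ) : Fam where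
  I := ℕ
  U := hyperfilter ℕ
  Nn := Nn
  S := fun M => SP b1 b2 (c M) u M (Nn M) (x M)
  u := u

/-- Along a sequence with small errors the Ghirlanda-Guerra identities hold in the limit.
Proof. `hN`: `Nn M ≥ M`, `hyperfilter ℕ ≤ cofinite = atTop` (`Filter.hyperfilter_le_cofinite`,
`Nat.cofinite_eq_atTop`). `gg`: given `ε > 0` take `M0` and `a` of `approx_mono3` for `ψ` and `ε`; for `M ≥ M0` every
`p : PM M0` gives `p' : PM M` with the same exponents (`Fin.castLE`), so by `RS.gg_sum`, `gg_le_gge`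
`|gg f l (∑ a_p mono3 ..)| ≤ (∑ |a_p|) e M`, and with `RS.gg_approx` `|gg f l ψ| ≤ (∑ |a_p|) e M + 2 n ε`, which is
at most `(2 n + 1) ε` eventually. `self`: Markov: `1_(η < |R01 - u|) ≤ |R01 - u| / η`
(`RS.av_mono`, `RS.av_const_mul`), average at most `e M / η`. -/
theorem famP_isGG (b1 b2 : ℝ) {u : ℝ} (hu : |u| ≤ 1) (Nn : ℕ → ℕ) (c : ℕ → ℝ)
    (x : ∀ M, PM M → ℝ) (e : ℕ → ℝ) (he : Tendsto e atTop (𝓝 0)) (hN0 : ∀ M, 0 < Nn M)
    (hN : ∀ M, M ≤ Nn M)
    (hx : ∀ M p, x M p ∈ Set.Icc (1 : ℝ) 2)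
    (hg : ∀ M p, gge b1 b2 (c M) u M (Nn M) p (x M) ≤ e M)
    (hd : ∀ M, devP b1 b2 (c M) u M (Nn M) (x M) ≤ e M) :
    (famP b1 b2 u Nn c x).IsGG := by
  have hU : (hyperfilter ℕ : Filter ℕ) ≤ atTop :=
    hyperfilter_le_cofinite.trans Nat.cofinite_eq_atTop.le
  refine ⟨?_, ?_, ?_⟩
  · have h1 : Tendsto Nn atTop atTop := tendsto_atTop_mono hN tendsto_id
    exact h1.mono_left hU
  · intro n l f hf ψ hψ
    have hf' : ∀ (M : ℕ) (r : Fin n → Cfg (Fin 2) (Nn M)), |f M r| ≤ 1 := fun M r => hf M r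
    have key : Tendsto (fun M : ℕ => (SP b1 b2 (c M) u M (Nn M) (x M)).gg (f M) l ψ)
        (hyperfilter ℕ : Filter ℕ) (𝓝 0) := by
      rw [Metric.tendsto_nhds]
      intro ε hε
      have hn : (0 : ℝ) ≤ n := Nat.cast_nonneg n
      obtain ⟨δ, hδ⟩ : ∃ δ : ℝ, δ = ε / (2 * (2 * n + 1)) := ⟨_, rfl⟩
      have hδ0 : 0 < δ := by rw [hδ]; positivity
      obtain ⟨M0, a, ha⟩ := approx_mono3 ψ hψ δ hδ0
      obtain ⟨A, hA⟩ : ∃ A : ℝ, A = ∑ p, |a p| := ⟨_, rfl⟩
      have h1 : Tendsto (fun M => A * e M) (hyperfilter ℕ : Filter ℕ) (𝓝 (A * 0)) :=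
        (he.mono_left hU).const_mul A
      rw [mul_zero] at h1
      have h2 : ∀ᶠ M in (hyperfilter ℕ : Filter ℕ), A * e M < ε / 2 :=
        h1.eventually (gt_mem_nhds (half_pos hε))
      have h3 : ∀ᶠ M in (hyperfilter ℕ : Filter ℕ), M0 ≤ M :=
        hU (eventually_ge_atTop M0)
      filter_upwards [h2, h3] with M hM1 hM2
      rw [Real.dist_eq, sub_zero]
      have e1 := RS.gg_approx (SP b1 b2 (c M) u M (Nn M) (x M)) (f M) (hf' M) l ψ
        (fun t => ∑ p, a p * mono3 p.1 p.2.1 p.2.2 t) δ ha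
      have e2 := RS.gg_sum (SP b1 b2 (c M) u M (Nn M) (x M)) (f M) l a
        (fun p : PM M0 => mono3 p.1 p.2.1 p.2.2)
      have e3 : ∀ p : PM M0, |(SP b1 b2 (c M) u M (Nn M) (x M)).gg (f M) l
          (mono3 p.1 p.2.1 p.2.2)| ≤ e M := by
        intro p
        have hle : M0 + 1 ≤ M + 1 := by omega
        have h4 := gg_le_gge b1 b2 (c M) hu (hN0 M) (x M)
          (Fin.castLE hle p.1, Fin.castLE hle p.2.1, Fin.castLE hle p.2.2)
          (lt_of_lt_of_le one_pos (hx M _).1) (f M) (hf' M) l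
        exact h4.trans (hg M _)
      have e4 : |(SP b1 b2 (c M) u M (Nn M) (x M)).gg (f M) l
          (fun t => ∑ p, a p * mono3 p.1 p.2.1 p.2.2 t)| ≤ A * e M := by
        rw [e2, hA, Finset.sum_mul]
        refine (Finset.abs_sum_le_sum_abs _ _).trans (Finset.sum_le_sum (fun p _ => ?_))
        rw [abs_mul]
        exact mul_le_mul_of_nonneg_left (e3 p) (abs_nonneg _)
      have e5 : 2 * (n : ℝ) * δ ≤ ε / 2 := by
        have h5 : (0 : ℝ) < 2 * (2 * n + 1) := by positivity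
        have h6 : δ * (2 * (2 * n + 1)) = ε := by
          rw [hδ, div_mul_cancel₀ _ h5.ne']
        nlinarith
      have e6 := abs_sub_abs_le_abs_sub ((SP b1 b2 (c M) u M (Nn M) (x M)).gg (f M) l ψ)
        ((SP b1 b2 (c M) u M (Nn M) (x M)).gg (f M) l
          (fun t => ∑ p, a p * mono3 p.1 p.2.1 p.2.2 t))
      linarith
    exact key
  · intro η hη
    have key : Tendsto (fun M : ℕ => (SP b1 b2 (c M) u M (Nn M) (x M)).av (n := 1)
        (fun r => if η < |ovM (r 0) (r 0) 0 1 - u| then (1 : ℝ) else 0))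
        (hyperfilter ℕ : Filter ℕ) (𝓝 0) := by
      have h1 : Tendsto (fun M => (1 / η) * e M) (hyperfilter ℕ : Filter ℕ) (𝓝 ((1 / η) * 0)) :=
        (he.mono_left hU).const_mul (1 / η)
      rw [mul_zero] at h1
      refine squeeze_zero (fun M => ?_) (fun M => ?_) h1
      · refine RS.av_nonneg _ _ (fun r => ?_)
        split_ifs
        · exact zero_le_one
        · exact le_rfl
      · have h2 := RS.av_mono (SP b1 b2 (c M) u M (Nn M) (x M)) (n := 1)
          (fun r => if η < |ovM (r 0) (r 0) 0 1 - u| then (1 : ℝ) else 0)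
          (fun r => (1 / η) * |ovM (r 0) (r 0) 0 1 - u|) (fun r => by
            show (if η < |ovM (r 0) (r 0) 0 1 - u| then (1 : ℝ) else 0) ≤
              (1 / η) * |ovM (r 0) (r 0) 0 1 - u|
            split_ifs with h
            · rw [one_div, inv_mul_eq_div, le_div_iff₀ hη, one_mul]
              exact h.le
            · positivity)
        rw [RS.av_const_mul] at h2
        refine h2.trans (mul_le_mul_of_nonneg_left ?_ (by positivity))
        exact hd M
    exact key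

end SKC
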