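import Pool.Agent.H.MP_08eaf3_pr.D.Inst2
import Pool.Agent.H.MP_08eaf3_pr.D.Pack
import Pool.Agent.H.MP_08eaf3_pr.H.SeqA

/-!
Part D: output for part H (exactly the hypotheses of `H.exists_HSeq`).
-/

set_option autoImplicit false

open MeasureTheory ProbabilityTheory Filter Topology Matrix

namespace SKC

/-- projection to the cube `[1,2]^PM` -/
noncomputable def toCube {M : ℕ} (x : PM M → ℝ) (q : PM M) : ℝ := max 1 (min 2 (x q))

theorem toCube_mem {M : ℕ} (x : PM M → ℝ) (q : PM M) : toCube x q ∈ Set.Icc (1 : ℝ) 2 :=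
  ⟨le_max_left _ _, max_le (by norm_num) (min_le_left _ _)⟩

theorem toCube_eq {M : ℕ} {x : PM M → ℝ} (hx : ∀ q, x q ∈ Set.Icc (1 : ℝ) 2) : toCube x = x := by
  funext q
  unfold toCube
  rw [min_eq_right (hx q).2, max_eq_right (hx q).1]

theorem continuous_toCube {M : ℕ} : Continuous (toCube (M := M)) := by
  refine continuous_pi (fun q => ?_)
  exact continuous_const.max (continuous_const.min (continuous_apply q))

/-- the Ghirlanda-Guerra error of the primed system, extended continuously from the cube -/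
noncomputable def gP (b1 b2 u : ℝ) (M N : ℕ) (p : PM M) (x : PM M → ℝ) : ℝ :=
  gge b1 b2 (cN N) u M N p (toCube x)

theorem gP_eq (b1 b2 u : ℝ) (M N : ℕ) (p : PM M) {x : PM M → ℝ}
    (hx : ∀ q, x q ∈ Set.Icc (1 : ℝ) 2) : gP b1 b2 u M N p x = gge b1 b2 (cN N) u M N p x := by
  unfold gP
  rw [toCube_eq hx]

theorem gP_nonneg (b1 b2 u : ℝ) (M N : ℕ) (p : PM M) (x : PM M → ℝ) : 0 ≤ gP b1 b2 u M N p x :=
  gge_nonneg b1 b2 (cN N) u M N p (zero_le_one.trans (toCube_mem x p).1)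

theorem gP_cont (b1 b2 u : ℝ) (M N : ℕ) (p : PM M) : Continuous (gP b1 b2 u M N p) := by
  rcases Nat.eq_zero_or_pos N with h | h
  · subst h
    have h0 : sN 0 = 0 := by
      unfold sN
      rw [Nat.cast_zero, Real.zero_rpow (by norm_num)]
    have h1 : gP b1 b2 u M 0 p = fun x => 2 * (M : ℝ) * devP b1 b2 (cN 0) u M 0 (toCube x) := by
      funext x
      unfold gP gge
      rw [h0, zero_mul, div_zero, zero_add]
    rw [h1]
    exact continuous_const.mul ((devP_cont b1 b2 (cN 0) u M 0).comp continuous_toCube)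
  · exact (gge_contOn b1 b2 (cN N) u h p).comp_continuous continuous_toCube
      (fun x => fun q _ => toCube_mem x q)

theorem cN_abs_le (N : ℕ) : |cN N| ≤ 1 := by
  unfold cN
  rw [abs_of_nonneg (Real.sqrt_nonneg _)]
  have h1 : (N : ℝ) / (N + 1) ≤ 1 := by
    rw [div_le_one (by positivity)]
    linarith
  exact (Real.sqrt_le_sqrt h1).trans_eq Real.sqrt_one

theorem devP_eq_dev (b1 b2 u : ℝ) (M N : ℕ) (x : PM M → ℝ) :
    devP b1 b2 (cN N) u M N x = H.dev b1 b2 u M N x := by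
  unfold devP H.dev
  exact H.E1_eq_GA (vA b1 b2 (cN N) M N x) (Pen u N) (fun ρ => |ov ρ ρ 0 1 - u|)

theorem gP_int {b1 b2 : ℝ} (hb1 : 0 ≤ b1) (hb2 : 0 ≤ b2) (u : ℝ) (M : ℕ) :
    ∃ C : ℝ, 0 ≤ C ∧ ∀ N : ℕ, 0 < N → ∀ p : PM M, ∀ δ : ℝ, 0 ≤ δ →
      (∀ x : PM M → ℝ, (∀ p, x p ∈ Set.Icc (1 : ℝ) 2) → H.dev b1 b2 u M N x ≤ δ) →
      ∫ x, gP b1 b2 u M N p x ∂(muX M) ≤ C * ((N : ℝ) ^ (-(1 / 8) : ℝ) + δ) := by
  refine ⟨(19 + 3 * Real.sqrt ((b1 + b2) ^ 2 + 9 * ((M : ℝ) + 1) ^ 3)) + 2 * M, by positivity, ?_⟩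
  intro N hN p δ hδ hd
  have h1 := int_gge_le hb1 hb2 (cN_abs_le N) u hN p δ (fun x hx => by
    rw [devP_eq_dev]; exact hd x hx)
  have h2 : ∫ x, gP b1 b2 u M N p x ∂(muX M) = ∫ x, gge b1 b2 (cN N) u M N p x ∂(muX M) := by
    apply integral_congr_ae
    filter_upwards [ae_mem_cube M] with x hx using gP_eq b1 b2 u M N p hx
  rw [h2]
  refine h1.trans ?_
  have h3 : (0 : ℝ) ≤ (N : ℝ) ^ (-(1 / 8) : ℝ) := Real.rpow_nonneg (Nat.cast_nonneg N) _
  have h4 : (0 : ℝ) ≤ (19 + 3 * Real.sqrt ((b1 + b2) ^ 2 + 9 * ((M : ℝ) + 1) ^ 3)) := by positivity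
  have h5 : (0 : ℝ) ≤ 2 * (M : ℝ) := by positivity
  nlinarith [mul_nonneg h4 hδ, mul_nonneg h5 h3]

/-- the family of the systems of a good sequence -/
noncomputable def seqFam {b1 b2 u A : ℝ} (s : H.HSeq b1 b2 u A (fun M N p x => gP b1 b2 u M N p x)) :
    Fam :=
  famP b1 b2 u s.Nn (fun M => cN (s.Nn M)) s.x

theorem seqFam_isGG {b1 b2 u A : ℝ} (hu : |u| ≤ 1)
    (s : H.HSeq b1 b2 u A (fun M N p x => gP b1 b2 u M N p x)) : (seqFam s).IsGG := by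
  refine famP_isGG b1 b2 hu s.Nn (fun M => cN (s.Nn M)) s.x (fun M => 1 / ((M : ℝ) + 1)) ?_
    s.pos s.ge s.hx (fun M p => ?_) (fun M => ?_)
  · exact tendsto_one_div_add_atTop_nhds_zero_nat
  · have h1 : gP b1 b2 u M (s.Nn M) p (s.x M) ≤ 1 / ((M : ℝ) + 1) := s.hg M p
    rwa [gP_eq b1 b2 u M (s.Nn M) p (s.hx M)] at h1
  · rw [devP_eq_dev]
    exact s.hd M

/-- good sequences exist when the blocks are good -/
theorem exists_seq {b1 b2 u A : ℝ} (hb1 : 0 ≤ b1) (hb2 : 0 ≤ b2) (hu : |u| ≤ 1)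
    (h : ∀ M, H.GoodBlocks b1 b2 u A M) :
    Nonempty (H.HSeq b1 b2 u A (fun M N p x => gP b1 b2 u M N p x)) :=
  H.exists_HSeq hb1 hb2 hu h (fun M N p x => gP b1 b2 u M N p x)
    (fun M N p x => gP_nonneg b1 b2 u M N p x) (fun M N p => gP_cont b1 b2 u M N p)
    (fun M => gP_int hb1 hb2 u M) (fun M N => LZ_cont b1 b2 1 u M N)

end SKC
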