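import Pool.Agent.H.MP_08eaf3_pr.Sys.Ul
import Pool.Agent.H.MP_08eaf3_pr.D.InstDef

/-!
Part D: the Ghirlanda-Guerra expression as a function of `ψ`.
-/

set_option autoImplicit false

open MeasureTheory ProbabilityTheory Filter Topology Matrix

namespace SKC

/-- the entries `T` of overlap matrices lie in the box -/
theorem Tv_mem {N : ℕ} (ρ ρ' : Cfg (Fin 2) N) :
    |(Tv (ovM ρ ρ')).1| ≤ 1 ∧ |(Tv (ovM ρ ρ')).2.1| ≤ 1 ∧ |(Tv (ovM ρ ρ')).2.2| ≤ 2 := by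
  refine ⟨abs_ovM_le ρ ρ' 0 0, abs_ovM_le ρ ρ' 1 1, ?_⟩
  change |ovM ρ ρ' 0 1 + ovM ρ ρ' 1 0| ≤ 2
  have h1 := abs_ovM_le ρ ρ' 0 1
  have h2 := abs_ovM_le ρ ρ' 1 0
  have h3 := abs_add_le (ovM ρ ρ' 0 1) (ovM ρ ρ' 1 0)
  linarith

/-- an average is linear in `ψ` -/
theorem Pack1_lin {N n : ℕ} (S : RS N) {J : Type} [Fintype J] (a : J → ℝ)
    (f : (Fin n → Cfg (Fin 2) N) → ℝ) (g : J → (Fin n → Cfg (Fin 2) N) → ℝ) :
    S.av (fun r => f r * ∑ j, a j * g j r) = ∑ j, a j * S.av (fun r => f r * g j r) := by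
  have h : (fun r => f r * ∑ j, a j * g j r) = fun r => ∑ j, a j * (f r * g j r) := by
    funext r
    rw [Finset.mul_sum]
    exact Finset.sum_congr rfl fun j _ => by ring
  rw [h, S.av_sum]
  exact Finset.sum_congr rfl fun j _ => S.av_const_mul _ _

/-- The expression is linear in `ψ`. Proof: `RS.av_sum`, `RS.av_const_mul`, distribute. -/
theorem RS.gg_sum {N n : ℕ} (S : RS N) (f : (Fin n → Cfg (Fin 2) N) → ℝ) (l : Fin n) {J : Type}
    [Fintype J] (a : J → ℝ) (ψ : J → ℝ × ℝ × ℝ → ℝ) :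
    S.gg f l (fun t => ∑ j, a j * ψ j t) = ∑ j, a j * S.gg f l (ψ j) := by
  unfold RS.gg
  have h1 : S.av (n := 2) (fun r => ∑ j, a j * ψ j (Tv (ovM (r 0) (r 1)))) =
      ∑ j, a j * S.av (n := 2) (fun r => ψ j (Tv (ovM (r 0) (r 1)))) := by
    rw [S.av_sum]
    exact Finset.sum_congr rfl fun j _ => S.av_const_mul _ _
  rw [Pack1_lin, h1]
  simp_rw [Pack1_lin S a f]
  rw [Finset.sum_comm, Finset.mul_sum, Finset.mul_sum, ← Finset.sum_sub_distrib,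
    ← Finset.sum_sub_distrib]
  refine Finset.sum_congr rfl fun j _ => ?_
  rw [← Finset.mul_sum]
  ring

/-- one average of `f * ψ` -/
theorem Pack1_diff {N n : ℕ} (S : RS N) (f g g' : (Fin n → Cfg (Fin 2) N) → ℝ)
    (hf : ∀ r, |f r| ≤ 1) (ε : ℝ) (h : ∀ r, |g r - g' r| ≤ ε) :
    |S.av (fun r => f r * g r) - S.av (fun r => f r * g' r)| ≤ ε := by
  rw [← S.av_sub]
  refine S.abs_av_le _ _ fun r => ?_
  rw [← mul_sub, abs_mul]
  calc |f r| * |g r - g' r| ≤ 1 * |g r - g' r| :=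
        mul_le_mul_of_nonneg_right (hf r) (abs_nonneg _)
    _ ≤ ε := by rw [one_mul]; exact h r

/-- The expression depends continuously on `ψ`. Proof: each of the averages of `f * (ψ - ψ')` is at most `ε`
(`RS.abs_av_sub_le`, `RS.abs_av_le`, `Tv_mem`); there are `n` times the first, one second, `n - 1` third ones,
total `2 n ε`. -/
theorem RS.gg_approx {N n : ℕ} (S : RS N) (f : (Fin n → Cfg (Fin 2) N) → ℝ) (hf : ∀ r, |f r| ≤ 1)
    (l : Fin n) (ψ ψ' : ℝ × ℝ × ℝ → ℝ) (ε : ℝ)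
    (h : ∀ t : ℝ × ℝ × ℝ, |t.1| ≤ 1 → |t.2.1| ≤ 1 → |t.2.2| ≤ 2 → |ψ t - ψ' t| ≤ ε) :
    |S.gg f l ψ - S.gg f l ψ'| ≤ 2 * n * ε := by
  have hT : ∀ ρ ρ' : Cfg (Fin 2) N, |ψ (Tv (ovM ρ ρ')) - ψ' (Tv (ovM ρ ρ'))| ≤ ε := fun ρ ρ' =>
    h _ (Tv_mem ρ ρ').1 (Tv_mem ρ ρ').2.1 (Tv_mem ρ ρ').2.2
  have hn : 1 ≤ n := by
    have := l.isLt
    omega
  have hε : 0 ≤ ε := (abs_nonneg _).trans (h 0 (by simp) (by simp) (by simp))
  have h1 := Pack1_diff S (n := n + 1) (fun r => f (fun j => r j.castSucc))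
    (fun r => ψ (Tv (ovM (r l.castSucc) (r (Fin.last n)))))
    (fun r => ψ' (Tv (ovM (r l.castSucc) (r (Fin.last n))))) (fun r => hf _) ε (fun r => hT _ _)
  have h2 : |S.av (n := 2) (fun r => ψ (Tv (ovM (r 0) (r 1)))) -
      S.av (n := 2) (fun r => ψ' (Tv (ovM (r 0) (r 1))))| ≤ ε := by
    rw [← S.av_sub]
    exact S.abs_av_le _ _ fun r => hT _ _
  have h3 : |S.av f| ≤ 1 := S.abs_av_le _ _ hf
  have h4 : |∑ j ∈ Finset.univ.erase l, S.av (fun r => f r * ψ (Tv (ovM (r l) (r j)))) -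
      ∑ j ∈ Finset.univ.erase l, S.av (fun r => f r * ψ' (Tv (ovM (r l) (r j))))| ≤
      ((n : ℝ) - 1) * ε := by
    rw [← Finset.sum_sub_distrib]
    refine (Finset.abs_sum_le_sum_abs _ _).trans ?_
    refine (Finset.sum_le_sum fun j _ => Pack1_diff S f (fun r => ψ (Tv (ovM (r l) (r j))))
      (fun r => ψ' (Tv (ovM (r l) (r j)))) hf ε (fun r => hT _ _)).trans ?_
    rw [Finset.sum_const, Finset.card_erase_of_mem (Finset.mem_univ l), Finset.card_univ,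
      Fintype.card_fin, nsmul_eq_mul, Nat.cast_sub hn, Nat.cast_one]
  have h5 : S.gg f l ψ - S.gg f l ψ' =
      (n : ℝ) * (S.av (n := n + 1)
        (fun r => f (fun j => r j.castSucc) * ψ (Tv (ovM (r l.castSucc) (r (Fin.last n))))) -
        S.av (n := n + 1)
        (fun r => f (fun j => r j.castSucc) * ψ' (Tv (ovM (r l.castSucc) (r (Fin.last n)))))) -
      S.av f * (S.av (n := 2) (fun r => ψ (Tv (ovM (r 0) (r 1)))) -
        S.av (n := 2) (fun r => ψ' (Tv (ovM (r 0) (r 1))))) -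
      (∑ j ∈ Finset.univ.erase l, S.av (fun r => f r * ψ (Tv (ovM (r l) (r j)))) -
      ∑ j ∈ Finset.univ.erase l, S.av (fun r => f r * ψ' (Tv (ovM (r l) (r j))))) := by
    unfold RS.gg
    ring
  rw [h5]
  have hn0 : (0 : ℝ) ≤ n := Nat.cast_nonneg n
  have h6 : |(n : ℝ) * (S.av (n := n + 1)
        (fun r => f (fun j => r j.castSucc) * ψ (Tv (ovM (r l.castSucc) (r (Fin.last n))))) -
        S.av (n := n + 1)
        (fun r => f (fun j => r j.castSucc) * ψ' (Tv (ovM (r l.castSucc) (r (Fin.last n))))))| ≤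
      n * ε := by
    rw [abs_mul, abs_of_nonneg hn0]
    exact mul_le_mul_of_nonneg_left h1 hn0
  have h7 : |S.av f * (S.av (n := 2) (fun r => ψ (Tv (ovM (r 0) (r 1)))) -
        S.av (n := 2) (fun r => ψ' (Tv (ovM (r 0) (r 1)))))| ≤ ε := by
    rw [abs_mul]
    calc _ ≤ 1 * ε := mul_le_mul h3 h2 (abs_nonneg _) zero_le_one
      _ = ε := one_mul ε
  have h8 := abs_le.1 h6
  have h9 := abs_le.1 h7
  have h10 := abs_le.1 h4
  rw [abs_le]
  constructor <;> nlinarith [h8.1, h8.2, h9.1, h9.2, h10.1, h10.2]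

end SKC
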